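import Pool.Agent.Helper59.WH.Defs

set_option autoImplicit false

/-!
# Elementary identities in weak Hopf algebras
-/

namespace Pool.Agent.Helper59.WH

open TensorProduct

section slices

variable {k H : Type*} [Field k] [Ring H] [Algebra k H]

/-- `(id ⊗ g) u` -/
noncomputable def sl (g : H →ₗ[k] k) : H ⊗[k] H →ₗ[k] H :=
  (TensorProduct.rid k H).toLinearMap ∘ₗ TensorProduct.map LinearMap.id g

/-- `(g ⊗ id) u` -/
noncomputable def sr (g : H →ₗ[k] k) : H ⊗[k] H →ₗ[k] H :=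
  (TensorProduct.lid k H).toLinearMap ∘ₗ TensorProduct.map g LinearMap.id

@[simp] theorem sl_tmul (g : H →ₗ[k] k) (a b : H) : sl g (a ⊗ₜ[k] b) = g b • a := by
  simp [sl]

@[simp] theorem sr_tmul (g : H →ₗ[k] k) (a b : H) : sr g (a ⊗ₜ[k] b) = g a • b := by
  simp [sr]

theorem sl_mul_left (g : H →ₗ[k] k) (a : H) (u : H ⊗[k] H) :
    sl g ((a ⊗ₜ[k] 1) * u) = a * sl g u := by
  induction u with
  | zero => simp
  | tmul x y => simp
  | add x y hx hy => rw [mul_add, map_add, hx, hy, map_add, mul_add]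

theorem sl_mul_right (g : H →ₗ[k] k) (a : H) (u : H ⊗[k] H) :
    sl g (u * (a ⊗ₜ[k] 1)) = sl g u * a := by
  induction u with
  | zero => simp
  | tmul x y => simp
  | add x y hx hy => rw [add_mul, map_add, hx, hy, map_add, add_mul]

theorem sr_mul_left (g : H →ₗ[k] k) (a : H) (u : H ⊗[k] H) :
    sr g ((1 ⊗ₜ[k] a) * u) = a * sr g u := by
  induction u with
  | zero => simp
  | tmul x y => simp
  | add x y hx hy => rw [mul_add, map_add, hx, hy, map_add, mul_add]

theorem sr_mul_right (g : H →ₗ[k] k) (a : H) (u : H ⊗[k] H) :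
    sr g (u * (1 ⊗ₜ[k] a)) = sr g u * a := by
  induction u with
  | zero => simp
  | tmul x y => simp
  | add x y hx hy => rw [add_mul, map_add, hx, hy, map_add, add_mul]

theorem sl_one_mul (g : H →ₗ[k] k) (a : H) (u : H ⊗[k] H) :
    sl g ((1 ⊗ₜ[k] a) * u) = sl (g ∘ₗ LinearMap.mulLeft k a) u := by
  induction u with
  | zero => simp
  | tmul x y => simp
  | add x y hx hy => rw [mul_add, map_add, hx, hy, map_add]

theorem sl_mul_one (g : H →ₗ[k] k) (a : H) (u : H ⊗[k] H) :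
    sl g (u * (1 ⊗ₜ[k] a)) = sl (g ∘ₗ LinearMap.mulRight k a) u := by
  induction u with
  | zero => simp
  | tmul x y => simp
  | add x y hx hy => rw [add_mul, map_add, hx, hy, map_add]

theorem sr_one_mul (g : H →ₗ[k] k) (a : H) (u : H ⊗[k] H) :
    sr g ((a ⊗ₜ[k] 1) * u) = sr (g ∘ₗ LinearMap.mulLeft k a) u := by
  induction u with
  | zero => simp
  | tmul x y => simp
  | add x y hx hy => rw [mul_add, map_add, hx, hy, map_add]

theorem sr_mul_one (g : H →ₗ[k] k) (a : H) (u : H ⊗[k] H) :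
    sr g (u * (a ⊗ₜ[k] 1)) = sr (g ∘ₗ LinearMap.mulRight k a) u := by
  induction u with
  | zero => simp
  | tmul x y => simp
  | add x y hx hy => rw [add_mul, map_add, hx, hy, map_add]

theorem sl_add (g g' : H →ₗ[k] k) (u : H ⊗[k] H) : sl (g + g') u = sl g u + sl g' u := by
  induction u with
  | zero => simp
  | tmul x y => simp [add_smul]
  | add x y hx hy => rw [map_add, hx, hy, map_add, map_add]; abel

theorem sl_smul (c : k) (g : H →ₗ[k] k) (u : H ⊗[k] H) : sl (c • g) u = c • sl g u := by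
  induction u with
  | zero => simp
  | tmul x y => simp [mul_smul]
  | add x y hx hy => rw [map_add, hx, hy, map_add, smul_add]

theorem sr_add (g g' : H →ₗ[k] k) (u : H ⊗[k] H) : sr (g + g') u = sr g u + sr g' u := by
  induction u with
  | zero => simp
  | tmul x y => simp [add_smul]
  | add x y hx hy => rw [map_add, hx, hy, map_add, map_add]; abel

theorem sr_smul (c : k) (g : H →ₗ[k] k) (u : H ⊗[k] H) : sr (c • g) u = c • sr g u := by
  induction u with
  | zero => simp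
  | tmul x y => simp [mul_smul]
  | add x y hx hy => rw [map_add, hx, hy, map_add, smul_add]

/-- if all slices of `u` lie in `M` then `u` is a sum of `α ⊗ β` with `α ∈ M` -/
theorem exists_repr_left (M : Submodule k H) (u : H ⊗[k] H) (h : ∀ g, sl g u ∈ M) :
    ∃ (n : ℕ) (α β : Fin n → H), (∀ i, α i ∈ M) ∧ u = ∑ i, α i ⊗ₜ[k] β i := by
  classical
  let 𝒞 := Module.Basis.ofVectorSpace k H
  obtain ⟨b, hb⟩ := TensorProduct.eq_repr_basis_right 𝒞 u
  have hbM : ∀ i, b i ∈ M := by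
    intro i
    have h1 := h (𝒞.coord i)
    rw [← hb, Finsupp.sum, map_sum, Finset.sum_congr rfl (fun j _ => sl_tmul _ _ _)] at h1
    by_cases hi : i ∈ b.support
    · rw [Finset.sum_eq_single i] at h1
      · simpa using h1
      · intro j _ hj
        rw [Module.Basis.coord_apply, Module.Basis.repr_self, Finsupp.single_eq_of_ne (Ne.symm hj),
          zero_smul]
      · intro hc; exact absurd hi hc
    · rw [Finsupp.notMem_support_iff.mp hi]; exact M.zero_mem
  let e := b.support.equivFin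
  refine ⟨b.support.card, fun i => b (e.symm i), fun i => 𝒞 (e.symm i), fun i => hbM _, ?_⟩
  rw [← hb, Finsupp.sum]
  rw [← Finset.sum_coe_sort]
  exact (Equiv.sum_comp e.symm (fun i : b.support => b i ⊗ₜ[k] 𝒞 i)).symm

theorem exists_repr_right (M : Submodule k H) (u : H ⊗[k] H) (h : ∀ g, sr g u ∈ M) :
    ∃ (n : ℕ) (α β : Fin n → H), (∀ i, β i ∈ M) ∧ u = ∑ i, α i ⊗ₜ[k] β i := by
  classical
  let ℬ := Module.Basis.ofVectorSpace k H
  obtain ⟨b, hb⟩ := TensorProduct.eq_repr_basis_left ℬ u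
  have hbM : ∀ i, b i ∈ M := by
    intro i
    have h1 := h (ℬ.coord i)
    rw [← hb, Finsupp.sum, map_sum, Finset.sum_congr rfl (fun j _ => sr_tmul _ _ _)] at h1
    by_cases hi : i ∈ b.support
    · rw [Finset.sum_eq_single i] at h1
      · simpa using h1
      · intro j _ hj
        rw [Module.Basis.coord_apply, Module.Basis.repr_self, Finsupp.single_eq_of_ne (Ne.symm hj),
          zero_smul]
      · intro hc; exact absurd hi hc
    · rw [Finsupp.notMem_support_iff.mp hi]; exact M.zero_mem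
  let e := b.support.equivFin
  refine ⟨b.support.card, fun i => ℬ (e.symm i), fun i => b (e.symm i), fun i => hbM _, ?_⟩
  rw [← hb, Finsupp.sum]
  rw [← Finset.sum_coe_sort]
  exact (Equiv.sum_comp e.symm (fun i : b.support => ℬ i ⊗ₜ[k] b i)).symm

theorem sl_ext {u : H ⊗[k] H} (h : ∀ g, sl g u = 0) : u = 0 := by
  obtain ⟨n, α, β, hα, rfl⟩ := exists_repr_left (⊥ : Submodule k H) u
    (fun g => by rw [h g]; exact Submodule.zero_mem _)
  refine Finset.sum_eq_zero fun i _ => ?_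
  rw [(Submodule.mem_bot k).mp (hα i), zero_tmul]

theorem sr_ext {u : H ⊗[k] H} (h : ∀ g, sr g u = 0) : u = 0 := by
  obtain ⟨n, α, β, hβ, rfl⟩ := exists_repr_right (⊥ : Submodule k H) u
    (fun g => by rw [h g]; exact Submodule.zero_mem _)
  refine Finset.sum_eq_zero fun i _ => ?_
  rw [(Submodule.mem_bot k).mp (hβ i), tmul_zero]

theorem exists_repr (u : H ⊗[k] H) :
    ∃ (n : ℕ) (α β : Fin n → H), u = ∑ i, α i ⊗ₜ[k] β i := by
  obtain ⟨n, α, β, _, h⟩ := exists_repr_left (⊤ : Submodule k H) u (fun _ => trivial)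
  exact ⟨n, α, β, h⟩

end slices

section alg

variable {k H : Type*} [Field k] [Ring H] [Algebra k H]
  {Δ : H →ₗ[k] H ⊗[k] H} {ε : H →ₗ[k] k} {S : H →ₗ[k] H}

/-- the right leg of `Δ(1)` -/
noncomputable def Rt (Δ : H →ₗ[k] H ⊗[k] H) : Submodule k H where
  carrier := {t | ∃ g, sr g (Δ 1) = t}
  add_mem' := by
    rintro _ _ ⟨g, rfl⟩ ⟨g', rfl⟩
    exact ⟨g + g', sr_add _ _ _⟩
  zero_mem' := ⟨0, by have := sr_smul (0 : k) (0 : H →ₗ[k] k) (Δ 1); simpa using this⟩
  smul_mem' := by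
    rintro c _ ⟨g, rfl⟩
    exact ⟨c • g, sr_smul _ _ _⟩

/-- the left leg of `Δ(1)` -/
noncomputable def Rs (Δ : H →ₗ[k] H ⊗[k] H) : Submodule k H where
  carrier := {t | ∃ g, sl g (Δ 1) = t}
  add_mem' := by
    rintro _ _ ⟨g, rfl⟩ ⟨g', rfl⟩
    exact ⟨g + g', sl_add _ _ _⟩
  zero_mem' := ⟨0, by have := sl_smul (0 : k) (0 : H →ₗ[k] k) (Δ 1); simpa using this⟩
  smul_mem' := by
    rintro c _ ⟨g, rfl⟩
    exact ⟨c • g, sl_smul _ _ _⟩

theorem sr_mem_Rt (g : H →ₗ[k] k) : sr g (Δ 1) ∈ Rt Δ := ⟨g, rfl⟩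

theorem sl_mem_Rs (g : H →ₗ[k] k) : sl g (Δ 1) ∈ Rs Δ := ⟨g, rfl⟩

theorem exists_Rt_repr (Δ : H →ₗ[k] H ⊗[k] H) :
    ∃ (n : ℕ) (f f' : Fin n → H), (∀ i, f' i ∈ Rt Δ) ∧ Δ 1 = ∑ i, f i ⊗ₜ[k] f' i :=
  exists_repr_right (Rt Δ) (Δ 1) sr_mem_Rt

theorem exists_Rs_repr (Δ : H →ₗ[k] H ⊗[k] H) :
    ∃ (n : ℕ) (f f' : Fin n → H), (∀ i, f i ∈ Rs Δ) ∧ Δ 1 = ∑ i, f i ⊗ₜ[k] f' i :=
  exists_repr_left (Rs Δ) (Δ 1) sl_mem_Rs

theorem fg_legs (u : H ⊗[k] H) : ∃ W : Submodule k H, W.FG ∧ ∀ g, sl g u ∈ W := by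
  obtain ⟨n, α, β, rfl⟩ := exists_repr u
  refine ⟨Submodule.span k (Set.range α), Submodule.fg_span (Set.finite_range α), fun g => ?_⟩
  rw [map_sum]
  refine Submodule.sum_mem _ fun i _ => ?_
  rw [sl_tmul]
  exact Submodule.smul_mem _ _ (Submodule.subset_span ⟨i, rfl⟩)

theorem fg_legs' (u : H ⊗[k] H) : ∃ W : Submodule k H, W.FG ∧ ∀ g, sr g u ∈ W := by
  obtain ⟨n, α, β, rfl⟩ := exists_repr u
  refine ⟨Submodule.span k (Set.range β), Submodule.fg_span (Set.finite_range β), fun g => ?_⟩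
  rw [map_sum]
  refine Submodule.sum_mem _ fun i _ => ?_
  rw [sr_tmul]
  exact Submodule.smul_mem _ _ (Submodule.subset_span ⟨i, rfl⟩)

theorem fg_of_le {A B : Submodule k H} (hB : B.FG) (h : A ≤ B) : A.FG := by
  have : Module.Finite k B := Module.Finite.iff_fg.mpr hB
  rw [← Module.Finite.iff_fg (N := A)]
  exact Module.Finite.of_injective (Submodule.inclusion h) (Submodule.inclusion_injective h)

theorem fg_Rt (Δ : H →ₗ[k] H ⊗[k] H) : (Rt Δ).FG := by
  obtain ⟨W, hW, h⟩ := fg_legs' (Δ 1)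
  refine fg_of_le hW ?_
  rintro _ ⟨g, rfl⟩
  exact h g

theorem fg_Rs (Δ : H →ₗ[k] H ⊗[k] H) : (Rs Δ).FG := by
  obtain ⟨W, hW, h⟩ := fg_legs (Δ 1)
  refine fg_of_le hW ?_
  rintro _ ⟨g, rfl⟩
  exact h g

variable (W : WeakHopfOn Δ ε S (1 : H))

/-- the source map `ε_s(x) = S(x₁) x₂` -/
noncomputable def es (Δ : H →ₗ[k] H ⊗[k] H) (S : H →ₗ[k] H) : H →ₗ[k] H :=
  LinearMap.mul' k H ∘ₗ TensorProduct.map S LinearMap.id ∘ₗ Δ

/-- the target map `ε_t(x) = x₁ S(x₂)` -/
noncomputable def et (Δ : H →ₗ[k] H ⊗[k] H) (S : H →ₗ[k] H) : H →ₗ[k] H :=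
  LinearMap.mul' k H ∘ₗ TensorProduct.map LinearMap.id S ∘ₗ Δ

/-- `(g ⊗ id ⊗ id)` -/
noncomputable def th (g : H →ₗ[k] k) : H ⊗[k] (H ⊗[k] H) →ₗ[k] H ⊗[k] H :=
  (TensorProduct.lid k (H ⊗[k] H)).toLinearMap ∘ₗ TensorProduct.map g LinearMap.id

@[simp] theorem th_tmul (g : H →ₗ[k] k) (a : H) (u : H ⊗[k] H) :
    th g (a ⊗ₜ[k] u) = g a • u := by
  simp [th]

include W

theorem WeakHopfOn.mul' (x y : H) : Δ (x * y) = Δ x * Δ y :=
  W.comul_mul x y (one_mul _) (one_mul _)

theorem WeakHopfOn.cl (x : H) : sr ε (Δ x) = x := W.counit_left x (one_mul _)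

theorem WeakHopfOn.cr (x : H) : sl ε (Δ x) = x := W.counit_right x (one_mul _)

theorem WeakHopfOn.ca (x : H) : TensorProduct.assoc k H H H (TensorProduct.map Δ LinearMap.id (Δ x)) =
      TensorProduct.map LinearMap.id Δ (Δ x) := W.coassoc x (one_mul _)

theorem WeakHopfOn.one_mul' (x : H) : Δ 1 * Δ x = Δ x := by
  rw [← W.mul', one_mul]

theorem WeakHopfOn.mul_one' (x : H) : Δ x * Δ 1 = Δ x := by
  rw [← W.mul', mul_one]

theorem Rt_left {t : H} (ht : t ∈ Rt Δ) : Δ t = (t ⊗ₜ[k] 1) * Δ 1 := by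
  obtain ⟨g, rfl⟩ := ht
  have h := congrArg (th g) W.comul_unit
  have h1 : ∀ v : H ⊗[k] H, th g (TensorProduct.map LinearMap.id Δ v) = Δ (sr g v) := by
    intro v
    induction v with
    | zero => simp
    | tmul x y => simp
    | add x y hx hy => rw [map_add, map_add, hx, hy, map_add, map_add]
  have h2 : ∀ v w : H ⊗[k] H, th g (TensorProduct.assoc k H H H (v ⊗ₜ[k] 1) * (1 ⊗ₜ[k] w)) =
      (sr g v ⊗ₜ[k] 1) * w := by
    intro v w
    induction v with
    | zero => simp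
    | tmul x y => simp [← TensorProduct.smul_tmul']
    | add x y hx hy =>
      rw [add_tmul, map_add, add_mul, map_add, hx, hy, map_add, add_tmul, add_mul]
  rw [h1, h2] at h
  exact h

theorem Rt_right {t : H} (ht : t ∈ Rt Δ) : Δ t = Δ 1 * (t ⊗ₜ[k] 1) := by
  obtain ⟨g, rfl⟩ := ht
  have h := congrArg (th g) W.comul_unit'
  have h1 : ∀ v : H ⊗[k] H, th g (TensorProduct.map LinearMap.id Δ v) = Δ (sr g v) := by
    intro v
    induction v with
    | zero => simp
    | tmul x y => simp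
    | add x y hx hy => rw [map_add, map_add, hx, hy, map_add, map_add]
  have h2 : ∀ v w : H ⊗[k] H, th g ((1 ⊗ₜ[k] w) * TensorProduct.assoc k H H H (v ⊗ₜ[k] 1)) =
      w * (sr g v ⊗ₜ[k] 1) := by
    intro v w
    induction v with
    | zero => simp
    | tmul x y => simp [← TensorProduct.smul_tmul']
    | add x y hx hy =>
      rw [add_tmul, map_add, mul_add, map_add, hx, hy, map_add, add_tmul, mul_add]
  rw [h1, h2] at h
  exact h

theorem Rs_right {s : H} (hs : s ∈ Rs Δ) : Δ s = Δ 1 * (1 ⊗ₜ[k] s) := by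
  obtain ⟨g, rfl⟩ := hs
  have h := congrArg (TensorProduct.map LinearMap.id (sl g)) ((W.ca 1).trans W.comul_unit)
  have h1 : ∀ v : H ⊗[k] H, TensorProduct.map (LinearMap.id : H →ₗ[k] H) (sl g)
      (TensorProduct.assoc k H H H (TensorProduct.map Δ LinearMap.id v)) = Δ (sl g v) := by
    intro v
    induction v with
    | zero => simp
    | tmul x y =>
      rw [TensorProduct.map_tmul, LinearMap.id_apply, sl_tmul, map_smul]
      have : ∀ w : H ⊗[k] H, TensorProduct.map (LinearMap.id : H →ₗ[k] H) (sl g)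
          (TensorProduct.assoc k H H H (w ⊗ₜ[k] y)) = g y • w := by
        intro w
        induction w with
        | zero => simp
        | tmul a b => simp
        | add a b ha hb => rw [add_tmul, map_add, map_add, ha, hb, smul_add]
      exact this _
    | add x y hx hy => simp only [map_add, hx, hy]
  have h2 : ∀ v w : H ⊗[k] H, TensorProduct.map (LinearMap.id : H →ₗ[k] H) (sl g)
      (TensorProduct.assoc k H H H (v ⊗ₜ[k] 1) * (1 ⊗ₜ[k] w)) = v * (1 ⊗ₜ[k] sl g w) := by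
    intro v w
    induction v with
    | zero => simp
    | tmul x y =>
      induction w with
      | zero => simp
      | tmul a b => simp
      | add a b ha hb => rw [tmul_add, mul_add, map_add, ha, hb, map_add, tmul_add, mul_add]
    | add x y hx hy =>
      rw [add_tmul, map_add, add_mul, map_add, hx, hy, add_mul]
  rw [h1, h2] at h
  exact h

theorem Rs_left {s : H} (hs : s ∈ Rs Δ) : Δ s = (1 ⊗ₜ[k] s) * Δ 1 := by
  obtain ⟨g, rfl⟩ := hs
  have h := congrArg (TensorProduct.map LinearMap.id (sl g)) ((W.ca 1).trans W.comul_unit')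
  have h1 : ∀ v : H ⊗[k] H, TensorProduct.map (LinearMap.id : H →ₗ[k] H) (sl g)
      (TensorProduct.assoc k H H H (TensorProduct.map Δ LinearMap.id v)) = Δ (sl g v) := by
    intro v
    induction v with
    | zero => simp
    | tmul x y =>
      rw [TensorProduct.map_tmul, LinearMap.id_apply, sl_tmul, map_smul]
      have : ∀ w : H ⊗[k] H, TensorProduct.map (LinearMap.id : H →ₗ[k] H) (sl g)
          (TensorProduct.assoc k H H H (w ⊗ₜ[k] y)) = g y • w := by
        intro w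
        induction w with
        | zero => simp
        | tmul a b => simp
        | add a b ha hb => rw [add_tmul, map_add, map_add, ha, hb, smul_add]
      exact this _
    | add x y hx hy => simp only [map_add, hx, hy]
  have h2 : ∀ v w : H ⊗[k] H, TensorProduct.map (LinearMap.id : H →ₗ[k] H) (sl g)
      ((1 ⊗ₜ[k] w) * TensorProduct.assoc k H H H (v ⊗ₜ[k] 1)) = (1 ⊗ₜ[k] sl g w) * v := by
    intro v w
    induction v with
    | zero => simp
    | tmul x y =>
      induction w with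
      | zero => simp
      | tmul a b => simp
      | add a b ha hb => rw [tmul_add, add_mul, map_add, ha, hb, map_add, tmul_add, add_mul]
    | add x y hx hy =>
      rw [add_tmul, map_add, mul_add, map_add, hx, hy, mul_add]
  rw [h1, h2] at h
  exact h

theorem es_eq (x : H) : es Δ S x = sl ε ((1 ⊗ₜ[k] x) * Δ 1) := by
  rw [sl_one_mul]
  exact W.antipode_source x (one_mul _)

theorem et_eq (x : H) : et Δ S x = sr ε (Δ 1 * (x ⊗ₜ[k] 1)) := by
  rw [sr_mul_one]
  exact W.antipode_target x (one_mul _)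

theorem es_mem (x : H) : es Δ S x ∈ Rs Δ := by
  rw [es_eq W, sl_one_mul]; exact sl_mem_Rs _

theorem et_mem (x : H) : et Δ S x ∈ Rt Δ := by
  rw [et_eq W, sr_mul_one]; exact sr_mem_Rt _

theorem es_of_mem {s : H} (hs : s ∈ Rs Δ) : es Δ S s = s := by
  rw [es_eq W, ← Rs_left W hs, W.cr]

theorem et_of_mem {t : H} (ht : t ∈ Rt Δ) : et Δ S t = t := by
  rw [et_eq W, ← Rt_right W ht, W.cl]

omit W in
theorem es_mul_right' {x z : H} (h : Δ (x * z) = Δ x * (1 ⊗ₜ[k] z)) :
    es Δ S (x * z) = es Δ S x * z := by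
  have h1 : ∀ u : H ⊗[k] H, LinearMap.mul' k H (TensorProduct.map S LinearMap.id (u * (1 ⊗ₜ[k] z))) =
      LinearMap.mul' k H (TensorProduct.map S LinearMap.id u) * z := by
    intro u
    induction u with
    | zero => simp
    | tmul a b => simp [mul_assoc]
    | add a b ha hb => rw [add_mul, map_add, map_add, ha, hb, map_add, map_add, add_mul]
  simp only [es, LinearMap.comp_apply]
  rw [h, h1]

/-- `ε_s(x z) = ε_s(x) z` for `z` in the left leg -/
theorem es_mul_right (x : H) {z : H} (hz : z ∈ Rs Δ) : es Δ S (x * z) = es Δ S x * z := by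
  apply es_mul_right'
  rw [W.mul', Rs_right W hz, ← mul_assoc, W.mul_one']

/-- counit axiom at `1`: `ε(x z) = ∑ ε(x f_j) ε(f'_j z)` -/
theorem counit_one (x z : H) : ε (x * z) = ε (x * sl ε (Δ 1 * (1 ⊗ₜ[k] z))) := by
  have h := W.counit_mul x 1 z (one_mul _) (one_mul _) (one_mul _)
  rw [mul_one] at h
  rw [h, sl_mul_one]
  have h1 : ∀ u : H ⊗[k] H, LinearMap.mul' k k (TensorProduct.map (ε ∘ₗ LinearMap.mulLeft k x)
      (ε ∘ₗ LinearMap.mulRight k z) u) = ε (x * sl (ε ∘ₗ LinearMap.mulRight k z) u) := by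
    intro u
    induction u with
    | zero => simp
    | tmul a b => simp [mul_comm]
    | add a b ha hb => simp only [map_add, ha, hb, mul_add]
  exact h1 _

/-- counit axiom at `1`: `ε(x z) = ∑ ε(x f'_j) ε(f_j z)` -/
theorem counit_one' (x z : H) : ε (x * z) = ε (x * sr ε (Δ 1 * (z ⊗ₜ[k] 1))) := by
  have h := W.counit_mul' x 1 z (one_mul _) (one_mul _) (one_mul _)
  rw [mul_one] at h
  rw [h, sr_mul_one]
  have h1 : ∀ u : H ⊗[k] H, LinearMap.mul' k k (TensorProduct.map (ε ∘ₗ LinearMap.mulRight k z)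
      (ε ∘ₗ LinearMap.mulLeft k x) u) = ε (x * sr (ε ∘ₗ LinearMap.mulRight k z) u) := by
    intro u
    induction u with
    | zero => simp
    | tmul a b => simp [mul_comm]
    | add a b ha hb => simp only [map_add, ha, hb, mul_add]
  exact h1 _

end alg

end Pool.Agent.Helper59.WH
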