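import Mathlib

set_option autoImplicit false

/-!
# Ideals of noetherian rings with nonsingular factors, and a linear bound for chains

`Good I` : there is a finite chain of two-sided ideals from `I` to `⊤` all whose factors satisfy
the chain bound `CB`. For a left and right noetherian ring every two-sided ideal is good.
-/

namespace Pool.Agent.Helper59.WH

open Finset

section Bd

variable {H : Type*} [Ring H]

/-- Weakly independent families of nonzero elements have at most `n` members. -/
def Bd (H : Type*) [Ring H] (X : Type*) [AddCommGroup X] [Module H X] (n : ℕ) : Prop :=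
  ∀ (A : Finset ℕ) (x : ℕ → X), (∀ i ∈ A, x i ≠ 0) →
    (∀ q : ℕ → H, ∑ i ∈ A, q i • x i = 0 → ∀ i ∈ A, q i • x i = 0) → A.card ≤ n

variable {X Y : Type*} [AddCommGroup X] [Module H X] [AddCommGroup Y] [Module H Y]

theorem Bd.mono {n m : ℕ} (h : n ≤ m) (hX : Bd H X n) : Bd H X m :=
  fun A x h1 h2 => (hX A x h1 h2).trans h

theorem Bd_inj (f : X →ₗ[H] Y) (hf : Function.Injective f) {n : ℕ} (hY : Bd H Y n) :
    Bd H X n := by
  intro A x hx hw
  refine hY A (fun i => f (x i)) (fun i hi h0 => hx i hi (hf (by rw [h0, map_zero])))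
    (fun q hq i hi => ?_)
  have h1 : ∑ i ∈ A, q i • x i = 0 := by
    apply hf
    rw [map_sum, map_zero]
    simpa only [map_smul] using hq
  rw [← map_smul, hw q h1 i hi, map_zero]

theorem Bd_zero [Subsingleton X] : Bd H X 0 := by
  intro A x hx _
  rw [Nat.le_zero, Finset.card_eq_zero]
  by_contra h
  obtain ⟨i, hi⟩ := Finset.nonempty_iff_ne_empty.mpr h
  exact hx i hi (Subsingleton.elim _ _)

theorem Bd_ker (π : X →ₗ[H] Y) {n m : ℕ} (hY : Bd H Y n) (hK : Bd H (LinearMap.ker π) m) :
    Bd H X (n + m) := by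
  classical
  intro A x hx hw
  let good : Finset ℕ → Prop := fun B =>
    ∀ q : ℕ → H, π (∑ i ∈ B, q i • x i) = 0 → ∑ i ∈ B, q i • x i = 0
  have hne : ((A.powerset).filter good).Nonempty :=
    ⟨∅, by simp [good]⟩
  obtain ⟨B, hB, hmax⟩ := Finset.exists_max_image ((A.powerset).filter good) Finset.card hne
  rw [Finset.mem_filter, Finset.mem_powerset] at hB
  obtain ⟨hBA, hBg⟩ := hB
  -- weak independence restricted to subsets
  have hwB : ∀ q : ℕ → H, ∑ i ∈ B, q i • x i = 0 → ∀ i ∈ B, q i • x i = 0 := by
    intro q hq i hi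
    have h1 : ∑ j ∈ A, (if j ∈ B then q j else 0) • x j = 0 := by
      rw [← hq, ← Finset.sum_subset hBA]
      · exact Finset.sum_congr rfl fun j hj => by rw [if_pos hj]
      · intro j _ hj
        rw [if_neg hj, zero_smul]
    have h2 := hw _ h1 i (hBA hi)
    rwa [if_pos hi] at h2
  have hcB : B.card ≤ n := by
    refine hY B (fun i => π (x i)) (fun i hi h0 => hx i (hBA hi) ?_) (fun q hq i hi => ?_)
    · have h1 : ∑ j ∈ B, (if j = i then (1 : H) else 0) • x j = x i := by
        rw [Finset.sum_eq_single i]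
        · rw [if_pos rfl, one_smul]
        · intro j _ hj
          rw [if_neg hj, zero_smul]
        · intro h; exact absurd hi h
      have h2 := hBg (fun j => if j = i then 1 else 0) (by rw [h1, h0])
      rwa [h1] at h2
    · have h1 := hBg q (by rw [map_sum]; simpa only [map_smul] using hq)
      rw [← map_smul, hwB q h1 i hi, map_zero]
  -- the new elements
  have hnew : ∀ i : ℕ, ∃ q : ℕ → H, i ∈ A \ B →
      π (∑ j ∈ B, q j • x j + q i • x i) = 0 ∧ ∑ j ∈ B, q j • x j + q i • x i ≠ 0 := by
    intro i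
    by_cases hi : i ∈ A \ B
    · have hiA := (Finset.mem_sdiff.mp hi).1
      have hiB := (Finset.mem_sdiff.mp hi).2
      have hng : ¬ good (insert i B) := by
        intro hg
        have h1 := hmax (insert i B) (by
          rw [Finset.mem_filter, Finset.mem_powerset]
          exact ⟨Finset.insert_subset hiA hBA, hg⟩)
        rw [Finset.card_insert_of_notMem hiB] at h1
        omega
      simp only [good, not_forall] at hng
      obtain ⟨q, hq1, hq2⟩ := hng
      rw [Finset.sum_insert hiB, add_comm] at hq1 hq2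
      exact ⟨q, fun _ => ⟨hq1, hq2⟩⟩
    · exact ⟨0, fun h => absurd h hi⟩
  choose q hq using hnew
  let ν : ℕ → LinearMap.ker π := fun i =>
    if h : i ∈ A \ B then ⟨∑ j ∈ B, q i j • x j + q i i • x i, (hq i h).1⟩ else 0
  have hν : ∀ i ∈ A \ B, (ν i : X) = ∑ j ∈ B, q i j • x j + q i i • x i := by
    intro i hi
    simp only [ν, dif_pos hi]
  have hcN : (A \ B).card ≤ m := by
    refine hK (A \ B) ν (fun i hi h0 => (hq i hi).2 ?_) (fun p hp i hi => ?_)
    · rw [← hν i hi, h0]; rfl
    · have h1 : ∑ i ∈ A \ B, p i • (∑ j ∈ B, q i j • x j + q i i • x i) = 0 := by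
        have h2 := congrArg (Subtype.val) hp
        rw [Submodule.coe_sum] at h2
        simp only [Submodule.coe_smul, Submodule.coe_zero] at h2
        rw [← h2]
        exact Finset.sum_congr rfl fun i hi => by rw [hν i hi]
      have h3 : ∑ j ∈ A, (if j ∈ B then ∑ i ∈ A \ B, p i * q i j else p j * q j j) • x j = 0 := by
        rw [← Finset.sum_sdiff hBA, ← h1]
        simp only [smul_add, Finset.sum_add_distrib, Finset.smul_sum]
        rw [Finset.sum_comm, add_comm]
        congr 1
        · refine Finset.sum_congr rfl fun j hj => ?_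
          rw [if_pos hj, Finset.sum_smul]
          exact Finset.sum_congr rfl fun i _ => by rw [mul_smul]
        · refine Finset.sum_congr rfl fun j hj => ?_
          rw [if_neg (Finset.mem_sdiff.mp hj).2, mul_smul]
      have h4 := hw _ h3 i (Finset.mem_sdiff.mp hi).1
      rw [if_neg (Finset.mem_sdiff.mp hi).2, mul_smul] at h4
      have h5 : p i • (ν i : X) = ∑ j ∈ B, (p i * q i j) • x j := by
        rw [hν i hi, smul_add, h4, add_zero, Finset.smul_sum]
        exact Finset.sum_congr rfl fun j _ => by rw [mul_smul]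
      have h6 : π (∑ j ∈ B, (p i * q i j) • x j) = 0 := by
        rw [← h5, map_smul, (ν i).2, smul_zero]
      have h7 := hBg _ h6
      apply Subtype.ext
      rw [Submodule.coe_smul, h5, h7]
      rfl
  have hcard := Finset.card_sdiff_add_card_eq_card hBA
  omega

theorem Bd_prod {n m : ℕ} (hX : Bd H X n) (hY : Bd H Y m) : Bd H (X × Y) (n + m) := by
  refine Bd_ker (LinearMap.fst H X Y) hX ?_
  refine Bd_inj ((LinearMap.snd H X Y).comp (LinearMap.ker (LinearMap.fst H X Y)).subtype) ?_ hY
  intro a b hab
  apply Subtype.ext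
  have ha : (a : X × Y).1 = 0 := a.2
  have hb : (b : X × Y).1 = 0 := b.2
  exact Prod.ext (by rw [ha, hb]) hab

theorem Bd_pi {R : ℕ} (hX : Bd H X R) : ∀ m : ℕ, Bd H (Fin m → X) (R * m)
  | 0 => by rw [mul_zero]; exact Bd_zero
  | m + 1 => by
    have ih := Bd_pi hX m
    refine Bd.mono (n := R + R * m) (by rw [Nat.mul_succ, Nat.add_comm]) ?_
    refine Bd_ker (LinearMap.proj 0 : (Fin (m + 1) → X) →ₗ[H] X) hX ?_
    refine Bd_inj ((LinearMap.pi fun i : Fin m => LinearMap.proj i.succ).comp
      (LinearMap.ker (LinearMap.proj 0 : (Fin (m + 1) → X) →ₗ[H] X)).subtype) ?_ ih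
    intro a b hab
    apply Subtype.ext
    have ha : (a : Fin (m + 1) → X) 0 = 0 := a.2
    have hb : (b : Fin (m + 1) → X) 0 = 0 := b.2
    funext i
    refine Fin.cases (by rw [ha, hb]) (fun j => ?_) i
    exact congrFun hab j

/-- Noetherian modules have finite uniform dimension. -/
theorem exists_Bd (X : Type*) [AddCommGroup X] [Module H X] [IsNoetherian H X] :
    ∃ n, Bd H X n := by
  suffices h : ∀ N : Submodule H X, ∃ n, Bd H (X ⧸ N) n by
    obtain ⟨n, hn⟩ := h ⊥
    exact ⟨n, Bd_inj (Submodule.mkQ ⊥) (by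
      rw [← LinearMap.ker_eq_bot, Submodule.ker_mkQ]) hn⟩
  intro N
  induction N using WellFoundedGT.induction with
  | ind N ih =>
    by_cases h1 : Bd H (X ⧸ N) 1
    · exact ⟨1, h1⟩
    · simp only [Bd, not_forall, not_le] at h1
      obtain ⟨A, x, hx, hw, hA⟩ := h1
      obtain ⟨i, hi, j, hj, hij⟩ := Finset.one_lt_card.mp hA
      let Ni : Submodule H X := (Submodule.span H {x i}).comap (Submodule.mkQ N)
      let Nj : Submodule H X := (Submodule.span H {x j}).comap (Submodule.mkQ N)
      have hlt : ∀ l ∈ A, N < (Submodule.span H {x l}).comap (Submodule.mkQ N) := by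
        intro l hl
        obtain ⟨y, hy⟩ := Submodule.mkQ_surjective N (x l)
        refine lt_of_le_of_ne (fun z hz => ?_) (fun he => hx l hl ?_)
        · rw [Submodule.mem_comap, Submodule.mkQ_apply, (Submodule.Quotient.mk_eq_zero N).mpr hz]
          exact Submodule.zero_mem _
        · have hyN : y ∈ N := by
            rw [he, Submodule.mem_comap, hy]
            exact Submodule.mem_span_singleton_self _
          rw [← hy, Submodule.mkQ_apply, (Submodule.Quotient.mk_eq_zero N).mpr hyN]
      obtain ⟨n₁, hn₁⟩ := ih Ni (hlt i hi)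
      obtain ⟨n₂, hn₂⟩ := ih Nj (hlt j hj)
      refine ⟨n₁ + n₂, Bd_inj (LinearMap.prod (Submodule.factor (hlt i hi).le)
        (Submodule.factor (hlt j hj).le)) ?_ (Bd_prod hn₁ hn₂)⟩
      rw [← LinearMap.ker_eq_bot, LinearMap.ker_eq_bot']
      intro z hz
      obtain ⟨y, rfl⟩ := Submodule.mkQ_surjective N z
      have hz1 : y ∈ Ni := by
        have := congrArg Prod.fst hz
        exact (Submodule.Quotient.mk_eq_zero Ni).mp this
      have hz2 : y ∈ Nj := by
        have := congrArg Prod.snd hz
        exact (Submodule.Quotient.mk_eq_zero Nj).mp this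
      rw [Submodule.mem_comap, Submodule.mem_span_singleton] at hz1 hz2
      obtain ⟨a, ha⟩ := hz1
      obtain ⟨b, hb⟩ := hz2
      have h3 : ∑ l ∈ A, (if l = i then a else if l = j then -b else 0) • x l = 0 := by
        classical
        rw [← Finset.sum_subset (s₁ := {i, j})]
        · rw [Finset.sum_pair hij, if_pos rfl, if_neg hij.symm, if_pos rfl, ha, neg_smul, hb,
            add_neg_cancel]
        · intro l hl
          rw [Finset.mem_insert, Finset.mem_singleton] at hl
          rcases hl with rfl | rfl <;> assumption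
        · intro l _ hl
          rw [Finset.mem_insert, Finset.mem_singleton, not_or] at hl
          rw [if_neg hl.1, if_neg hl.2, zero_smul]
      have h4 := hw _ h3 i hi
      rw [if_pos rfl, ha] at h4
      exact h4

end Bd

section CB

variable {H : Type*} [Ring H]

/-- Chain bound for the factor `J / I` of two ideals: triangular systems
`b i ∈ J ^ m`, `v j ∈ H ^ m` (`b i ⬝ v j ∈ I` for `j < i`, `b i ⬝ v i ∉ I`) have at most `R m`
members. -/
def CB (I J : Ideal H) (R : ℕ) : Prop :=
  ∀ (m n : ℕ) (b v : Fin n → Fin m → H), (∀ i s, b i s ∈ J) →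
    (∀ i j, j < i → ∑ s, b i s * v j s ∈ I) → (∀ i, ∑ s, b i s * v i s ∉ I) → n ≤ R * m

/-- There is a finite chain of two-sided ideals from `I` to the ring with the chain bound. -/
inductive Good : Ideal H → Prop
  | top : Good ⊤
  | step (I J : Ideal H) (R : ℕ) : I.IsTwoSided → J.IsTwoSided → I ≤ J → CB I J R → Good J →
      Good I

theorem exists_CB [IsNoetherianRing H] [IsNoetherianRing Hᵐᵒᵖ] (I : Ideal H)
    (hI : I.IsTwoSided) (hI1 : I ≠ ⊤) :
    ∃ J : Ideal H, J.IsTwoSided ∧ I < J ∧ ∃ R, CB I J R := by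
  classical
  -- `colon B = {h | h B ≤ I}`
  let colon : Ideal H → Ideal H := fun B =>
    { carrier := {h | ∀ z ∈ B, h * z ∈ I}
      add_mem' := by
        intro a b ha hb z hz
        rw [add_mul]; exact I.add_mem (ha z hz) (hb z hz)
      zero_mem' := by intro z _; rw [zero_mul]; exact I.zero_mem
      smul_mem' := by
        intro c h hh z hz
        rw [smul_eq_mul, mul_assoc]; exact I.mul_mem_left c (hh z hz) }
  have hcolon : ∀ (B : Ideal H) (h : H), h ∈ colon B ↔ ∀ z ∈ B, h * z ∈ I := fun B h => Iff.rfl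
  let Ps : Set (Ideal H) := {P | ∃ B : Ideal H, B.IsTwoSided ∧ I < B ∧ P = colon B}
  have hne : Ps.Nonempty :=
    ⟨colon ⊤, ⊤, inferInstance, lt_of_le_of_ne le_top hI1, rfl⟩
  obtain ⟨P, ⟨B₀, hB₀, hIB₀, rfl⟩, hPmax⟩ := set_has_maximal_iff_noetherian.mpr
    (inferInstance : IsNoetherian H H) Ps hne
  set P := colon B₀ with hP
  have hP2 : ∀ p ∈ P, ∀ h, p * h ∈ P := by
    intro p hp h z hz
    rw [mul_assoc]; exact hp _ (B₀.mul_mem_left h hz)
  have hIP : I ≤ P := fun p hp z _ => Ideal.mul_mem_right z I hp
  have hP1 : P ≠ ⊤ := by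
    intro h
    have h1 : (1 : H) ∈ P := by rw [h]; trivial
    exact absurd (fun z hz => by simpa using h1 z hz : B₀ ≤ I) (not_le_of_gt hIB₀)
  let J : Ideal H :=
    { carrier := {z | ∀ p ∈ P, p * z ∈ I}
      add_mem' := by
        intro a b ha hb p hp
        rw [mul_add]; exact I.add_mem (ha p hp) (hb p hp)
      zero_mem' := by intro p _; rw [mul_zero]; exact I.zero_mem
      smul_mem' := by
        intro c z hz p hp
        rw [smul_eq_mul, ← mul_assoc]; exact hz _ (hP2 p hp c) }
  have hJ : ∀ z, z ∈ J ↔ ∀ p ∈ P, p * z ∈ I := fun z => Iff.rfl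
  have hJ2 : J.IsTwoSided := by
    refine ⟨?_⟩
    intro z h hz p hp
    rw [← mul_assoc]; exact Ideal.mul_mem_right h I (hz p hp)
  have hIJ : I ≤ J := fun z hz p _ => I.mul_mem_left p hz
  have hB₀J : B₀ ≤ J := fun z hz p hp => hp z hz
  have hIltJ : I < J := lt_of_lt_of_le hIB₀ hB₀J
  have hmaxJ : ∀ B : Ideal H, B.IsTwoSided → I < B → B ≤ J → colon B = P := by
    intro B hB hIB hBJ
    have h1 : P ≤ colon B := fun p hp z hz => hBJ hz p hp
    by_contra hne
    exact hPmax (colon B) ⟨B, hB, hIB, rfl⟩ (lt_of_le_of_ne h1 (Ne.symm hne))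
  -- essential left ideals containing `P`
  let Ess : Ideal H → Prop := fun A => ∀ A' : Ideal H, ¬ A' ≤ P → ¬ A' ⊓ A ≤ P
  have Ess_mono : ∀ A B : Ideal H, A ≤ B → Ess A → Ess B := by
    intro A B hAB hA A' hA' h
    exact hA A' hA' ((inf_le_inf_left A' hAB).trans h)
  have Ess_inf : ∀ A B : Ideal H, Ess A → Ess B → Ess (A ⊓ B) := by
    intro A B hA hB A' hA' h
    refine hB (A' ⊓ A) (hA A' hA') ?_
    rwa [inf_assoc]
  -- `inv z = {q | q z ∈ I}`
  let inv : H → Ideal H := fun z => Submodule.comap (LinearMap.toSpanSingleton H H z) I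
  have hinv : ∀ z q, q ∈ inv z ↔ q * z ∈ I := by
    intro z q
    simp only [inv, Submodule.mem_comap, LinearMap.toSpanSingleton_apply, smul_eq_mul]
  let Z : Ideal H :=
    { carrier := {z | z ∈ J ∧ Ess (inv z)}
      add_mem' := by
        rintro a b ⟨ha, ha'⟩ ⟨hb, hb'⟩
        refine ⟨J.add_mem ha hb, Ess_mono (inv a ⊓ inv b) _ ?_ (Ess_inf _ _ ha' hb')⟩
        rintro q ⟨hqa, hqb⟩
        rw [hinv, mul_add]
        exact I.add_mem ((hinv a q).mp hqa) ((hinv b q).mp hqb)
      zero_mem' := by
        refine ⟨J.zero_mem, ?_⟩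
        intro A' hA' h
        refine hA' (le_trans (le_inf le_rfl ?_) h)
        intro q _
        rw [hinv, mul_zero]; exact I.zero_mem
      smul_mem' := by
        rintro h z ⟨hz, hz'⟩
        refine ⟨J.smul_mem h hz, ?_⟩
        intro A' hA' hle
        by_cases hc : ∀ q ∈ A', q * h ∈ P
        · apply hA'
          intro q hq
          apply hle
          refine ⟨hq, ?_⟩
          rw [SetLike.mem_coe, hinv, smul_eq_mul, ← mul_assoc]
          exact hz _ (hc q hq)
        · push Not at hc
          obtain ⟨q₀, hq₀, hq₀'⟩ := hc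
          have h1 : ¬ (Submodule.map (LinearMap.toSpanSingleton H H h) A') ≤ P := by
            intro hh
            apply hq₀'
            apply hh
            exact ⟨q₀, hq₀, by simp⟩
          have h2 := hz' _ h1
          apply h2
          rintro w ⟨⟨q, hq, rfl⟩, hw⟩
          rw [SetLike.mem_coe, hinv] at hw
          simp only [LinearMap.toSpanSingleton_apply, smul_eq_mul] at hw ⊢
          refine hP2 q (hle ⟨hq, ?_⟩) h
          rw [SetLike.mem_coe, hinv, smul_eq_mul, ← mul_assoc]
          exact hw }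
  have hZmem : ∀ z, z ∈ Z ↔ z ∈ J ∧ Ess (inv z) := fun z => Iff.rfl
  have hZ2 : Z.IsTwoSided := by
    refine ⟨?_⟩
    intro z h hz
    rw [hZmem] at hz ⊢
    refine ⟨Ideal.mul_mem_right h J hz.1, Ess_mono (inv z) _ ?_ hz.2⟩
    intro q hq
    rw [hinv] at hq ⊢
    rw [← mul_assoc]; exact Ideal.mul_mem_right h I hq
  have hIZ : I ≤ Z := by
    intro z hz
    refine ⟨hIJ hz, ?_⟩
    intro A' hA' h
    refine hA' (le_trans (le_inf le_rfl ?_) h)
    intro q _
    rw [hinv]; exact I.mul_mem_left q hz
  have hZI : Z = I := by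
    by_contra hne
    have hlt : I < Z := lt_of_le_of_ne hIZ (Ne.symm hne)
    have hcZ := hmaxJ Z hZ2 hlt (fun z hz => hz.1)
    -- finitely many generators on the right
    let Zop : Ideal Hᵐᵒᵖ :=
      { carrier := {z | z.unop ∈ Z}
        add_mem' := fun {a b} ha hb => Z.add_mem ha hb
        zero_mem' := Z.zero_mem
        smul_mem' := fun c z hz => by
          simp only [Set.mem_ofPred_eq, smul_eq_mul, MulOpposite.unop_mul]
          exact Ideal.mul_mem_right _ Z hz }
    obtain ⟨s, hs⟩ := (isNoetherianRing_iff_ideal_fg Hᵐᵒᵖ).mp inferInstance Zop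
    have hsZ : ∀ z ∈ s, z.unop ∈ Z := by
      intro z hz
      have : z ∈ Zop := by rw [← hs]; exact Submodule.subset_span hz
      exact this
    have hinter : ∀ t : Finset Hᵐᵒᵖ, t ⊆ s → Ess (t.inf fun z => inv z.unop) := by
      intro t
      induction t using Finset.induction_on with
      | empty =>
        intro _ A' hA' h
        rw [Finset.inf_empty, inf_top_eq] at h
        exact hA' h
      | insert a t _ ih =>
        intro hts
        rw [Finset.inf_insert]
        exact Ess_inf _ _ (hsZ a (hts (Finset.mem_insert_self a t))).2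
          (ih fun z hz => hts (Finset.mem_insert_of_mem hz))
    have hEss := hinter s (Finset.Subset.refl s)
    have hle : (s.inf fun z => inv z.unop) ≤ P := by
      rw [← hcZ]
      intro q hq z hz
      have hs' : Submodule.span Hᵐᵒᵖ (s : Set Hᵐᵒᵖ) = Zop := hs
      have hz' : MulOpposite.op z ∈ Submodule.span Hᵐᵒᵖ (s : Set Hᵐᵒᵖ) := by
        rw [hs']; exact hz
      have key : ∀ w ∈ Submodule.span Hᵐᵒᵖ (s : Set Hᵐᵒᵖ), q * w.unop ∈ I := by
        intro w hw
        induction hw using Submodule.span_induction with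
        | mem w hw =>
          have := (Submodule.mem_finsetInf.mp hq) w hw
          exact (hinv _ _).mp this
        | zero => simp
        | add a b _ _ ha hb =>
          rw [MulOpposite.unop_add, mul_add]; exact I.add_mem ha hb
        | smul c a _ ha =>
          rw [smul_eq_mul, MulOpposite.unop_mul, ← mul_assoc]
          exact Ideal.mul_mem_right _ I ha
      exact key _ hz'
    exact hEss ⊤ (fun h => hP1 (top_le_iff.mp h)) (inf_le_right.trans hle)
  -- the chain bound
  obtain ⟨R, hR⟩ := exists_Bd (H := H) (H ⧸ I)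
  refine ⟨J, hJ2, hIltJ, R, ?_⟩
  intro m n b v hbJ htri hdiag
  -- multipliers
  have hex : ∀ i : Fin n, ∃ q : H, q * ∑ s, b i s * v i s ∉ I ∧
      ∀ h : H, h * q * ∑ s, b i s * v i s ∈ I → h * q ∈ P := by
    intro i
    set z := ∑ s, b i s * v i s with hz
    have hzJ : z ∈ J := J.sum_mem fun s _ => Ideal.mul_mem_right _ J (hbJ i s)
    have hnE : ¬ Ess (inv z) := by
      intro hE
      have : z ∈ Z := ⟨hzJ, hE⟩
      rw [hZI] at this
      exact hdiag i this
    simp only [Ess, not_forall, not_not] at hnE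
    obtain ⟨A', hA', hle⟩ := hnE
    obtain ⟨q, hq, hqP⟩ := Set.not_subset.mp hA'
    refine ⟨q, fun h => hqP (hle ⟨hq, (hinv z q).mpr h⟩), fun h hh => hle ⟨?_, ?_⟩⟩
    · exact A'.mul_mem_left h hq
    · exact (hinv z _).mpr hh
  choose q hq1 hq2 using hex
  -- the family in `(H / I)^m`
  have hbd := Bd_pi hR m
  let β : ℕ → Fin m → H ⧸ I := fun i =>
    if h : i < n then fun s => Submodule.Quotient.mk (q ⟨i, h⟩ * b ⟨i, h⟩ s) else 0
  have hβ : ∀ i : Fin n, β i = fun s => Submodule.Quotient.mk (q i * b i s) := by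
    intro i
    simp only [β, dif_pos i.2]
  have hfin := hbd (Finset.range n) β ?_ ?_
  · rwa [Finset.card_range] at hfin
  · intro i hi h0
    rw [Finset.mem_range] at hi
    have h1 := hβ ⟨i, hi⟩
    rw [h0] at h1
    apply hq1 ⟨i, hi⟩
    rw [Finset.mul_sum]
    refine I.sum_mem fun s _ => ?_
    have h2 : (0 : H ⧸ I) = Submodule.Quotient.mk (q ⟨i, hi⟩ * b ⟨i, hi⟩ s) := congrFun h1 s
    have h3 := (Submodule.Quotient.mk_eq_zero I).mp h2.symm
    rw [← mul_assoc]
    exact Ideal.mul_mem_right _ I h3
  · intro p hp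
    have hsum : ∀ s, ∑ i : Fin n, p i * (q i * b i s) ∈ I := by
      intro s
      have h1 := congrFun hp s
      rw [Finset.sum_apply, ← Fin.sum_univ_eq_sum_range (fun i => (p i • β i) s) n] at h1
      rw [← Submodule.Quotient.mk_eq_zero I]
      rw [← Submodule.mkQ_apply, map_sum]
      refine Eq.trans ?_ h1
      refine Finset.sum_congr rfl fun i _ => ?_
      rw [Pi.smul_apply, hβ i]
      rfl
    -- strong induction
    have key : ∀ N : ℕ, ∀ i : Fin n, (i : ℕ) < N → ∀ s, p i * (q i * b i s) ∈ I := by
      intro N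
      induction N with
      | zero => intro i hi; omega
      | succ N ih =>
        intro i hi s
        rcases Nat.lt_or_ge (i : ℕ) N with h | h
        · exact ih i h s
        · have hiN : (i : ℕ) = N := by omega
          -- `∑ s, (p i q i b i s) v i s ∈ I`
          have h1 : p i * q i * ∑ s, b i s * v i s ∈ I := by
            have h2 : ∑ s, (∑ j : Fin n, p j * (q j * b j s)) * v i s ∈ I :=
              I.sum_mem fun s _ => Ideal.mul_mem_right _ I (hsum s)
            have h3 : ∑ s, (∑ j : Fin n, p j * (q j * b j s)) * v i s =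
                ∑ j : Fin n, ∑ s, p j * (q j * b j s) * v i s := by
              rw [Finset.sum_comm]
              exact Finset.sum_congr rfl fun s _ => by rw [Finset.sum_mul]
            rw [h3, ← Finset.add_sum_erase _ _ (Finset.mem_univ i)] at h2
            have h4 : ∑ j ∈ Finset.univ.erase i, ∑ s, p j * (q j * b j s) * v i s ∈ I := by
              refine I.sum_mem fun j hj => ?_
              have hji : j ≠ i := (Finset.mem_erase.mp hj).1
              rcases lt_or_gt_of_ne hji with hlt | hgt
              · refine I.sum_mem fun s _ => Ideal.mul_mem_right _ I (ih j ?_ s)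
                rw [← hiN]; exact hlt
              · have h5 := htri j i hgt
                have h6 : ∑ s, p j * (q j * b j s) * v i s =
                    p j * q j * ∑ s, b j s * v i s := by
                  rw [Finset.mul_sum]
                  exact Finset.sum_congr rfl fun s _ => by simp only [mul_assoc]
                rw [h6]
                exact I.mul_mem_left _ h5
            have h7 := (Submodule.add_mem_iff_left I h4).mp h2
            have h8 : ∑ s, p i * (q i * b i s) * v i s = p i * q i * ∑ s, b i s * v i s := by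
              rw [Finset.mul_sum]
              exact Finset.sum_congr rfl fun s _ => by simp only [mul_assoc]
            rwa [h8] at h7
          have h9 := hq2 i (p i) h1
          rw [← mul_assoc]
          exact (hbJ i s) _ h9
    intro i hi
    rw [Finset.mem_range] at hi
    funext s
    have h1 := key n ⟨i, hi⟩ hi s
    rw [Pi.smul_apply, hβ ⟨i, hi⟩]
    exact (Submodule.Quotient.mk_eq_zero I).mpr h1

theorem good_of_noetherian [IsNoetherianRing H] [IsNoetherianRing Hᵐᵒᵖ] (I : Ideal H)
    (hI : I.IsTwoSided) : Good I := by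
  induction I using WellFoundedGT.induction with
  | ind I ih =>
    by_cases h : I = ⊤
    · rw [h]; exact Good.top
    · obtain ⟨J, hJ, hIJ, R, hR⟩ := exists_CB I hI h
      exact Good.step I J R hI hJ hIJ.le hR (ih J hIJ hJ)

end CB

end Pool.Agent.Helper59.WH
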