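import Pool.Agent.Helper59.WH.Id
import Pool.Agent.Helper59.WH.Chain

set_option autoImplicit false

/-!
# The growth estimate

For `y = (g ⊗ id) Δ(x)` and every finite-dimensional left coideal `D` stable under `R_t` the
dimension of `D y` is at most a constant (depending on `x` only) times the dimension of `D x`.
-/

namespace Pool.Agent.Helper59.WH

open TensorProduct

variable {k H : Type*} [Field k] [Ring H] [Algebra k H]
  {Δ : H →ₗ[k] H ⊗[k] H} {ε : H →ₗ[k] k} {S : H →ₗ[k] H}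

/-- `Δ(C) ⊆ H ⊗ C` -/
def LC (Δ : H →ₗ[k] H ⊗[k] H) (C : Submodule k H) : Prop := ∀ c ∈ C, ∀ g, sr g (Δ c) ∈ C

/-- `∑ (b_s ⊗ 1) Δ(y_s)` -/
noncomputable def uu (Δ : H →ₗ[k] H ⊗[k] H) {N : ℕ} (y b : Fin N → H) : H ⊗[k] H :=
  ∑ s, (b s ⊗ₜ[k] 1) * Δ (y s)

theorem sl_uu (g : H →ₗ[k] k) {N : ℕ} (y b : Fin N → H) :
    sl g (uu Δ y b) = ∑ s, b s * sl g (Δ (y s)) := by
  unfold uu
  rw [map_sum]
  exact Finset.sum_congr rfl fun s _ => sl_mul_left g _ _

theorem uu_eq_be {N : ℕ} (y b : Fin N → H) : uu Δ y b = be Δ (∑ s, b s ⊗ₜ[k] y s) := by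
  unfold uu
  rw [map_sum]
  exact Finset.sum_congr rfl fun s _ => (be_tmul _ _).symm

theorem uu_add {N : ℕ} (y b b' : Fin N → H) : uu Δ y (b + b') = uu Δ y b + uu Δ y b' := by
  simp only [uu, Pi.add_apply, add_tmul, add_mul, Finset.sum_add_distrib]

/-- dual functionals of a linearly independent family -/
theorem exists_dual {N : ℕ} {y : Fin N → H} (hy : LinearIndependent k y) :
    ∃ G : Fin N → (H →ₗ[k] k), ∀ c ∈ Submodule.span k (Set.range y), c = ∑ s, G s c • y s := by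
  have h : ∀ s : Fin N, ∃ G : H →ₗ[k] k,
      G ∘ₗ (Submodule.span k (Set.range y)).subtype = Finsupp.lapply s ∘ₗ hy.repr :=
    fun s => LinearMap.exists_extend _
  choose G hG using h
  refine ⟨G, fun c hc => ?_⟩
  have h1 : ∀ s, G s c = hy.repr ⟨c, hc⟩ s := fun s => by
    have := LinearMap.congr_fun (hG s) ⟨c, hc⟩
    simpa using this
  have h2 := hy.linearCombination_repr ⟨c, hc⟩
  rw [Finsupp.linearCombination_apply, Finsupp.sum_fintype _ _ (fun i => zero_smul k (y i))] at h2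
  calc c = ((⟨c, hc⟩ : Submodule.span k (Set.range y)) : H) := rfl
    _ = ∑ s, hy.repr ⟨c, hc⟩ s • y s := h2.symm
    _ = ∑ s, G s c • y s := Finset.sum_congr rfl fun s _ => by rw [h1]

theorem eq_sum_dual {N : ℕ} {y : Fin N → H} {G : Fin N → (H →ₗ[k] k)}
    (hG : ∀ c ∈ Submodule.span k (Set.range y), c = ∑ s, G s c • y s) {v : H ⊗[k] H}
    (hv : ∀ g, sr g v ∈ Submodule.span k (Set.range y)) :
    v = ∑ s, sl (G s) v ⊗ₜ[k] y s := by
  obtain ⟨n, α, β, hβ, rfl⟩ := exists_repr_right _ v hv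
  have h1 : ∀ i, α i ⊗ₜ[k] β i = ∑ s, sl (G s) (α i ⊗ₜ[k] β i) ⊗ₜ[k] y s := by
    intro i
    conv_lhs => rw [hG (β i) (hβ i), tmul_sum]
    refine Finset.sum_congr rfl fun s _ => ?_
    rw [sl_tmul, smul_tmul]
  calc ∑ i, α i ⊗ₜ[k] β i = ∑ i, ∑ s, sl (G s) (α i ⊗ₜ[k] β i) ⊗ₜ[k] y s :=
        Finset.sum_congr rfl fun i _ => h1 i
    _ = ∑ s, sl (G s) (∑ i, α i ⊗ₜ[k] β i) ⊗ₜ[k] y s := by
        rw [Finset.sum_comm]
        refine Finset.sum_congr rfl fun s _ => ?_
        rw [map_sum, sum_tmul]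

section

variable (W : WeakHopfOn Δ ε S (1 : H))

include W

/-- purity -/
theorem purity (J : Ideal H) (hJ : J.IsTwoSided) {N : ℕ} {y : Fin N → H}
    (hy : LinearIndependent k y)
    (hRt : ∀ t ∈ Rt Δ, ∀ s, t * y s ∈ Submodule.span k (Set.range y)) (b : Fin N → H)
    (h : ∀ g, sl g (uu Δ y b) ∈ J) :
    ∃ b' : Fin N → H, (∀ s, b' s ∈ J) ∧ uu Δ y b' = uu Δ y b := by
  obtain ⟨G, hG⟩ := exists_dual hy
  set u := uu Δ y b with hu
  -- slices of `γ u` lie in `J`
  have h1 : ∀ g, sl g (ga Δ S u) ∈ J := by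
    intro g
    obtain ⟨n, α, β, hα, hαβ⟩ := exists_repr_left (J.restrictScalars k) u h
    rw [hαβ, map_sum, map_sum]
    refine J.sum_mem fun i _ => ?_
    rw [ga_tmul, sl_mul_left]
    exact Ideal.mul_mem_right _ J (hα i)
  -- right slices of `γ u` lie in the span of `y`
  have h2 : ∀ g, sr g (ga Δ S u) ∈ Submodule.span k (Set.range y) := by
    intro g
    rw [hu, uu, map_sum, map_sum]
    refine Submodule.sum_mem _ fun s _ => ?_
    rw [ga_left, sr_one_mul, ga_Δ W]
    exact F2 W (y s) _ (fun t ht => hRt t ht s) _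
  refine ⟨fun s => sl (G s) (ga Δ S u), fun s => h1 _, ?_⟩
  rw [uu_eq_be, ← eq_sum_dual hG h2, be_ga W, hu, uu_eq_be, be_mul_one W]

/-- finitely many functionals detect membership in `I ⊗ H` -/
def Pr (Δ : H →ₗ[k] H ⊗[k] H) (I : Ideal H) (K : ℕ) : Prop :=
  ∀ (N : ℕ) (y : Fin N → H), LinearIndependent k y →
    (∀ t ∈ Rt Δ, ∀ s, t * y s ∈ Submodule.span k (Set.range y)) →
    ∃ (L : ℕ) (G : Fin L → (H →ₗ[k] k)), L ≤ K * N ∧
      ∀ b : Fin N → H, (∀ j, sl (G j) (uu Δ y b) ∈ I) → ∀ g, sl g (uu Δ y b) ∈ I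

omit W in
theorem Pr_greedy (I J : Ideal H) (R : ℕ) (h : CB I J R) {N : ℕ} (y : Fin N → H) :
    ∃ (L : ℕ) (G : Fin L → (H →ₗ[k] k)), L ≤ R * N ∧
      ∀ b : Fin N → H, (∀ s, b s ∈ J) → (∀ j, sl (G j) (uu Δ y b) ∈ I) →
        ∀ g, sl g (uu Δ y b) ∈ I := by
  by_contra hcon
  have key : ∀ n, n ≤ R * N + 1 → ∃ (b : Fin n → Fin N → H) (G : Fin n → (H →ₗ[k] k)),
      (∀ i s, b i s ∈ J) ∧ (∀ i j, j < i → sl (G j) (uu Δ y (b i)) ∈ I) ∧
      ∀ i, sl (G i) (uu Δ y (b i)) ∉ I := by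
    intro n
    induction n with
    | zero =>
      intro _
      exact ⟨Fin.elim0, Fin.elim0, fun i => i.elim0, fun i => i.elim0, fun i => i.elim0⟩
    | succ n ih =>
      intro hn
      obtain ⟨b, G, hb, htri, hdiag⟩ := ih (by omega)
      have h1 : ¬ ∀ b : Fin N → H, (∀ s, b s ∈ J) → (∀ j, sl (G j) (uu Δ y b) ∈ I) →
          ∀ g, sl g (uu Δ y b) ∈ I := fun h1 => hcon ⟨n, G, by omega, h1⟩
      push Not at h1
      obtain ⟨b₀, hb₀, hG₀, g₀, hg₀⟩ := h1
      refine ⟨Fin.snoc b b₀, Fin.snoc G g₀, ?_, ?_, ?_⟩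
      · intro i
        refine Fin.lastCases ?_ (fun i => ?_) i
        · rw [Fin.snoc_last]; exact hb₀
        · rw [Fin.snoc_castSucc]; exact hb i
      · intro i
        refine Fin.lastCases ?_ (fun i => ?_) i
        · intro j hj
          obtain ⟨j, rfl⟩ := Fin.exists_castSucc_eq.mpr (ne_of_lt hj)
          rw [Fin.snoc_last, Fin.snoc_castSucc]
          exact hG₀ j
        · intro j hj
          have hj' : j ≠ Fin.last n := ne_of_lt (lt_trans hj (Fin.castSucc_lt_last i))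
          obtain ⟨j, rfl⟩ := Fin.exists_castSucc_eq.mpr hj'
          rw [Fin.snoc_castSucc, Fin.snoc_castSucc]
          exact htri i j (Fin.castSucc_lt_castSucc_iff.mp hj)
      · intro i
        refine Fin.lastCases ?_ (fun i => ?_) i
        · rw [Fin.snoc_last, Fin.snoc_last]; exact hg₀
        · rw [Fin.snoc_castSucc, Fin.snoc_castSucc]; exact hdiag i
  obtain ⟨b, G, hb, htri, hdiag⟩ := key (R * N + 1) le_rfl
  have h2 := h N (R * N + 1) b (fun j s => sl (G j) (Δ (y s))) hb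
    (fun i j hij => by have := htri i j hij; rwa [sl_uu] at this)
    (fun i => by have := hdiag i; rwa [sl_uu] at this)
  omega

theorem Pr_step {I J : Ideal H} {R K : ℕ} (hJ : J.IsTwoSided) (hIJ : I ≤ J)
    (h : CB I J R) (hP : Pr Δ J K) : Pr Δ I (K + R) := by
  intro N y hy hRt
  obtain ⟨L, G, hL, hG⟩ := hP N y hy hRt
  obtain ⟨L', G', hL', hG'⟩ := Pr_greedy (Δ := Δ) I J R h y
  refine ⟨L + L', Fin.append G G', by rw [add_mul]; omega, fun b hb => ?_⟩
  have h1 : ∀ j, sl (G j) (uu Δ y b) ∈ J := fun j => hIJ (by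
    have := hb (Fin.castAdd L' j)
    rwa [Fin.append_left] at this)
  obtain ⟨b', hb', hbb⟩ := purity W J hJ hy hRt b (hG b h1)
  have h2 := hG' b' hb' (fun j => by
    rw [hbb]
    have := hb (Fin.natAdd L j)
    rwa [Fin.append_right] at this)
  rwa [hbb] at h2

theorem exists_Pr {I : Ideal H} (h : Good I) : ∃ K, Pr Δ I K := by
  induction h with
  | top =>
    exact ⟨0, fun N y _ _ => ⟨0, Fin.elim0, by simp, fun b _ g => trivial⟩⟩
  | step I J R _ hJ hIJ hCB _ ih =>
    obtain ⟨K, hK⟩ := ih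
    exact ⟨K + R, Pr_step W hJ hIJ hCB hK⟩

/-- **The growth estimate** -/
theorem estimate (hgood : Good (⊥ : Ideal H)) (x : H) (g : H →ₗ[k] k) :
    ∃ K : ℕ, ∀ D : Submodule k H, D.FG → LC Δ D → (∀ t ∈ Rt Δ, ∀ d ∈ D, t * d ∈ D) →
      Module.finrank k ↥(D * Submodule.span k {sr g (Δ x)}) ≤
        K * Module.finrank k ↥(D * Submodule.span k {x}) := by
  obtain ⟨K₀, hK₀⟩ := exists_Pr W hgood
  obtain ⟨V, hV, hVx⟩ := fg_legs (Δ x)
  have : Module.Finite k V := Module.Finite.iff_fg.mpr hV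
  refine ⟨K₀ * Module.finrank k V, fun D hD hLC hRt => ?_⟩
  have : Module.Finite k D := Module.Finite.iff_fg.mpr hD
  set Y := D * Submodule.span k {x} with hY
  have hYfg : Y.FG := hD.mul (Submodule.fg_span_singleton x)
  have : Module.Finite k Y := Module.Finite.iff_fg.mpr hYfg
  set N := Module.finrank k Y with hN
  let B := Module.finBasis k Y
  let y : Fin N → H := fun s => (B s : H)
  have hyli : LinearIndependent k y :=
    B.linearIndependent.map' Y.subtype (Submodule.ker_subtype Y)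
  have hyspan : Submodule.span k (Set.range y) = Y := by
    have h1 : Set.range y = Y.subtype '' Set.range B := by
      rw [← Set.range_comp]; rfl
    rw [h1, ← Submodule.map_span, B.span_eq, Submodule.map_top, Submodule.range_subtype]
  have hRty : ∀ t ∈ Rt Δ, ∀ s, t * y s ∈ Submodule.span k (Set.range y) := by
    intro t ht s
    rw [hyspan]
    have h1 : y s ∈ Y := (B s).2
    obtain ⟨d, hd, hds⟩ := Submodule.mem_mul_span_singleton.mp h1
    rw [← hds, ← mul_assoc]
    exact Submodule.mul_mem_mul (hRt t ht d hd) (Submodule.mem_span_singleton_self x)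
  obtain ⟨L, G, hL, hG⟩ := hK₀ N y hyli hRty
  -- every `(1 ⊗ w) Δ(x)` is some `uu y b`
  have hE : ∀ w ∈ D, ∃ b : Fin N → H, (1 ⊗ₜ[k] w) * Δ x = uu Δ y b := by
    intro w hw
    obtain ⟨G₂, hG₂⟩ := exists_dual hyli
    obtain ⟨n, α, β, hβ, hαβ⟩ := exists_repr_right D (Δ w) (hLC w hw)
    have hv : ∀ g, sr g (TensorProduct.map S (LinearMap.mulRight k x) (Δ w)) ∈
        Submodule.span k (Set.range y) := by
      intro g
      rw [hyspan, hαβ, map_sum, map_sum]
      refine Submodule.sum_mem _ fun i _ => ?_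
      rw [TensorProduct.map_tmul, sr_tmul]
      exact Submodule.smul_mem _ _ (Submodule.mul_mem_mul (hβ i)
        (Submodule.mem_span_singleton_self x))
    refine ⟨fun s => sl (G₂ s) (TensorProduct.map S (LinearMap.mulRight k x) (Δ w)), ?_⟩
    rw [uu_eq_be, ← eq_sum_dual hG₂ hv, keyI W]
  -- the two maps
  let Θ : D →ₗ[k] (Fin L → V) :=
    { toFun := fun w j => ⟨sl (G j) ((1 ⊗ₜ[k] (w : H)) * Δ x), by rw [sl_one_mul]; exact hVx _⟩
      map_add' := by
        intro a b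
        funext j
        apply Subtype.ext
        simp [tmul_add, add_mul]
      map_smul' := by
        intro c a
        funext j
        apply Subtype.ext
        simp [tmul_smul] }
  let T : D →ₗ[k] H := (LinearMap.mulRight k (sr g (Δ x))) ∘ₗ D.subtype
  have hker : LinearMap.ker Θ ≤ LinearMap.ker T := by
    intro w hw
    rw [LinearMap.mem_ker] at hw ⊢
    obtain ⟨b, hb⟩ := hE w w.2
    have h1 : ∀ j, sl (G j) (uu Δ y b) ∈ (⊥ : Ideal H) := by
      intro j
      rw [← hb]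
      have := congrArg Subtype.val (congrFun hw j)
      exact this
    have h2 : (1 ⊗ₜ[k] (w : H)) * Δ x = 0 := by
      rw [hb]
      exact sl_ext (hG b h1)
    have h3 : sr g ((1 ⊗ₜ[k] (w : H)) * Δ x) = (w : H) * sr g (Δ x) := sr_mul_left g _ _
    rw [h2, map_zero] at h3
    exact h3.symm
  have hrange : D * Submodule.span k {sr g (Δ x)} = LinearMap.range T := by
    ext z
    rw [Submodule.mem_mul_span_singleton, LinearMap.mem_range]
    constructor
    · rintro ⟨w, hw, rfl⟩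
      exact ⟨⟨w, hw⟩, rfl⟩
    · rintro ⟨w, rfl⟩
      exact ⟨w, w.2, rfl⟩
  rw [hrange]
  have h1 := LinearMap.finrank_range_add_finrank_ker T
  have h2 := LinearMap.finrank_range_add_finrank_ker Θ
  have h3 := Submodule.finrank_mono hker
  have h4 : Module.finrank k (LinearMap.range Θ) ≤ L * Module.finrank k V := by
    refine (Submodule.finrank_le _).trans ?_
    rw [Module.finrank_pi_fintype]
    simp
  calc Module.finrank k (LinearMap.range T) ≤ Module.finrank k (LinearMap.range Θ) := by omega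
    _ ≤ L * Module.finrank k V := h4
    _ ≤ (K₀ * N) * Module.finrank k V := Nat.mul_le_mul_right _ hL
    _ = K₀ * Module.finrank k V * N := by ring

end

end Pool.Agent.Helper59.WH
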