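import Pool.Agent.Helper59.WH.Sub

set_option autoImplicit false

/-!
# The decomposition
-/

namespace Pool.Agent.Helper59.WH

open TensorProduct Filter

section gk

variable {k H : Type*} [Field k] [Ring H] [Algebra k H]

theorem Cut_pow {e : H} (hee : e * e = e) (hec : ∀ x, e * x = x * e) (C : Submodule k H)
    {x : H} (hx : e * x = x) {n : ℕ} (hn : 1 ≤ n) :
    C ^ n * Submodule.span k {x} ≤
      (Submodule.span k {e} * C ⊔ Submodule.span k {e}) ^ n * Submodule.span k {x} := by
  obtain ⟨m, rfl⟩ := Nat.exists_eq_add_of_le' hn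
  intro z hz
  obtain ⟨c, hc, rfl⟩ := Submodule.mem_mul_span_singleton.mp hz
  have h1 : ∀ (l : ℕ) (c : H), c ∈ C ^ (l + 1) →
      e * c ∈ (Submodule.span k {e} * C ⊔ Submodule.span k {e}) ^ (l + 1) := by
    intro l
    induction l with
    | zero =>
      intro c hc
      rw [zero_add, pow_one] at hc ⊢
      exact Submodule.mem_sup_left (Submodule.mul_mem_mul (Submodule.mem_span_singleton_self e) hc)
    | succ l ih =>
      intro c hc
      rw [pow_succ] at hc ⊢
      induction hc using Submodule.mul_induction_on' with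
      | mem_mul_mem a ha b hb =>
        have h2 : e * (a * b) = (e * a) * (e * b) := by
          rw [mul_assoc e a, ← mul_assoc a e b, ← hec a, mul_assoc e a b, ← mul_assoc e e, hee]
        rw [h2]
        exact Submodule.mul_mem_mul (ih a ha)
          (Submodule.mem_sup_left (Submodule.mul_mem_mul (Submodule.mem_span_singleton_self e) hb))
      | add a _ b _ ha hb => rw [mul_add]; exact Submodule.add_mem _ ha hb
  have h3 : c * x = e * c * x := by rw [hec c, mul_assoc, hx]
  rw [h3]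
  exact Submodule.mul_mem_mul (h1 m c hc) (Submodule.mem_span_singleton_self x)

theorem log_le_of_le {a n : ℕ} {s : ℝ} (hn : 2 ≤ n) (hs : 0 ≤ s) (h : (a : ℝ) ≤ (n : ℝ) ^ s) :
    Real.log a / Real.log n ≤ s := by
  have hn1 : (1 : ℝ) < n := by exact_mod_cast hn
  have hlog : 0 < Real.log n := Real.log_pos hn1
  rw [div_le_iff₀ hlog]
  rcases Nat.eq_zero_or_pos a with h0 | h0
  · rw [h0, Nat.cast_zero, Real.log_zero]; positivity
  · rw [← Real.log_rpow (by linarith)]
    exact Real.log_le_log (by exact_mod_cast h0) h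

theorem le_of_log_le {a n : ℕ} {s : ℝ} (hn : 2 ≤ n)
    (h : Real.log a / Real.log n ≤ s) : (a : ℝ) ≤ (n : ℝ) ^ s := by
  have hn1 : (1 : ℝ) < n := by exact_mod_cast hn
  have hlog : 0 < Real.log n := Real.log_pos hn1
  rw [div_le_iff₀ hlog] at h
  rcases Nat.eq_zero_or_pos a with h0 | h0
  · rw [h0, Nat.cast_zero]; positivity
  · rw [← Real.log_rpow (by linarith)] at h
    exact (Real.log_le_log_iff (by exact_mod_cast h0) (Real.rpow_pos_of_pos (by linarith) _)).mp h

/-- upper bound for `gkdim` -/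
theorem gkdim_le {e : H} {L : Submodule k H} {d : ℝ} (hd : 0 ≤ d) (h : ∀ x ∈ L, Gr k d x) :
    gkdim e L ≤ d := by
  unfold gkdim
  refine iSup_le fun V => iSup_le fun W => iSup_le fun hV => iSup_le fun hW => ?_
  -- for every `s > d` the `limsup` is at most `s`
  refine EReal.le_of_forall_lt_iff_le.mp fun s hs => ?_
  have hs' : d < s := by exact_mod_cast hs
  obtain ⟨s', h1, h2⟩ := exists_between hs'
  obtain ⟨t, ht⟩ := hW.1
  have key : ∀ t : Finset H, (∀ w ∈ t, w ∈ L) → ∀ᶠ n : ℕ in atTop,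
      (Module.finrank k ↥(V ^ n * Submodule.span k (t : Set H)) : ℝ) ≤ t.card * (n : ℝ) ^ s' := by
    classical
    intro t
    induction t using Finset.induction_on with
    | empty =>
      intro _
      filter_upwards with n
      have : V ^ n * Submodule.span k ((∅ : Finset H) : Set H) = ⊥ := by simp
      rw [this, finrank_bot]; simp
    | insert a t hat ih =>
      intro hL
      filter_upwards [ih fun w hw => hL w (Finset.mem_insert_of_mem hw),
        h a (hL a (Finset.mem_insert_self a t)) V hV.1 s' h1] with n hn1 hn2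
      have h3 : V ^ n * Submodule.span k ((insert a t : Finset H) : Set H) ≤
          V ^ n * Submodule.span k {a} ⊔ V ^ n * Submodule.span k (t : Set H) := by
        rw [← Submodule.mul_sup, Finset.coe_insert, Submodule.span_insert]
      have hf1 : (V ^ n * Submodule.span k {a}).FG := fg_pow_mul hV.1 n a
      have hf2 : (V ^ n * Submodule.span k (t : Set H)).FG :=
        (hV.1.pow n).mul (Submodule.fg_span t.finite_toSet)
      have h4 := finrank_le_of_le (hf1.sup hf2) h3
      have : Module.Finite k ↥(V ^ n * Submodule.span k {a}) := Module.Finite.iff_fg.mpr hf1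
      have : Module.Finite k ↥(V ^ n * Submodule.span k (t : Set H)) :=
        Module.Finite.iff_fg.mpr hf2
      have h5 := Submodule.finrank_add_le_finrank_add_finrank (V ^ n * Submodule.span k {a})
        (V ^ n * Submodule.span k (t : Set H))
      have h6 : (Module.finrank k ↥(V ^ n * Submodule.span k ((insert a t : Finset H) : Set H)) :
          ℝ) ≤ Module.finrank k ↥(V ^ n * Submodule.span k {a}) +
            Module.finrank k ↥(V ^ n * Submodule.span k (t : Set H)) := by
        exact_mod_cast h4.trans h5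
      rw [Finset.card_insert_of_notMem hat]
      push_cast
      linarith
  have hk := key t fun w hw => hW.2 (by rw [← ht]; exact Submodule.subset_span hw)
  rw [ht] at hk
  refine limsup_le_of_le (by isBoundedDefault) ?_
  filter_upwards [hk, ev_bound h2 t.card 0, eventually_ge_atTop 2] with n hn1 hn2 hn3
  rw [Nat.add_zero] at hn2
  exact_mod_cast log_le_of_le hn3 (by linarith) (hn1.trans hn2)

/-- lower bound for `gkdim` -/
theorem le_gkdim {e : H} (hee : e * e = e) (hec : ∀ x, e * x = x * e) {L : Submodule k H} {d : ℝ}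
    {x : H} (hx : x ∈ L) (hex : e * x = x) (h : ∀ s, s < d → ¬ Gr k s x) :
    (d : EReal) ≤ gkdim e L := by
  refine EReal.ge_of_forall_gt_iff_ge.mp fun s hs => ?_
  have hs' : s < d := by exact_mod_cast hs
  have h1 := h s hs'
  unfold Gr at h1
  push Not at h1
  obtain ⟨C, hC, s', hss', hfreq⟩ := h1
  set V := Submodule.span k {e} * C ⊔ Submodule.span k {e} with hV
  have hVfg : V.FG := ((Submodule.fg_span_singleton e).mul hC).sup (Submodule.fg_span_singleton e)
  have hVe : ∀ v ∈ V, e * v = v := by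
    intro v hv
    obtain ⟨a, ha, b, hb, rfl⟩ := Submodule.mem_sup.mp hv
    obtain ⟨c, _, rfl⟩ := Submodule.mem_span_singleton_mul.mp ha
    obtain ⟨l, rfl⟩ := Submodule.mem_span_singleton.mp hb
    rw [mul_add, ← mul_assoc, hee, mul_smul_comm, hee]
  unfold gkdim
  refine le_trans ?_ (le_iSup_of_le V (le_iSup_of_le (Submodule.span k {x}) (le_iSup_of_le
    ⟨hVfg, Submodule.mem_sup_right (Submodule.mem_span_singleton_self e), hVe⟩ (le_iSup_of_le
      ⟨Submodule.fg_span_singleton x, by
        rw [Submodule.span_singleton_le_iff_mem]; exact hx⟩ le_rfl))))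
  refine le_trans (by exact_mod_cast hss'.le : (s : EReal) ≤ (s' : EReal)) ?_
  refine le_limsup_of_frequently_le ?_ (by isBoundedDefault)
  have h2 := (hfreq.and_eventually (eventually_ge_atTop 2))
  refine h2.mono fun n hn => ?_
  obtain ⟨hn1, hn2⟩ := hn
  have h3 := finrank_le_of_le (fg_pow_mul hVfg n x) (Cut_pow hee hec C hex (n := n) (by omega))
  rw [EReal.coe_le_coe_iff]
  by_contra hcon
  push Not at hcon
  have h4 := le_of_log_le hn2 hcon.le
  have h5 : (Module.finrank k ↥(C ^ n * Submodule.span k {x}) : ℝ) ≤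
      Module.finrank k ↥(V ^ n * Submodule.span k {x}) := by exact_mod_cast h3
  linarith

/-- `GKdim` of a left ideal of `e H` is at most the one of `H` -/
theorem gkdim_le_top {e : H} {L : Submodule k H} :
    gkdim e L ≤ gkdim (1 : H) (⊤ : Submodule k H) := by
  unfold gkdim
  refine iSup_le fun V => iSup_le fun W => iSup_le fun hV => iSup_le fun hW => ?_
  have hVfg : (V ⊔ Submodule.span k {(1 : H)}).FG := hV.1.sup (Submodule.fg_span_singleton 1)
  refine le_trans ?_ (le_iSup_of_le (V ⊔ Submodule.span k {(1 : H)}) (le_iSup_of_le W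
    (le_iSup_of_le ⟨hVfg, Submodule.mem_sup_right (Submodule.mem_span_singleton_self 1),
      fun v _ => one_mul v⟩ (le_iSup_of_le ⟨hW.1, le_top⟩ le_rfl))))
  refine limsup_le_limsup ?_ (by isBoundedDefault) (by isBoundedDefault)
  filter_upwards [eventually_ge_atTop 2] with n hn
  rw [EReal.coe_le_coe_iff]
  have hn1 : (1 : ℝ) < n := by exact_mod_cast hn
  have hlog : 0 < Real.log n := Real.log_pos hn1
  have h1 := finrank_le_of_le (((hVfg.pow n).mul hW.1))
    (mul_le_mul' (pow_le_pow_left' (le_sup_left : V ≤ V ⊔ Submodule.span k {(1 : H)}) n)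
      (le_refl W))
  refine div_le_div_of_nonneg_right ?_ hlog.le
  rcases Nat.eq_zero_or_pos (Module.finrank k ↥(V ^ n * W)) with h0 | h0
  · rw [h0, Nat.cast_zero, Real.log_zero]
    exact Real.log_natCast_nonneg _
  · exact Real.log_le_log (by exact_mod_cast h0) (by exact_mod_cast h1)

/-- no growth strictly between `0` and `1` -/
theorem Gr_lt_one {e : H} {d : ℝ} (hd : Gr k d e) (hd1 : d < 1) :
    Gr k 0 e := by
  intro C hC s hs
  -- the powers of `C + k` times `e` stabilize
  set V := C ⊔ Submodule.span k {(1 : H)} with hV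
  have hVfg : V.FG := hC.sup (Submodule.fg_span_singleton 1)
  set X : ℕ → Submodule k H := fun n => V ^ n * Submodule.span k {e} with hX
  have h1V : (1 : Submodule k H) ≤ V := by
    rw [Submodule.one_eq_span]; exact le_sup_right
  have hmono : ∀ n, X n ≤ X (n + 1) := by
    intro n
    simp only [hX]
    refine mul_le_mul' ?_ le_rfl
    rw [pow_succ]
    calc V ^ n = V ^ n * 1 := (mul_one _).symm
      _ ≤ V ^ n * V := mul_le_mul' le_rfl h1V
  have hfg : ∀ n, (X n).FG := fun n => fg_pow_mul hVfg n e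
  have hstab : ∃ n, X n = X (n + 1) := by
    by_contra hcon
    push Not at hcon
    have hgrow : ∀ n, n ≤ Module.finrank k (X n) := by
      intro n
      induction n with
      | zero => exact Nat.zero_le _
      | succ n ih =>
        have : Module.Finite k (X (n + 1)) := Module.Finite.iff_fg.mpr (hfg _)
        have := Submodule.finrank_lt_finrank_of_lt (lt_of_le_of_ne (hmono n) (hcon n))
        omega
    obtain ⟨s', h1, h2⟩ := exists_between hd1
    have h3 := hd V hVfg s' h1
    have h4 := ev_bound (s' := s') (s := 1) h2 2 0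
    obtain ⟨n, hn1, hn2, hn3⟩ := (h3.and (h4.and (eventually_ge_atTop 1))).exists
    have h5 : (n : ℝ) ≤ Module.finrank k (X n) := by exact_mod_cast hgrow n
    rw [Nat.add_zero, Real.rpow_one] at hn2
    have h6 : (0 : ℝ) < n := by exact_mod_cast hn3
    have h7 : (n : ℝ) ≤ (n : ℝ) ^ s' := h5.trans hn1
    linarith
  obtain ⟨n₀, hn₀⟩ := hstab
  have hconst : ∀ n, X (n₀ + n) = X n₀ := by
    intro n
    induction n with
    | zero => rfl
    | succ n ih =>
      have h1 : ∀ m, X (m + 1) = V * X m := by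
        intro m
        simp only [hX]
        rw [pow_succ', mul_assoc]
      rw [← add_assoc, h1, ih, ← h1, ← hn₀]
  have hle : ∀ n, Module.finrank k ↥(C ^ n * Submodule.span k {e}) ≤
      Module.finrank k (X n₀) := by
    intro n
    have h1 : C ^ n * Submodule.span k {e} ≤ X n :=
      mul_le_mul' (pow_le_pow_left' le_sup_left n) le_rfl
    have h2 : X n ≤ X n₀ := by
      rcases le_total n n₀ with h | h
      · exact monotone_nat_of_le_succ hmono h
      · obtain ⟨m, rfl⟩ := Nat.exists_eq_add_of_le h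
        rw [hconst m]
    exact finrank_le_of_le (hfg n₀) (h1.trans h2)
  filter_upwards [ev_bound hs (Module.finrank k (X n₀)) 0, eventually_ge_atTop 1] with n hn hn1
  rw [Real.rpow_zero, mul_one] at hn
  exact (by exact_mod_cast hle n : (Module.finrank k ↥(C ^ n * Submodule.span k {e}) : ℝ) ≤
    Module.finrank k (X n₀)).trans hn

/-- finite GK dimension -/
theorem exists_Gr_one (h : gkdim (1 : H) (⊤ : Submodule k H) ≠ ⊤) : ∃ r : ℝ, Gr k r (1 : H) := by
  obtain ⟨r, hr⟩ : ∃ r : ℝ, gkdim (1 : H) (⊤ : Submodule k H) ≤ r := by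
    induction hG : gkdim (1 : H) (⊤ : Submodule k H) with
    | bot => exact ⟨0, bot_le⟩
    | coe x => exact ⟨x, le_rfl⟩
    | top => exact absurd hG h
  refine ⟨r, fun C hC s hs => ?_⟩
  set V := C ⊔ Submodule.span k {(1 : H)} with hV
  have hVfg : V.FG := hC.sup (Submodule.fg_span_singleton 1)
  have h1 : limsup (fun n : ℕ => ((Real.log (Module.finrank k
      ↥(V ^ n * Submodule.span k {(1 : H)})) / Real.log n : ℝ) : EReal)) atTop ≤ r := by
    refine le_trans ?_ hr
    unfold gkdim
    exact (le_iSup_of_le V (le_iSup_of_le (Submodule.span k {1}) (le_iSup_of_le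
    ⟨hVfg, Submodule.mem_sup_right (Submodule.mem_span_singleton_self 1), fun v _ => one_mul v⟩
      (le_iSup_of_le ⟨Submodule.fg_span_singleton 1, le_top⟩ le_rfl))))
  have h2 := eventually_lt_of_limsup_lt (lt_of_le_of_lt h1 (by exact_mod_cast hs :
    (r : EReal) < (s : EReal))) (by isBoundedDefault)
  filter_upwards [h2, eventually_ge_atTop 2] with n hn hn2
  rw [EReal.coe_lt_coe_iff] at hn
  have h3 := le_of_log_le hn2 hn.le
  have h4 := finrank_le_of_le (fg_pow_mul hVfg n 1)
    (mul_le_mul' (pow_le_pow_left' (le_sup_left : C ≤ V) n) (le_refl (Submodule.span k {(1 : H)})))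
  have h5 : (Module.finrank k ↥(C ^ n * Submodule.span k {(1 : H)}) : ℝ) ≤
      Module.finrank k ↥(V ^ n * Submodule.span k {(1 : H)}) := by exact_mod_cast h4
  linarith

end gk

section dec

variable {k H : Type*} [Field k] [Ring H] [Algebra k H]
  {Δ : H →ₗ[k] H ⊗[k] H} {ε : H →ₗ[k] k} {S : H →ₗ[k] H}

/-- the idempotents `e_r` -/
structure Fam (k : Type*) {H : Type*} [Field k] [Ring H] [Algebra k H]
    (Δ : H →ₗ[k] H ⊗[k] H) (er : ℝ → H) : Prop where
  gr : ∀ r, Gr k r (er r)
  src : ∀ r, er r ∈ Rs Δ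
  tgt : ∀ r, er r ∈ Rt Δ
  central : ∀ r x, er r * x = x * er r
  unit : ∀ r t, Gr k r t → t * er r = t

variable {er : ℝ → H} (F : Fam k Δ er)

include F

theorem Fam.mul_of_le {r s : ℝ} (h : r ≤ s) : er r * er s = er r := F.unit s _ ((F.gr r).mono h)

theorem Fam.gr_iff {r : ℝ} {t : H} : Gr k r t ↔ t * er r = t := by
  refine ⟨F.unit r t, fun h => ?_⟩
  rw [← h]
  exact (F.gr r).mul_left t

/-- decomposition of `e_r` -/
theorem Fam.dec : ∀ (m : ℕ) (r : ℝ),
    Module.finrank k ↥(Rs Δ ⊓ Tm k H r) = m →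
    ∃ (D : Finset ℝ) (E : ℝ → H), (∀ d ∈ D, d ≤ r) ∧ (∀ d ∈ D, Cut Δ (E d)) ∧
      (∀ d ∈ D, E d ≠ 0) ∧ (∀ d ∈ D, E d * er r = E d) ∧
      (∀ d ∈ D, ∀ d' ∈ D, d ≠ d' → E d * E d' = 0) ∧ ∑ d ∈ D, E d = er r ∧
      (∀ d ∈ D, Gr k d (E d)) ∧
      (∀ d ∈ D, ∀ x, x ≠ 0 → E d * x = x → ∀ s, s < d → ¬ Gr k s x) := by
  classical
  intro m
  induction m using Nat.strong_induction_on with
  | _ m ih =>
    intro r hm
    by_cases h0 : er r = 0
    · exact ⟨∅, 0, by simp, by simp, by simp, by simp, by simp, by simp [h0], by simp, by simp⟩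
    -- the infimum
    let A : Set ℝ := {s | Gr k s (er r)}
    have hA : A.Nonempty := ⟨r, F.gr r⟩
    have hAb : BddBelow A := ⟨0, fun s hs => Gr.nonneg hs h0⟩
    set ρ := sInf A with hρ
    have hρr : ρ ≤ r := csInf_le hAb (F.gr r)
    have hρA : Gr k ρ (er r) := by
      refine Gr.of_forall fun s hs => ?_
      obtain ⟨s', hs', hlt⟩ := exists_lt_of_csInf_lt hA hs
      exact hs'.mono hlt.le
    have hlt : ∀ s, s < ρ → ¬ Gr k s (er r) := fun s hs hG => absurd (csInf_le hAb hG)
      (not_le.mpr hs)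
    have hfgRs : ∀ s, (Rs Δ ⊓ Tm k H s).FG := fun s => fg_of_le (fg_Rs Δ) inf_le_left
    -- choice of `s₀`
    let f : ℝ → ℕ := fun s => Module.finrank k ↥(Rs Δ ⊓ Tm k H s)
    have hbd : ∀ s, f s ≤ Module.finrank k (Rs Δ) := fun s =>
      finrank_le_of_le (fg_Rs Δ) inf_le_left
    obtain ⟨s₀, hs₀, hmax⟩ : ∃ s₀, s₀ < ρ ∧ ∀ s, s < ρ → f s ≤ f s₀ := by
      by_contra hcon
      push Not at hcon
      have : ∀ N : ℕ, ∃ s, s < ρ ∧ N ≤ f s := by
        intro N
        induction N with
        | zero => exact ⟨ρ - 1, by linarith, Nat.zero_le _⟩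
        | succ N ihN =>
          obtain ⟨s, hs, hN⟩ := ihN
          obtain ⟨s', hs', hlt'⟩ := hcon s hs
          exact ⟨s', hs', by omega⟩
      obtain ⟨s, _, hs⟩ := this (Module.finrank k (Rs Δ) + 1)
      have := hbd s
      omega
    -- `T_s ∩ Rs = T_{s₀} ∩ Rs` for `s₀ ≤ s < ρ`
    have hconst : ∀ s, s < ρ → Gr k s₀ (er s) := by
      intro s hs
      rcases le_total s s₀ with hle | hle
      · exact (F.gr s).mono hle
      · have hsub : Rs Δ ⊓ Tm k H s₀ ≤ Rs Δ ⊓ Tm k H s :=
          inf_le_inf_left _ fun x hx => Gr.mono hle hx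
        have : Module.Finite k ↥(Rs Δ ⊓ Tm k H s) := Module.Finite.iff_fg.mpr (hfgRs s)
        have heq := Submodule.eq_of_le_of_finrank_le hsub (hmax s hs)
        have hmem : er s ∈ Rs Δ ⊓ Tm k H s := ⟨F.src s, F.gr s⟩
        rw [← heq] at hmem
        exact hmem.2
    have hf0 : f s₀ < m := by
      rw [← hm]
      have : Module.Finite k ↥(Rs Δ ⊓ Tm k H r) := Module.Finite.iff_fg.mpr (hfgRs r)
      refine Submodule.finrank_lt_finrank_of_lt (lt_of_le_of_ne
        (inf_le_inf_left _ fun x hx => Gr.mono (hs₀.le.trans hρr) hx) fun heq => ?_)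
      have hmem : er r ∈ Rs Δ ⊓ Tm k H r := ⟨F.src r, F.gr r⟩
      rw [← heq] at hmem
      exact hlt s₀ hs₀ hmem.2
    obtain ⟨D, E, hD1, hD2, hD3, hD4, hD5, hD6, hD7, hD8⟩ := ih (f s₀) hf0 s₀ rfl
    have hρD : ρ ∉ D := fun h => absurd (hD1 ρ h) (not_le.mpr hs₀)
    have h1 : er s₀ * er r = er s₀ := F.mul_of_le (hs₀.le.trans hρr)
    have h1' : er r * er s₀ = er s₀ := by rw [F.central, h1]
    have hidem : ∀ s, er s * er s = er s := fun s => F.mul_of_le le_rfl
    let E' : ℝ → H := fun d => if d = ρ then er r - er s₀ else E d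
    have hE'ρ : E' ρ = er r - er s₀ := if_pos rfl
    have hE'D : ∀ d ∈ D, E' d = E d := fun d hd => if_neg (fun h : d = ρ => hρD (h ▸ hd))
    have hEs₀ : ∀ d ∈ D, E d * er r = E d := by
      intro d hd
      rw [← hD4 d hd, mul_assoc, h1]
    have hcutρ : Cut Δ (er r - er s₀) :=
      { idem := by
          rw [mul_sub, sub_mul, sub_mul, hidem, hidem, h1, h1', sub_self, sub_zero]
        central := fun x => by rw [sub_mul, mul_sub, F.central, F.central]
        src := Submodule.sub_mem _ (F.src r) (F.src s₀)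
        tgt := Submodule.sub_mem _ (F.tgt r) (F.tgt s₀) }
    have hcut : ∀ d ∈ insert ρ D, Cut Δ (E' d) := by
      intro d hd
      rcases Finset.mem_insert.mp hd with rfl | hd
      · rw [hE'ρ]; exact hcutρ
      · rw [hE'D d hd]; exact hD2 d hd
    have horth : ∀ d ∈ D, E d * (er r - er s₀) = 0 := by
      intro d hd
      rw [mul_sub, hEs₀ d hd, hD4 d hd, sub_self]
    refine ⟨insert ρ D, E', ?_, hcut, ?_, ?_, ?_, ?_, ?_, ?_⟩
    · intro d hd
      rcases Finset.mem_insert.mp hd with rfl | hd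
      · exact hρr
      · exact (hD1 d hd).trans (hs₀.le.trans hρr)
    · intro d hd
      rcases Finset.mem_insert.mp hd with rfl | hd
      · rw [hE'ρ]
        intro h
        apply hlt s₀ hs₀
        rw [sub_eq_zero.mp h]
        exact F.gr s₀
      · rw [hE'D d hd]; exact hD3 d hd
    · intro d hd
      rcases Finset.mem_insert.mp hd with rfl | hd
      · rw [hE'ρ, sub_mul, hidem, h1]
      · rw [hE'D d hd]; exact hEs₀ d hd
    · intro d hd d' hd' hne
      rcases Finset.mem_insert.mp hd with rfl | hd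
      · rcases Finset.mem_insert.mp hd' with rfl | hd'
        · exact absurd rfl hne
        · rw [hE'ρ, hE'D d' hd', hcutρ.central, horth d' hd']
      · rcases Finset.mem_insert.mp hd' with rfl | hd'
        · rw [hE'ρ, hE'D d hd, horth d hd]
        · rw [hE'D d hd, hE'D d' hd']; exact hD5 d hd d' hd' hne
    · rw [Finset.sum_insert hρD, hE'ρ, Finset.sum_congr rfl hE'D, hD6, sub_add_cancel]
    · intro d hd
      rcases Finset.mem_insert.mp hd with rfl | hd
      · rw [hE'ρ]
        have h2 : Gr k ρ (er s₀) := (F.gr s₀).mono hs₀.le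
        have h3 := hρA.add (h2.smul (-1 : k))
        rwa [neg_one_smul, ← sub_eq_add_neg] at h3
      · rw [hE'D d hd]; exact hD7 d hd
    · intro d hd x hx0 hx s hs hG
      rcases Finset.mem_insert.mp hd with rfl | hd
      · rw [hE'ρ] at hx
        -- `x e_{s₀} = x`
        have h2 : x * er s = x := F.unit s x hG
        have h3 : er s * er s₀ = er s := F.unit s₀ _ (hconst s hs)
        have h4 : x * er s₀ = x := by rw [← h2, mul_assoc, h3]
        apply hx0
        rw [← h4, ← hx, mul_assoc, ← F.central s₀ x, ← mul_assoc, sub_mul, h1', hidem, sub_self,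
          zero_mul]
      · rw [hE'D d hd] at hx
        exact hD8 d hd x hx0 hx s hs hG

end dec

section main

variable {k H : Type*} [Field k] [Ring H] [Algebra k H]
  {Δ : H →ₗ[k] H ⊗[k] H} {ε : H →ₗ[k] k} {S : H →ₗ[k] H}

/-- **Main theorem** -/
theorem main [IsNoetherianRing H] [IsNoetherianRing Hᵐᵒᵖ] (W : WeakHopfOn Δ ε S (1 : H))
    (hfin : gkdim (1 : H) (⊤ : Submodule k H) ≠ ⊤) :
    ∃ (D : Finset ℝ) (e : ℝ → H),
      (∀ d ∈ D, (d = 0 ∨ 1 ≤ d) ∧ (d : EReal) ≤ gkdim (1 : H) (⊤ : Submodule k H)) ∧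
      (∀ d ∈ D, e d ≠ 0 ∧ WeakHopfOn Δ ε S (e d)) ∧
      (∀ d ∈ D, ∀ d' ∈ D, d ≠ d' → e d * e d' = 0) ∧ ∑ d ∈ D, e d = 1 ∧
      ∀ d ∈ D, ∀ L : Submodule k H, L ≠ ⊥ → (∀ h, ∀ x ∈ L, h * x ∈ L) →
        (∀ x ∈ L, e d * x = x) → gkdim (e d) L = d := by
  have : IsNoetherianRing Hᵐᵒᵖᵐᵒᵖ := isNoetherianRing_of_ringEquiv H (RingEquiv.opOp H)
  have hgood : Good (⊥ : Ideal H) := good_of_noetherian ⊥ inferInstance
  have hgood' : Good (⊥ : Ideal Hᵐᵒᵖ) := good_of_noetherian ⊥ inferInstance
  have hex : ∀ r : ℝ, ∃ e : H, Gr k r e ∧ e ∈ Rs Δ ∧ e ∈ Rt Δ ∧ (∀ h, e * h = h * e) ∧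
      ∀ t : H, Gr k r t → t * e = t := fun r =>
    exists_er_both (φ := (MulOpposite.opLinearEquiv k : H ≃ₗ[k] Hᵐᵒᵖ)) W (fun _ _ => rfl)
      hgood hgood' r
  choose er h1 h2 h3 h4 h5 using hex
  have F : Fam k Δ er := ⟨h1, h2, h3, h4, h5⟩
  obtain ⟨r, hr⟩ := exists_Gr_one hfin
  have hone : er r = 1 := by
    have := F.unit r 1 hr
    rwa [one_mul] at this
  obtain ⟨D, E, hD1, hD2, hD3, hD4, hD5, hD6, hD7, hD8⟩ := F.dec _ r rfl
  have hgk : ∀ d ∈ D, ∀ L : Submodule k H, L ≠ ⊥ → (∀ x ∈ L, E d * x = x) →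
      gkdim (E d) L = d := by
    intro d hd L hL hLe
    apply le_antisymm
    · refine gkdim_le ((hD7 d hd).nonneg (hD3 d hd)) fun x hx => ?_
      rw [← hLe x hx]
      exact (hD7 d hd).mul_right x
    · obtain ⟨x, hxL, hx0⟩ := Submodule.exists_mem_ne_zero_of_ne_bot hL
      exact le_gkdim (hD2 d hd).idem (hD2 d hd).central hxL (hLe x hxL)
        (hD8 d hd x hx0 (hLe x hxL))
  refine ⟨D, E, fun d hd => ⟨?_, ?_⟩, fun d hd => ⟨hD3 d hd, (hD2 d hd).weakHopf W⟩,
    hD5, by rw [hD6, hone], fun d hd L hL _ hLe => hgk d hd L hL hLe⟩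
  · by_contra hcon
    push Not at hcon
    have h0 := (hD7 d hd).nonneg (hD3 d hd)
    have hpos : 0 < d := lt_of_le_of_ne h0 (Ne.symm hcon.1)
    exact hD8 d hd (E d) (hD3 d hd) (hD2 d hd).idem 0 hpos
      (Gr_lt_one (hD7 d hd) hcon.2)
  · rw [← hgk d hd (Submodule.span k {E d}) ?_ ?_]
    · exact gkdim_le_top
    · rw [Ne, Submodule.span_singleton_eq_bot]; exact hD3 d hd
    · intro x hx
      obtain ⟨c, rfl⟩ := Submodule.mem_span_singleton.mp hx
      rw [mul_smul_comm, (hD2 d hd).idem]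

end main

end Pool.Agent.Helper59.WH
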