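import Mathlib

set_option autoImplicit false

/-! # Weak Hopf algebras and Gelfand-Kirillov dimension: definitions -/

namespace Pool.Agent.Helper59.WH

open TensorProduct Filter

universe u

section

variable {k H : Type*} [Field k] [Ring H] [Algebra k H]

/-- Let `Δ`, `ε`, `S` be linear maps `H → H ⊗ H`, `H → k`, `H → H`. For an element `e` of `H`
this says that `e` is a central idempotent, that `Δ` maps the ideal `e H` (the set of the `x` with
`e x = x`) to `e H ⊗ e H`, that `S` maps it to itself, and that the algebra `e H` with unit `e` and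
the restrictions of `Δ`, `ε`, `S` is a weak Hopf algebra. For `e = 1` this is the definition of a
weak Hopf algebra `H` with comultiplication `Δ`, counit `ε` and antipode `S`. -/
structure WeakHopfOn (Δ : H →ₗ[k] H ⊗[k] H) (ε : H →ₗ[k] k) (S : H →ₗ[k] H) (e : H) : Prop where
  idem : e * e = e
  central : ∀ x, e * x = x * e
  comul_mem : ∀ x, e * x = x → (e ⊗ₜ[k] e) * Δ x = Δ x
  antipode_mem : ∀ x, e * x = x → e * S x = S x
  coassoc : ∀ x, e * x = x →
    TensorProduct.assoc k H H H (TensorProduct.map Δ LinearMap.id (Δ x)) =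
      TensorProduct.map LinearMap.id Δ (Δ x)
  counit_left : ∀ x, e * x = x →
    TensorProduct.lid k H (TensorProduct.map ε LinearMap.id (Δ x)) = x
  counit_right : ∀ x, e * x = x →
    TensorProduct.rid k H (TensorProduct.map LinearMap.id ε (Δ x)) = x
  comul_mul : ∀ x y, e * x = x → e * y = y → Δ (x * y) = Δ x * Δ y
  /-- `Δ²(e) = (Δ(e) ⊗ e) (e ⊗ Δ(e))` -/
  comul_unit : TensorProduct.map LinearMap.id Δ (Δ e) =
    TensorProduct.assoc k H H H (Δ e ⊗ₜ[k] e) * (e ⊗ₜ[k] Δ e)
  /-- `Δ²(e) = (e ⊗ Δ(e)) (Δ(e) ⊗ e)` -/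
  comul_unit' : TensorProduct.map LinearMap.id Δ (Δ e) =
    (e ⊗ₜ[k] Δ e) * TensorProduct.assoc k H H H (Δ e ⊗ₜ[k] e)
  /-- `ε(x y z) = ε(x y₁) ε(y₂ z)` -/
  counit_mul : ∀ x y z, e * x = x → e * y = y → e * z = z →
    ε (x * y * z) = LinearMap.mul' k k
      (TensorProduct.map (ε ∘ₗ LinearMap.mulLeft k x) (ε ∘ₗ LinearMap.mulRight k z) (Δ y))
  /-- `ε(x y z) = ε(x y₂) ε(y₁ z)` -/
  counit_mul' : ∀ x y z, e * x = x → e * y = y → e * z = z →
    ε (x * y * z) = LinearMap.mul' k k
      (TensorProduct.map (ε ∘ₗ LinearMap.mulRight k z) (ε ∘ₗ LinearMap.mulLeft k x) (Δ y))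
  /-- `x₁ S(x₂) = ε(e₁ x) e₂` -/
  antipode_target : ∀ x, e * x = x →
    LinearMap.mul' k H (TensorProduct.map LinearMap.id S (Δ x)) =
      TensorProduct.lid k H (TensorProduct.map (ε ∘ₗ LinearMap.mulRight k x) LinearMap.id (Δ e))
  /-- `S(x₁) x₂ = e₁ ε(x e₂)` -/
  antipode_source : ∀ x, e * x = x →
    LinearMap.mul' k H (TensorProduct.map S LinearMap.id (Δ x)) =
      TensorProduct.rid k H (TensorProduct.map LinearMap.id (ε ∘ₗ LinearMap.mulLeft k x) (Δ e))
  /-- `S(x₁) x₂ S(x₃) = S(x)` -/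
  antipode_antipode : ∀ x, e * x = x →
    LinearMap.mul' k H (TensorProduct.map S
      (LinearMap.mul' k H ∘ₗ TensorProduct.map LinearMap.id S ∘ₗ Δ) (Δ x)) = S x

/-- The Gelfand-Kirillov dimension of the left module `L` over the algebra `e H` with unit `e`
(`e` a central idempotent of `H`, `L` a left ideal of `e H`): the supremum, over all
finite-dimensional subspaces `V` of `e H` with `e ∈ V` and all finite-dimensional subspaces `W` of
`L`, of `limsup log (dim (Vⁿ W)) / log n`. -/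
noncomputable def gkdim (e : H) (L : Submodule k H) : EReal :=
  ⨆ (V : Submodule k H) (W : Submodule k H)
    (_ : V.FG ∧ e ∈ V ∧ ∀ v ∈ V, e * v = v) (_ : W.FG ∧ W ≤ L),
    limsup (fun n : ℕ => ((Real.log (Module.finrank k ↥(V ^ n * W)) / Real.log n : ℝ) : EReal)) atTop

end

end Pool.Agent.Helper59.WH
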