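import Pool.Agent.Helper59.WH.Dec

set_option autoImplicit false

/-!
# Algebras which are finite over a commutative affine algebra: the growth is an integer
-/

namespace Pool.Agent.Helper59.WH

open TensorProduct Filter

section

variable {k H R : Type*} [Field k] [Ring H] [Algebra k H] [CommRing R] [Algebra k R]

/-- monomials with all exponents at most `t` -/
def mon {m : ℕ} (z : Fin m → R) (a : Fin m → ℕ) : R := ∏ i, z i ^ a i

theorem mon_add {m : ℕ} (z : Fin m → R) (a b : Fin m → ℕ) :
    mon z (a + b) = mon z a * mon z b := by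
  simp only [mon, Pi.add_apply, pow_add, Finset.prod_mul_distrib]

/-- every polynomial is a combination of monomials in a box -/
theorem exists_box {m : ℕ} (z : Fin m → R) (p : MvPolynomial (Fin m) k) :
    ∃ t : ℕ, MvPolynomial.aeval z p ∈ Submodule.span k {x | ∃ a : Fin m → ℕ, (∀ i, a i ≤ t) ∧
      x = mon z a} := by
  induction p using MvPolynomial.induction_on' with
  | monomial u c =>
    refine ⟨∑ i, u i, ?_⟩
    rw [MvPolynomial.aeval_monomial, ← Algebra.smul_def]
    refine Submodule.smul_mem _ _ (Submodule.subset_span ⟨fun i => u i, fun i =>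
      Finset.single_le_sum (f := fun i => u i) (fun _ _ => Nat.zero_le _) (Finset.mem_univ i), ?_⟩)
    rw [Finsupp.prod_fintype _ _ (fun i => pow_zero _)]
    rfl
  | add p q hp hq =>
    obtain ⟨t, ht⟩ := hp
    obtain ⟨s, hs⟩ := hq
    refine ⟨max t s, ?_⟩
    rw [map_add]
    refine Submodule.add_mem _ (Submodule.span_mono ?_ ht) (Submodule.span_mono ?_ hs)
    · rintro _ ⟨a, ha, rfl⟩; exact ⟨a, fun i => (ha i).trans (le_max_left _ _), rfl⟩
    · rintro _ ⟨a, ha, rfl⟩; exact ⟨a, fun i => (ha i).trans (le_max_right _ _), rfl⟩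

variable (ι : R →ₐ[k] H)

/-- `span { w_l z^a e : a_i ≤ t }` -/
def Qt {m M : ℕ} (z : Fin m → R) (w : Fin M → H) (e : H) (t : ℕ) : Submodule k H :=
  Submodule.span k (Set.range fun p : Fin M × (Fin m → Fin (t + 1)) =>
    w p.1 * ι (mon z fun i => (p.2 i : ℕ)) * e)

theorem mem_Qt {m M : ℕ} (z : Fin m → R) (w : Fin M → H) (e : H) {t : ℕ} (l : Fin M)
    (a : Fin m → ℕ) (ha : ∀ i, a i ≤ t) : w l * ι (mon z a) * e ∈ Qt ι z w e t :=
  Submodule.subset_span ⟨(l, fun i => ⟨a i, Nat.lt_succ_of_le (ha i)⟩), rfl⟩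

theorem Qt_mono {m M : ℕ} (z : Fin m → R) (w : Fin M → H) (e : H) {t s : ℕ} (h : t ≤ s) :
    Qt ι z w e t ≤ Qt ι z w e s := by
  refine Submodule.span_le.mpr ?_
  rintro _ ⟨⟨l, a⟩, rfl⟩
  exact mem_Qt ι z w e l _ fun i => (Nat.lt_succ_iff.mp (a i).2).trans h

theorem Qt_fg {m M : ℕ} (z : Fin m → R) (w : Fin M → H) (e : H) (t : ℕ) :
    (Qt ι z w e t).FG := Submodule.fg_span (Set.finite_range _)

theorem Qt_finrank {m M : ℕ} (z : Fin m → R) (w : Fin M → H) (e : H) (t : ℕ) :
    Module.finrank k (Qt ι z w e t) ≤ M * (t + 1) ^ m := by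
  unfold Qt
  refine (finrank_range_le_card _).trans ?_
  rw [Fintype.card_prod, Fintype.card_fin, Fintype.card_fun, Fintype.card_fin, Fintype.card_fin]

/-- the integral growth -/
theorem exists_nat_growth [Algebra.FiniteType k R] {N : ℕ} (a : Fin N → H)
    (ha : ∀ h : H, ∃ r : Fin N → R, h = ∑ i, a i * ι (r i)) {e : H} (he0 : e ≠ 0)
    (hec : ∀ x, e * x = x * e) :
    ∃ m : ℕ, Gr k (m : ℝ) e ∧ ∀ s : ℝ, s < m → ¬ Gr k s e := by
  classical
  -- the ideal of the `r` with `r e = 0`
  let I : Ideal R :=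
    { carrier := {r | ι r * e = 0}
      add_mem' := by
        intro x y hx hy
        change ι (x + y) * e = 0
        rw [map_add, add_mul, hx, hy, add_zero]
      zero_mem' := by
        change ι 0 * e = 0
        rw [map_zero, zero_mul]
      smul_mem' := by
        intro c x hx
        change ι (c * x) * e = 0
        rw [map_mul, mul_assoc, hx, mul_zero] }
  have hI : ∀ r, r ∈ I ↔ ι r * e = 0 := fun r => Iff.rfl
  have hI1 : I ≠ ⊤ := by
    rw [Ne, Ideal.eq_top_iff_one, hI, map_one, one_mul]
    exact he0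
  have : Nontrivial (R ⧸ I) := Ideal.Quotient.nontrivial_iff.mpr hI1
  have : Algebra.FiniteType k (R ⧸ I) :=
    Algebra.FiniteType.of_surjective (Ideal.Quotient.mkₐ k I) (Ideal.Quotient.mkₐ_surjective k I)
  obtain ⟨m, g, hginj, hgfin⟩ := exists_finite_inj_algHom_of_fg k (R ⧸ I)
  -- lifts of the variables
  choose z hz using fun i : Fin m => Ideal.Quotient.mk_surjective (g (MvPolynomial.X i))
  have hψ : ∀ p : MvPolynomial (Fin m) k, Ideal.Quotient.mk I (MvPolynomial.aeval z p) = g p := by
    intro p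
    have h1 : (Ideal.Quotient.mkₐ k I).comp (MvPolynomial.aeval z) = g := by
      apply MvPolynomial.algHom_ext
      intro i
      rw [AlgHom.comp_apply, MvPolynomial.aeval_X]
      exact hz i
    exact AlgHom.congr_fun h1 p
  refine ⟨m, ?_, ?_⟩
  · -- upper bound
    -- generators of `R / I` over the polynomial ring
    have hfin : ∃ (L : ℕ) (u : Fin L → R), ∀ r : R, ∃ p : Fin L → MvPolynomial (Fin m) k,
        r - ∑ j, MvPolynomial.aeval z (p j) * u j ∈ I := by
      let _ : Module (MvPolynomial (Fin m) k) (R ⧸ I) := g.toRingHom.toModule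
      have hmf : Module.Finite (MvPolynomial (Fin m) k) (R ⧸ I) := hgfin
      obtain ⟨L, v, hv⟩ := Module.Finite.exists_fin (R := MvPolynomial (Fin m) k) (M := R ⧸ I)
      choose u hu using fun j : Fin L => Ideal.Quotient.mk_surjective (v j)
      refine ⟨L, u, fun r => ?_⟩
      have hr : Ideal.Quotient.mk I r ∈ Submodule.span (MvPolynomial (Fin m) k) (Set.range v) := by
        rw [hv]; trivial
      obtain ⟨p, hp⟩ := (Submodule.mem_span_range_iff_exists_fun _).mp hr
      refine ⟨p, ?_⟩
      rw [← Ideal.Quotient.eq_zero_iff_mem, map_sub, map_sum, ← hp, sub_eq_zero]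
      refine Finset.sum_congr rfl fun j _ => ?_
      rw [map_mul, hψ, hu]
      rfl
    obtain ⟨L, u, hu⟩ := hfin
    -- generators of `H e`
    let w : Fin (N * L) → H := fun q => a (finProdFinEquiv.symm q).1 * ι (u (finProdFinEquiv.symm q).2)
    have hgen : ∀ h : H, ∃ t, h * e ∈ Qt ι z w e t := by
      intro h
      obtain ⟨r, hr⟩ := ha h
      choose p hp using fun i => hu (r i)
      have h1 : ∀ i, ι (r i) * e = ∑ j, ι (MvPolynomial.aeval z (p i j) * u j) * e := by
        intro i
        have := (hI _).mp (hp i)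
        rw [map_sub, sub_mul, sub_eq_zero, map_sum, Finset.sum_mul] at this
        exact this
      have h2 : ∀ i j, ∃ t, a i * (ι (MvPolynomial.aeval z (p i j) * u j) * e) ∈
          Qt ι z w e t := by
        intro i j
        obtain ⟨t, ht⟩ := exists_box (k := k) z (p i j)
        refine ⟨t, ?_⟩
        let Φ : R →ₗ[k] H := LinearMap.mulLeft k (a i) ∘ₗ LinearMap.mulRight k e ∘ₗ
          ι.toLinearMap ∘ₗ LinearMap.mulRight k (u j)
        have h3 : Φ (MvPolynomial.aeval z (p i j)) ∈ Qt ι z w e t := by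
          have h4 := Submodule.mem_map_of_mem (f := Φ) ht
          rw [Submodule.map_span] at h4
          refine Submodule.span_le.mpr ?_ h4
          rintro _ ⟨_, ⟨b, hb, rfl⟩, rfl⟩
          have h5 : Φ (mon z b) = w (finProdFinEquiv (i, j)) * ι (mon z b) * e := by
            simp only [Φ, w, LinearMap.comp_apply, LinearMap.mulLeft_apply,
              LinearMap.mulRight_apply, AlgHom.toLinearMap_apply, Equiv.symm_apply_apply]
            rw [mul_comm (mon z b), map_mul]
            simp only [mul_assoc]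
          rw [SetLike.mem_coe, h5]
          exact mem_Qt ι z w e _ b hb
        exact h3
      choose t ht using h2
      refine ⟨∑ i, ∑ j, t i j, ?_⟩
      rw [hr, Finset.sum_mul]
      refine Submodule.sum_mem _ fun i _ => ?_
      rw [mul_assoc, h1, Finset.mul_sum]
      refine Submodule.sum_mem _ fun j _ => Qt_mono ι z w e ?_ (ht i j)
      calc t i j ≤ ∑ j, t i j :=
            Finset.single_le_sum (f := fun j => t i j) (fun _ _ => Nat.zero_le _)
              (Finset.mem_univ j)
        _ ≤ ∑ i, ∑ j, t i j :=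
            Finset.single_le_sum (f := fun i => ∑ j, t i j) (fun _ _ => Nat.zero_le _)
              (Finset.mem_univ i)
    -- action of `C`
    have hact : ∀ c : H, ∃ t, ∀ s, ∀ x ∈ Qt ι z w e s, c * x ∈ Qt ι z w e (s + t) := by
      intro c
      choose t ht using fun l => hgen (c * w l)
      refine ⟨∑ l, t l, fun s x hx => ?_⟩
      have h1 := Submodule.mem_map_of_mem (f := LinearMap.mulLeft k c) hx
      rw [Qt, Submodule.map_span] at h1
      refine Submodule.span_le.mpr ?_ h1
      rintro _ ⟨_, ⟨⟨l, b⟩, rfl⟩, rfl⟩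
      rw [SetLike.mem_coe, LinearMap.mulLeft_apply]
      have h2 : c * (w l * ι (mon z fun i => (b i : ℕ)) * e) =
          (c * w l * e) * ι (mon z fun i => (b i : ℕ)) := by
        rw [mul_assoc (w l), ← hec, ← mul_assoc, ← mul_assoc]
      dsimp only
      rw [h2]
      have h3 := ht l
      have h4 := Submodule.mem_map_of_mem
        (f := LinearMap.mulRight k (ι (mon z fun i => (b i : ℕ)))) h3
      rw [Qt, Submodule.map_span] at h4
      refine Submodule.span_le.mpr ?_ h4
      rintro _ ⟨_, ⟨⟨l', b'⟩, rfl⟩, rfl⟩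
      rw [SetLike.mem_coe, LinearMap.mulRight_apply]
      have h5 : w l' * ι (mon z fun i => (b' i : ℕ)) * e * ι (mon z fun i => (b i : ℕ)) =
          w l' * ι (mon z ((fun i => (b' i : ℕ)) + fun i => (b i : ℕ))) * e := by
        rw [mon_add, map_mul, mul_assoc _ e, hec, ← mul_assoc, mul_assoc (w l')]
      dsimp only
      rw [h5]
      refine mem_Qt ι z w e l' _ fun i => ?_
      have h6 := Nat.lt_succ_iff.mp (b' i).2
      have h7 := Nat.lt_succ_iff.mp (b i).2
      have h8 : t l' ≤ ∑ l, t l := Finset.single_le_sum (fun _ _ => Nat.zero_le _)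
        (Finset.mem_univ l')
      have h9 : t l ≤ ∑ l, t l := Finset.single_le_sum (fun _ _ => Nat.zero_le _)
        (Finset.mem_univ l)
      simp only [Pi.add_apply]
      omega
    have hactC : ∀ C : Submodule k H, C.FG → ∃ t, ∀ s, C * Qt ι z w e s ≤ Qt ι z w e (s + t) := by
      intro C hC
      obtain ⟨S, rfl⟩ := hC
      choose t ht using hact
      refine ⟨∑ c ∈ S, t c, fun s => ?_⟩
      rw [Submodule.mul_le]
      intro c hc x hx
      induction hc using Submodule.span_induction with
      | mem c hc =>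
        exact Qt_mono ι z w e (Nat.add_le_add_left
          (Finset.single_le_sum (fun _ _ => Nat.zero_le _) hc) s) (ht c s x hx)
      | zero => rw [zero_mul]; exact Submodule.zero_mem _
      | add a b _ _ ha hb => rw [add_mul]; exact Submodule.add_mem _ ha hb
      | smul c a _ ha => rw [smul_mul_assoc]; exact Submodule.smul_mem _ _ ha
    intro C hC s hs
    obtain ⟨t, ht⟩ := hactC C hC
    obtain ⟨t₀, ht₀⟩ := hgen 1
    rw [one_mul] at ht₀
    have hpow : ∀ n, C ^ n * Submodule.span k {e} ≤ Qt ι z w e (t₀ + n * t) := by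
      intro n
      induction n with
      | zero =>
        rw [pow_zero, one_mul, zero_mul, add_zero, Submodule.span_singleton_le_iff_mem]
        exact ht₀
      | succ n ih =>
        rw [pow_succ', mul_assoc]
        refine (mul_le_mul' le_rfl ih).trans ((ht _).trans (Qt_mono ι z w e ?_))
        rw [add_mul, one_mul]; omega
    have hbound : ∀ n, 1 ≤ n → Module.finrank k ↥(C ^ n * Submodule.span k {e}) ≤
        (N * L) * (t₀ + t + 1) ^ m * n ^ m := by
      intro n hn
      refine (finrank_le_of_le (Qt_fg ι z w e _) (hpow n)).trans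
        ((Qt_finrank ι z w e _).trans ?_)
      rw [mul_assoc (N * L), ← mul_pow]
      refine Nat.mul_le_mul_left _ (Nat.pow_le_pow_left ?_ m)
      nlinarith [Nat.zero_le t₀, Nat.zero_le t]
    filter_upwards [ev_bound (s' := (m : ℝ)) (s := s) hs ((N * L) * (t₀ + t + 1) ^ m) 0,
      eventually_ge_atTop 1] with n hn hn1
    rw [Nat.add_zero, Real.rpow_natCast] at hn
    refine le_trans ?_ hn
    exact_mod_cast hbound n hn1
  · -- lower bound
    intro s hs hG
    let V : Submodule k H := Submodule.span k (Set.range fun b : Fin m → Fin 2 =>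
      ι (mon z fun i => (b i : ℕ)))
    have hV : V.FG := Submodule.fg_span (Set.finite_range _)
    obtain ⟨s', h1, h2⟩ := exists_between hs
    have hmem : ∀ n : ℕ, ∀ b : Fin m → ℕ, (∀ i, b i ≤ n) → ι (mon z b) ∈ V ^ n := by
      intro n
      induction n with
      | zero =>
        intro b hb
        have hb0 : b = 0 := by funext i; exact Nat.le_zero.mp (hb i)
        rw [hb0, pow_zero]
        have : mon z (0 : Fin m → ℕ) = 1 := by simp [mon]
        rw [this, map_one, Submodule.one_eq_span]
        exact Submodule.mem_span_singleton_self _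
      | succ n ih =>
        intro b hb
        have hb2 : b = (fun i => b i - 1) + fun i => ((if b i = 0 then 0 else 1 : Fin 2) : ℕ) := by
          funext i
          simp only [Pi.add_apply]
          by_cases h : b i = 0
          · simp [h]
          · simp only [h, if_false, Fin.isValue]
            have : ((1 : Fin 2) : ℕ) = 1 := rfl
            rw [this]; omega
        rw [hb2, mon_add, map_mul, pow_succ]
        refine Submodule.mul_mem_mul (ih _ fun i => ?_) (Submodule.subset_span ⟨_, rfl⟩)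
        have := hb i
        omega
    have hli : ∀ n : ℕ, LinearIndependent k fun b : Fin m → Fin (n + 1) =>
        ι (mon z fun i => (b i : ℕ)) * e := by
      intro n
      rw [Fintype.linearIndependent_iff]
      intro c hc b
      let p : MvPolynomial (Fin m) k := ∑ b : Fin m → Fin (n + 1),
        MvPolynomial.monomial (Finsupp.equivFunOnFinite.symm fun i => (b i : ℕ)) (c b)
      have hp : MvPolynomial.aeval z p = ∑ b, c b • mon z fun i => (b i : ℕ) := by
        simp only [p, map_sum, MvPolynomial.aeval_monomial, ← Algebra.smul_def]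
        refine Finset.sum_congr rfl fun b _ => ?_
        rw [Finsupp.prod_fintype _ _ (fun i => pow_zero _)]
        rfl
      have hpI : MvPolynomial.aeval z p ∈ I := by
        rw [hI, hp, map_sum, Finset.sum_mul, ← hc]
        refine Finset.sum_congr rfl fun b _ => ?_
        rw [map_smul, smul_mul_assoc]
      have hp0 : p = 0 := by
        apply hginj
        rw [← hψ, map_zero]
        exact Ideal.Quotient.eq_zero_iff_mem.mpr hpI
      have hco := congrArg (MvPolynomial.coeff (Finsupp.equivFunOnFinite.symm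
        fun i => (b i : ℕ))) hp0
      simp only [p, MvPolynomial.coeff_sum, MvPolynomial.coeff_monomial,
        MvPolynomial.coeff_zero] at hco
      rw [Finset.sum_eq_single b] at hco
      · rwa [if_pos rfl] at hco
      · intro b' _ hne
        rw [if_neg]
        intro h
        apply hne
        funext i
        apply Fin.ext
        have := DFunLike.congr_fun h i
        exact this
      · intro h; exact absurd (Finset.mem_univ b) h
    have hlow : ∀ n, (n + 1) ^ m ≤ Module.finrank k ↥(V ^ n * Submodule.span k {e}) := by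
      intro n
      have h3 : Module.finrank k (Submodule.span k (Set.range fun b : Fin m → Fin (n + 1) =>
          ι (mon z fun i => (b i : ℕ)) * e)) = (n + 1) ^ m := by
        rw [finrank_span_eq_card (hli n), Fintype.card_fun, Fintype.card_fin, Fintype.card_fin]
      rw [← h3]
      refine finrank_le_of_le (fg_pow_mul hV n e) (Submodule.span_le.mpr ?_)
      rintro _ ⟨b, rfl⟩
      exact Submodule.mul_mem_mul (hmem n _ fun i => Nat.lt_succ_iff.mp (b i).2)
        (Submodule.mem_span_singleton_self e)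
    have h3 := hG V hV s' h1
    have h4 := ev_bound (s' := s') (s := m) h2 2 0
    obtain ⟨n, hn1, hn2, hn3⟩ := (h3.and (h4.and (eventually_ge_atTop 1))).exists
    have h5 : ((n : ℝ) + 1) ^ m ≤ Module.finrank k ↥(V ^ n * Submodule.span k {e}) := by
      exact_mod_cast hlow n
    rw [Nat.add_zero, Real.rpow_natCast] at hn2
    have h6 : (0 : ℝ) < n := by exact_mod_cast hn3
    have h7 : (n : ℝ) ^ m ≤ ((n : ℝ) + 1) ^ m := pow_le_pow_left₀ h6.le (by linarith) m
    have h8 : (0 : ℝ) < (n : ℝ) ^ s' := Real.rpow_pos_of_pos h6 _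
    linarith

/-- the same for left modules over the commutative algebra -/
theorem exists_nat_growth' [Algebra.FiniteType k R] {N : ℕ} (a : Fin N → H)
    (ha : ∀ h : H, ∃ r : Fin N → R, h = ∑ i, ι (r i) * a i) {e : H} (he0 : e ≠ 0)
    (hec : ∀ x, e * x = x * e) :
    ∃ m : ℕ, Gr k (m : ℝ) e ∧ ∀ s : ℝ, s < m → ¬ Gr k s e := by
  let φ : H ≃ₗ[k] Hᵐᵒᵖ := MulOpposite.opLinearEquiv k
  have hφ : ∀ x y, φ (x * y) = φ y * φ x := fun _ _ => rfl
  let ι' : R →ₐ[k] Hᵐᵒᵖ :=
    { toFun := fun r => MulOpposite.op (ι r)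
      map_one' := by rw [map_one]; rfl
      map_mul' := by
        intro x y
        rw [mul_comm, map_mul]; rfl
      map_zero' := by rw [map_zero]; rfl
      map_add' := by
        intro x y
        rw [map_add]; rfl
      commutes' := by
        intro c
        rw [AlgHom.commutes]; rfl }
  have hec' : ∀ x : Hᵐᵒᵖ, φ e * x = x * φ e := by
    intro x
    obtain ⟨y, rfl⟩ := φ.surjective x
    rw [← hφ, ← hφ, hec]
  obtain ⟨m, h1, h2⟩ := exists_nat_growth ι' (fun i => MulOpposite.op (a i)) (by
    intro h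
    obtain ⟨r, hr⟩ := ha h.unop
    refine ⟨r, ?_⟩
    rw [← MulOpposite.op_unop h, hr]
    change φ (∑ i, ι (r i) * a i) = _
    rw [map_sum]
    exact Finset.sum_congr rfl fun i _ => rfl) (e := φ e)
    (fun h0 => he0 (φ.map_eq_zero_iff.mp h0)) hec'
  refine ⟨m, ?_, fun s hs hG => h2 s hs (hG.anti hφ hec)⟩
  have h3 := h1.anti (φ := φ.symm) (symm_mul φ hφ) hec'
  rwa [φ.symm_apply_apply] at h3

end

/-- **Finite over a commutative affine algebra: all of Q1** -/
theorem main_fin {k H : Type*} [Field k] [Ring H] [Algebra k H] [IsNoetherianRing H]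
    [IsNoetherianRing Hᵐᵒᵖ] {Δ : H →ₗ[k] H ⊗[k] H} {ε : H →ₗ[k] k} {S : H →ₗ[k] H}
    (W : WeakHopfOn Δ ε S (1 : H)) {R : Type*} [CommRing R] [Algebra k R]
    [Algebra.FiniteType k R] (ι : R →ₐ[k] H)
    (hR : ∃ (N : ℕ) (a : Fin N → H), (∀ h, ∃ r : Fin N → R, h = ∑ i, a i * ι (r i)) ∨
      (∀ h, ∃ r : Fin N → R, h = ∑ i, ι (r i) * a i)) :
    ∃ (D : Finset ℕ) (e : ℕ → H),
      (∀ d ∈ D, e d ≠ 0 ∧ WeakHopfOn Δ ε S (e d)) ∧
      (∀ d ∈ D, ∀ d' ∈ D, d ≠ d' → e d * e d' = 0) ∧ ∑ d ∈ D, e d = 1 ∧
      ∀ d ∈ D, ∀ L : Submodule k H, L ≠ ⊥ → (∀ h, ∀ x ∈ L, h * x ∈ L) →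
        (∀ x ∈ L, e d * x = x) → gkdim (e d) L = ((d : ℝ) : EReal) := by
  classical
  obtain ⟨N, a, ha⟩ := hR
  have hnat : ∀ e : H, e ≠ 0 → (∀ x, e * x = x * e) →
      ∃ m : ℕ, Gr k (m : ℝ) e ∧ ∀ s : ℝ, s < m → ¬ Gr k s e := by
    intro e he0 hec
    rcases ha with ha | ha
    · exact exists_nat_growth ι a ha he0 hec
    · exact exists_nat_growth' ι a ha he0 hec
  have hfin : gkdim (1 : H) (⊤ : Submodule k H) ≠ ⊤ := by
    by_cases h1 : (1 : H) = 0
    · have h2 : gkdim (1 : H) (⊤ : Submodule k H) ≤ ((0 : ℝ) : EReal) :=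
        gkdim_le le_rfl fun x _ => by
          rw [← one_mul x, h1, zero_mul]; exact Gr.zero 0
      exact ne_top_of_le_ne_top (EReal.coe_ne_top 0) h2
    · obtain ⟨m, hm, _⟩ := hnat 1 h1 fun x => by rw [one_mul, mul_one]
      have h2 : gkdim (1 : H) (⊤ : Submodule k H) ≤ ((m : ℝ) : EReal) :=
        gkdim_le (Nat.cast_nonneg m) fun x _ => by
          rw [← one_mul x]; exact hm.mul_right x
      exact ne_top_of_le_ne_top (EReal.coe_ne_top _) h2
  obtain ⟨D, e, -, hD2, hD3, hD4, hD5⟩ := main W hfin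
  -- the dimensions are natural numbers
  have hint : ∀ d ∈ D, ∃ m : ℕ, (m : ℝ) = d := by
    intro d hd
    have hW := (hD2 d hd).2
    obtain ⟨m, hm, hlow⟩ := hnat (e d) (hD2 d hd).1 hW.central
    refine ⟨m, ?_⟩
    let L : Submodule k H := LinearMap.range (LinearMap.mulLeft k (e d))
    have hLe : ∀ x ∈ L, e d * x = x := by
      rintro _ ⟨y, rfl⟩
      rw [LinearMap.mulLeft_apply, ← mul_assoc, hW.idem]
    have hL0 : e d ∈ L := ⟨e d, hW.idem⟩
    have h1 := hD5 d hd L (fun h => (hD2 d hd).1 (by rw [h] at hL0; exact hL0)) (by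
      rintro h _ ⟨y, rfl⟩
      refine ⟨h * y, ?_⟩
      rw [LinearMap.mulLeft_apply, LinearMap.mulLeft_apply, ← mul_assoc, hW.central, mul_assoc])
      hLe
    have h2 : gkdim (e d) L = ((m : ℝ) : EReal) := by
      apply le_antisymm
      · refine gkdim_le (Nat.cast_nonneg m) fun x hx => ?_
        rw [← hLe x hx]; exact hm.mul_right x
      · exact le_gkdim hW.idem hW.central hL0 hW.idem hlow
    rw [h1] at h2
    exact_mod_cast h2.symm
  choose! f hf using hint
  have hinj : Set.InjOn f D := by
    intro d hd d' hd' h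
    rw [← hf d hd, ← hf d' hd', h]
  have hmem : ∀ n ∈ D.image f, (n : ℝ) ∈ D ∧ f (n : ℝ) = n := by
    intro n hn
    obtain ⟨d, hd, rfl⟩ := Finset.mem_image.mp hn
    rw [hf d hd]
    exact ⟨hd, rfl⟩
  refine ⟨D.image f, fun n => e n, fun n hn => hD2 _ (hmem n hn).1, ?_, ?_, ?_⟩
  · intro n hn n' hn' hne
    exact hD3 _ (hmem n hn).1 _ (hmem n' hn').1 fun h => hne (by exact_mod_cast h)
  · rw [Finset.sum_image hinj, ← hD4]
    exact Finset.sum_congr rfl fun d hd => by rw [hf d hd]
  · intro n hn L hL hL1 hL2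
    exact hD5 _ (hmem n hn).1 L hL hL1 hL2

end Pool.Agent.Helper59.WH
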