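import Pool.Agent.Helper59.WH.Core

set_option autoImplicit false

/-!
# The ideals `T_r` of elements of growth at most `r`
-/

namespace Pool.Agent.Helper59.WH

open TensorProduct Filter

variable {k H : Type*} [Field k] [Ring H] [Algebra k H]

theorem ev_bound {s' s : ℝ} (h : s' < s) (c : ℝ) (a : ℕ) :
    ∀ᶠ n : ℕ in atTop, c * ((n + a : ℕ) : ℝ) ^ s' ≤ (n : ℝ) ^ s := by
  have h1 : Tendsto (fun n : ℕ => (n : ℝ) ^ (s - s')) atTop atTop :=
    (tendsto_rpow_atTop (sub_pos.mpr h)).comp tendsto_natCast_atTop_atTop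
  filter_upwards [h1.eventually_ge_atTop (|c| * ((1 + a : ℝ) ^ |s'|)), eventually_ge_atTop 1]
    with n hn hn1
  have hn0 : (0 : ℝ) < n := by exact_mod_cast hn1
  have hna : (0 : ℝ) < ((n + a : ℕ) : ℝ) := by positivity
  have h2 : ((n + a : ℕ) : ℝ) ^ s' ≤ (1 + a : ℝ) ^ |s'| * (n : ℝ) ^ s' := by
    rcases le_or_gt 0 s' with hs | hs
    · rw [abs_of_nonneg hs, ← Real.mul_rpow (by positivity) hn0.le]
      apply Real.rpow_le_rpow hna.le _ hs
      push_cast
      have h3 : (1 : ℝ) ≤ n := by exact_mod_cast hn1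
      have h4 : (0 : ℝ) ≤ a := Nat.cast_nonneg a
      nlinarith
    · have h3 : ((n + a : ℕ) : ℝ) ^ s' ≤ (n : ℝ) ^ s' := by
        apply Real.rpow_le_rpow_of_nonpos hn0 _ hs.le
        push_cast
        have h4 : (0 : ℝ) ≤ a := Nat.cast_nonneg a
        linarith
      refine h3.trans ?_
      have h5 : (1 : ℝ) ≤ (1 + a : ℝ) ^ |s'| := by
        apply Real.one_le_rpow _ (abs_nonneg _)
        have h4 : (0 : ℝ) ≤ a := Nat.cast_nonneg a
        linarith
      have h6 : 0 ≤ (n : ℝ) ^ s' := (Real.rpow_pos_of_pos hn0 _).le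
      nlinarith
  calc c * ((n + a : ℕ) : ℝ) ^ s' ≤ |c| * ((n + a : ℕ) : ℝ) ^ s' :=
        mul_le_mul_of_nonneg_right (le_abs_self c) (Real.rpow_pos_of_pos hna _).le
    _ ≤ |c| * ((1 + a : ℝ) ^ |s'| * (n : ℝ) ^ s') :=
        mul_le_mul_of_nonneg_left h2 (abs_nonneg c)
    _ = (|c| * (1 + a : ℝ) ^ |s'|) * (n : ℝ) ^ s' := by ring
    _ ≤ (n : ℝ) ^ (s - s') * (n : ℝ) ^ s' :=
        mul_le_mul_of_nonneg_right hn (Real.rpow_pos_of_pos hn0 _).le
    _ = (n : ℝ) ^ s := by rw [← Real.rpow_add hn0]; congr 1; ring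

/-- `x` has growth at most `r` -/
def Gr (k : Type*) {H : Type*} [Field k] [Ring H] [Algebra k H] (r : ℝ) (x : H) : Prop :=
  ∀ C : Submodule k H, C.FG → ∀ s, r < s → ∀ᶠ n : ℕ in atTop,
    (Module.finrank k ↥(C ^ n * Submodule.span k {x}) : ℝ) ≤ (n : ℝ) ^ s

theorem finrank_le_of_le {A B : Submodule k H} (hB : B.FG) (h : A ≤ B) :
    Module.finrank k A ≤ Module.finrank k B := by
  have : Module.Finite k B := Module.Finite.iff_fg.mpr hB
  exact Submodule.finrank_mono h

theorem fg_pow_mul {C : Submodule k H} (hC : C.FG) (n : ℕ) (x : H) :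
    (C ^ n * Submodule.span k {x}).FG :=
  (hC.pow n).mul (Submodule.fg_span_singleton x)

theorem Gr.zero (r : ℝ) : Gr k r (0 : H) := by
  intro C _ s _
  filter_upwards with n
  have h : C ^ n * Submodule.span k {(0 : H)} = ⊥ := by simp
  rw [h, finrank_bot, Nat.cast_zero]
  positivity

theorem Gr.add {r : ℝ} {x y : H} (hx : Gr k r x) (hy : Gr k r y) : Gr k r (x + y) := by
  intro C hC s hs
  obtain ⟨s', h1, h2⟩ := exists_between hs
  filter_upwards [hx C hC s' h1, hy C hC s' h1, ev_bound h2 2 0] with n hnx hny hn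
  have h3 : C ^ n * Submodule.span k {x + y} ≤
      C ^ n * Submodule.span k {x} ⊔ C ^ n * Submodule.span k {y} := by
    rw [← Submodule.mul_sup]
    refine mul_le_mul' le_rfl ?_
    rw [Submodule.span_singleton_le_iff_mem]
    exact Submodule.add_mem_sup (Submodule.mem_span_singleton_self x)
      (Submodule.mem_span_singleton_self y)
  have h4 := finrank_le_of_le ((fg_pow_mul hC n x).sup (fg_pow_mul hC n y)) h3
  have h5 : Module.finrank k ↥(C ^ n * Submodule.span k {x} ⊔ C ^ n * Submodule.span k {y}) ≤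
      Module.finrank k ↥(C ^ n * Submodule.span k {x}) +
      Module.finrank k ↥(C ^ n * Submodule.span k {y}) := by
    have : Module.Finite k ↥(C ^ n * Submodule.span k {x}) :=
      Module.Finite.iff_fg.mpr (fg_pow_mul hC n x)
    have : Module.Finite k ↥(C ^ n * Submodule.span k {y}) :=
      Module.Finite.iff_fg.mpr (fg_pow_mul hC n y)
    exact Submodule.finrank_add_le_finrank_add_finrank _ _
  have h6 : (Module.finrank k ↥(C ^ n * Submodule.span k {x + y}) : ℝ) ≤
      Module.finrank k ↥(C ^ n * Submodule.span k {x}) +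
      Module.finrank k ↥(C ^ n * Submodule.span k {y}) := by
    exact_mod_cast h4.trans h5
  rw [Nat.add_zero] at hn
  linarith

theorem Gr.of_map {r : ℝ} {x y : H} (c : ℕ) (hx : Gr k r x)
    (h : ∀ C : Submodule k H, C.FG → ∃ (C' : Submodule k H) (a : ℕ), C'.FG ∧
      ∀ n, 1 ≤ n → Module.finrank k ↥(C ^ n * Submodule.span k {y}) ≤
        c * Module.finrank k ↥(C' ^ (n + a) * Submodule.span k {x})) : Gr k r y := by
  intro C hC s hs
  obtain ⟨s', h1, h2⟩ := exists_between hs
  obtain ⟨C', a, hC', hle⟩ := h C hC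
  have h3 := (tendsto_add_atTop_nat a).eventually (hx C' hC' s' h1)
  filter_upwards [h3, ev_bound h2 c a, eventually_ge_atTop 1] with n hn hn' hn1
  have h4 : (Module.finrank k ↥(C ^ n * Submodule.span k {y}) : ℝ) ≤
      c * Module.finrank k ↥(C' ^ (n + a) * Submodule.span k {x}) := by exact_mod_cast hle n hn1
  calc (Module.finrank k ↥(C ^ n * Submodule.span k {y}) : ℝ)
      ≤ c * Module.finrank k ↥(C' ^ (n + a) * Submodule.span k {x}) := h4
    _ ≤ c * ((n + a : ℕ) : ℝ) ^ s' := mul_le_mul_of_nonneg_left hn (Nat.cast_nonneg c)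
    _ ≤ _ := hn'

theorem Gr.smul {r : ℝ} {x : H} (c : k) (hx : Gr k r x) : Gr k r (c • x) := by
  refine hx.of_map 1 fun C hC => ⟨C, 0, hC, fun n _ => ?_⟩
  rw [one_mul, Nat.add_zero]
  refine finrank_le_of_le (fg_pow_mul hC n x) (mul_le_mul' le_rfl ?_)
  rw [Submodule.span_singleton_le_iff_mem]
  exact Submodule.smul_mem _ _ (Submodule.mem_span_singleton_self x)

theorem Gr.mul_left {r : ℝ} {x : H} (h : H) (hx : Gr k r x) : Gr k r (h * x) := by
  refine hx.of_map 1 fun C hC => ⟨C ⊔ Submodule.span k {h}, 1,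
    hC.sup (Submodule.fg_span_singleton h), fun n _ => ?_⟩
  rw [one_mul]
  refine finrank_le_of_le (fg_pow_mul (hC.sup (Submodule.fg_span_singleton h)) _ x) ?_
  rw [pow_succ, mul_assoc]
  refine mul_le_mul' (pow_le_pow_left' le_sup_left n) ?_
  rw [Submodule.span_singleton_le_iff_mem]
  exact Submodule.mul_mem_mul (Submodule.mem_sup_right (Submodule.mem_span_singleton_self h))
    (Submodule.mem_span_singleton_self x)

theorem Gr.mul_right {r : ℝ} {x : H} (h : H) (hx : Gr k r x) : Gr k r (x * h) := by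
  refine hx.of_map 1 fun C hC => ⟨C, 0, hC, fun n _ => ?_⟩
  rw [one_mul, Nat.add_zero]
  have h1 : C ^ n * Submodule.span k {x * h} =
      (C ^ n * Submodule.span k {x}).map (LinearMap.mulRight k h) := by
    ext z
    rw [Submodule.mem_mul_span_singleton, Submodule.mem_map]
    constructor
    · rintro ⟨c, hc, rfl⟩
      exact ⟨c * x, Submodule.mul_mem_mul hc (Submodule.mem_span_singleton_self x),
        by rw [LinearMap.mulRight_apply, mul_assoc]⟩
    · rintro ⟨w, hw, rfl⟩
      obtain ⟨c, hc, rfl⟩ := Submodule.mem_mul_span_singleton.mp hw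
      exact ⟨c, hc, by rw [LinearMap.mulRight_apply, mul_assoc]⟩
  rw [h1]
  have : Module.Finite k ↥(C ^ n * Submodule.span k {x}) :=
    Module.Finite.iff_fg.mpr (fg_pow_mul hC n x)
  exact Submodule.finrank_map_le _ _

theorem Gr.mono {r r' : ℝ} (h : r ≤ r') {x : H} (hx : Gr k r x) : Gr k r' x :=
  fun C hC s hs => hx C hC s (lt_of_le_of_lt h hs)

/-- right continuity -/
theorem Gr.of_forall {r : ℝ} {x : H} (h : ∀ s, r < s → Gr k s x) : Gr k r x := by
  intro C hC s hs
  obtain ⟨s', h1, h2⟩ := exists_between hs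
  exact h s' h1 C hC s h2

theorem Gr.nonneg {r : ℝ} {x : H} (hx : Gr k r x) (h0 : x ≠ 0) : 0 ≤ r := by
  by_contra hr
  push Not at hr
  have h1 := hx (Submodule.span k {1}) (Submodule.fg_span_singleton 1) (r / 2) (by linarith)
  obtain ⟨n, hn, hn2⟩ := (h1.and (eventually_ge_atTop 2)).exists
  have h2 : (Submodule.span k {(1 : H)}) ^ n * Submodule.span k {x} = Submodule.span k {x} := by
    rw [← Submodule.one_eq_span, one_pow, one_mul]
  rw [h2, finrank_span_singleton h0] at hn
  have h3 : (n : ℝ) ^ (r / 2) < 1 := by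
    apply Real.rpow_lt_one_of_one_lt_of_neg _ (by linarith)
    have : (2 : ℝ) ≤ n := by exact_mod_cast hn2
    linarith
  push_cast at hn
  linarith

/-- the ideal of the elements of growth at most `r` -/
def Tm (k H : Type*) [Field k] [Ring H] [Algebra k H] (r : ℝ) : Submodule k H where
  carrier := {x | Gr k r x}
  add_mem' := fun hx hy => hx.add hy
  zero_mem' := Gr.zero r
  smul_mem' := fun c _ hx => hx.smul c

theorem mem_Tm {r : ℝ} {x : H} : x ∈ Tm k H r ↔ Gr k r x := Iff.rfl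

/-! ### finite-dimensional left coideals stable under `R_t` -/

section

variable {Δ : H →ₗ[k] H ⊗[k] H} {ε : H →ₗ[k] k} {S : H →ₗ[k] H}

theorem LC.mul {C C' : Submodule k H} (hΔ : ∀ x y, Δ (x * y) = Δ x * Δ y) (hC : LC Δ C)
    (hC' : LC Δ C') : LC Δ (C * C') := by
  intro c hc g
  induction hc using Submodule.mul_induction_on' with
  | mem_mul_mem a ha b hb =>
    obtain ⟨n, α, β, hβ, h1⟩ := exists_repr_right C (Δ a) (hC a ha)
    obtain ⟨m, α', β', hβ', h2⟩ := exists_repr_right C' (Δ b) (hC' b hb)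
    rw [hΔ, h1, h2, Finset.sum_mul_sum, map_sum]
    refine Submodule.sum_mem _ fun i _ => ?_
    rw [map_sum]
    refine Submodule.sum_mem _ fun j _ => ?_
    rw [Algebra.TensorProduct.tmul_mul_tmul, sr_tmul]
    exact Submodule.smul_mem _ _ (Submodule.mul_mem_mul (hβ i) (hβ' j))
  | add a _ b _ ha hb =>
    rw [map_add, map_add]
    exact Submodule.add_mem _ ha hb

variable (W : WeakHopfOn Δ ε S (1 : H))

include W

theorem one_mem_Rt : (1 : H) ∈ Rt Δ := by
  have := sr_mem_Rt (Δ := Δ) ε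
  rwa [W.cl] at this

theorem one_mem_Rs : (1 : H) ∈ Rs Δ := by
  have := sl_mem_Rs (Δ := Δ) ε
  rwa [W.cr] at this

theorem Rt_mul {t t' : H} (ht : t ∈ Rt Δ) (ht' : t' ∈ Rt Δ) : t * t' ∈ Rt Δ := by
  have h : Δ (t * t') = ((t * t') ⊗ₜ[k] 1) * Δ 1 := by
    rw [W.mul', Rt_left W ht, mul_assoc, W.one_mul', Rt_left W ht', ← mul_assoc,
      Algebra.TensorProduct.tmul_mul_tmul, one_mul]
  rw [← W.cl (t * t'), h, sr_one_mul]
  exact sr_mem_Rt _

theorem Rs_mul {t t' : H} (ht : t ∈ Rs Δ) (ht' : t' ∈ Rs Δ) : t * t' ∈ Rs Δ := by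
  have h : Δ (t * t') = (1 ⊗ₜ[k] (t * t')) * Δ 1 := by
    rw [W.mul', Rs_left W ht, mul_assoc, W.one_mul', Rs_left W ht', ← mul_assoc,
      Algebra.TensorProduct.tmul_mul_tmul, one_mul]
  rw [← W.cr (t * t'), h, sl_one_mul]
  exact sl_mem_Rs _

theorem sr_sr (g g' : H →ₗ[k] k) (c : H) : ∃ h : H →ₗ[k] k,
    sr g' (Δ (sr g (Δ c))) = sr h (Δ c) := by
  refine ⟨LinearMap.mul' k k ∘ₗ TensorProduct.map g g' ∘ₗ Δ, ?_⟩
  have h1 : ∀ v : H ⊗[k] H, th g (TensorProduct.map LinearMap.id Δ v) = Δ (sr g v) := by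
    intro v
    induction v with
    | zero => simp
    | tmul x y => simp
    | add x y hx hy => rw [map_add, map_add, hx, hy, map_add, map_add]
  rw [← h1, ← W.ca]
  have h2 : ∀ v : H ⊗[k] H, sr g' (th g (TensorProduct.assoc k H H H
      (TensorProduct.map Δ LinearMap.id v))) =
      sr (LinearMap.mul' k k ∘ₗ TensorProduct.map g g' ∘ₗ Δ) v := by
    intro v
    induction v with
    | zero => simp
    | tmul x y =>
      rw [TensorProduct.map_tmul, sr_tmul]
      have : ∀ w : H ⊗[k] H, sr g' (th g (TensorProduct.assoc k H H H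
          (w ⊗ₜ[k] (LinearMap.id : H →ₗ[k] H) y))) =
          LinearMap.mul' k k (TensorProduct.map g g' w) • y := by
        intro w
        induction w with
        | zero => simp
        | tmul a b => simp [mul_smul]
        | add a b ha hb => simp only [add_tmul, map_add, ha, hb, add_smul]
      exact this _
    | add x y hx hy => simp only [map_add, hx, hy]
  exact h2 _

theorem exists_LC {C : Submodule k H} (hC : C.FG) : ∃ D : Submodule k H, D.FG ∧ C ≤ D ∧
    LC Δ D ∧ ∀ t ∈ Rt Δ, ∀ d ∈ D, t * d ∈ D := by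
  classical
  let C₁ : Submodule k H := Submodule.span k {z | ∃ c ∈ C, ∃ g, z = sr g (Δ c)}
  have hCC₁ : C ≤ C₁ := fun c hc => Submodule.subset_span ⟨c, hc, ε, (W.cl c).symm⟩
  have hC₁ : C₁.FG := by
    obtain ⟨s, rfl⟩ := hC
    choose V hV hVs using fun c : H => fg_legs' (Δ c)
    have h1 : ∀ t : Finset H, (t.sup V).FG := by
      intro t
      induction t using Finset.induction_on with
      | empty => rw [Finset.sup_empty]; exact Submodule.fg_bot
      | insert a t _ ih => rw [Finset.sup_insert]; exact (hV a).sup ih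
    refine fg_of_le (h1 s) (Submodule.span_le.mpr ?_)
    rintro _ ⟨c, hc, g, rfl⟩
    rw [SetLike.mem_coe]
    induction hc using Submodule.span_induction with
    | mem c hc => exact (Finset.le_sup (f := V) hc) (hVs c g)
    | zero => rw [map_zero, map_zero]; exact Submodule.zero_mem _
    | add a b _ _ ha hb => rw [map_add, map_add]; exact Submodule.add_mem _ ha hb
    | smul c a _ ha => rw [map_smul, map_smul]; exact Submodule.smul_mem _ _ ha
  have hLC₁ : LC Δ C₁ := by
    intro z hz g'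
    induction hz using Submodule.span_induction with
    | mem z hz =>
      obtain ⟨c, hc, g, rfl⟩ := hz
      obtain ⟨h, hh⟩ := sr_sr W g g' c
      rw [hh]
      exact Submodule.subset_span ⟨c, hc, h, rfl⟩
    | zero => rw [map_zero, map_zero]; exact Submodule.zero_mem _
    | add a b _ _ ha hb => rw [map_add, map_add]; exact Submodule.add_mem _ ha hb
    | smul c a _ ha => rw [map_smul, map_smul]; exact Submodule.smul_mem _ _ ha
  have hle : C₁ ≤ Rt Δ * C₁ := by
    intro c hc
    rw [← one_mul c]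
    exact Submodule.mul_mem_mul (one_mem_Rt W) hc
  refine ⟨Rt Δ * C₁, (fg_Rt Δ).mul hC₁, hCC₁.trans hle, ?_, ?_⟩
  · intro c hc g
    induction hc using Submodule.mul_induction_on' with
    | mem_mul_mem t ht b hb =>
      rw [W.mul', Rt_left W ht, mul_assoc, W.one_mul', sr_one_mul]
      exact hle (hLC₁ b hb _)
    | add a _ b _ ha hb => rw [map_add, map_add]; exact Submodule.add_mem _ ha hb
  · intro t ht d hd
    induction hd using Submodule.mul_induction_on' with
    | mem_mul_mem t' ht' b hb =>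
      rw [← mul_assoc]
      exact Submodule.mul_mem_mul (Rt_mul W ht ht') hb
    | add a _ b _ ha hb => rw [mul_add]; exact Submodule.add_mem _ ha hb

theorem LC.pow {D : Submodule k H} (hD : LC Δ D) : ∀ n, 1 ≤ n → LC Δ (D ^ n)
  | 0, h => by omega
  | 1, _ => by rwa [pow_one]
  | n + 2, _ => by
    rw [pow_succ]
    exact LC.mul W.mul' (LC.pow hD (n + 1) (by omega)) hD

omit W in
theorem Rt_pow {D : Submodule k H} (hD : ∀ t ∈ Rt Δ, ∀ d ∈ D, t * d ∈ D) (n : ℕ)
    (hn : 1 ≤ n) : ∀ t ∈ Rt Δ, ∀ d ∈ D ^ n, t * d ∈ D ^ n := by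
  obtain ⟨m, rfl⟩ := Nat.exists_eq_add_of_le' hn
  intro t ht d hd
  rw [pow_succ'] at hd ⊢
  induction hd using Submodule.mul_induction_on' with
  | mem_mul_mem a ha b hb =>
    rw [← mul_assoc]
    exact Submodule.mul_mem_mul (hD t ht a ha) hb
  | add a _ b _ ha hb => rw [mul_add]; exact Submodule.add_mem _ ha hb

/-- `T_r` is a left coideal -/
theorem Gr.slice (hgood : Good (⊥ : Ideal H)) {r : ℝ} {x : H} (hx : Gr k r x) (g : H →ₗ[k] k) :
    Gr k r (sr g (Δ x)) := by
  obtain ⟨K, hK⟩ := estimate W hgood x g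
  refine hx.of_map K fun C hC => ?_
  obtain ⟨D, hD, hCD, hLC, hRt⟩ := exists_LC W hC
  refine ⟨D, 0, hD, fun n hn => ?_⟩
  rw [Nat.add_zero]
  refine (finrank_le_of_le (fg_pow_mul hD n _) (mul_le_mul'
    (pow_le_pow_left' hCD n) le_rfl)).trans ?_
  exact hK (D ^ n) (hD.pow n) (hLC.pow W n hn) (Rt_pow hRt n hn)

end

end Pool.Agent.Helper59.WH
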