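import Pool.Agent.Helper59.WH.Alg

set_option autoImplicit false

/-!
# The identities used in the growth estimate
-/

namespace Pool.Agent.Helper59.WH

open TensorProduct

variable {k H : Type*} [Field k] [Ring H] [Algebra k H]
  {Δ : H →ₗ[k] H ⊗[k] H} {ε : H →ₗ[k] k} {S : H →ₗ[k] H}
  (W : WeakHopfOn Δ ε S (1 : H))

include W

/-- `∑ ε(a y₁) y₂ = (∑ ε(a f_j) f'_j) y` -/
theorem L0 (a y : H) : sr ε ((a ⊗ₜ[k] 1) * Δ y) = sr ε ((a ⊗ₜ[k] 1) * Δ 1) * y := by
  obtain ⟨n, f, f', hf', h1⟩ := exists_Rt_repr Δ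
  have h2 : ∀ j, f' j * y = sr ε ((f' j ⊗ₜ[k] 1) * Δ y) := by
    intro j
    rw [← W.cl (f' j * y), W.mul', Rt_left W (hf' j), mul_assoc, W.one_mul']
  have h3 : sr ε ((a ⊗ₜ[k] 1) * Δ 1) * y = ∑ j, ε (a * f j) • sr ε ((f' j ⊗ₜ[k] 1) * Δ y) := by
    rw [h1, Finset.mul_sum, map_sum, Finset.sum_mul]
    refine Finset.sum_congr rfl fun j _ => ?_
    rw [Algebra.TensorProduct.tmul_mul_tmul, sr_tmul, one_mul, smul_mul_assoc, h2]
  rw [h3]
  have h4 : ∀ u : H ⊗[k] H, sr ε ((a ⊗ₜ[k] 1) * u) =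
      ∑ j, ε (a * f j) • sr ε ((f' j ⊗ₜ[k] 1) * u) := by
    intro u
    induction u with
    | zero => simp
    | tmul b c =>
      simp only [Algebra.TensorProduct.tmul_mul_tmul, sr_tmul, one_mul]
      rw [counit_one W a b, h1, Finset.sum_mul, map_sum, Finset.mul_sum, map_sum, Finset.sum_smul]
      refine Finset.sum_congr rfl fun j _ => ?_
      rw [Algebra.TensorProduct.tmul_mul_tmul, sl_tmul, mul_one, mul_smul_comm, map_smul,
        smul_smul, smul_eq_mul, mul_comm]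
    | add u v hu hv =>
      simp only [mul_add, map_add, hu, hv, smul_add, Finset.sum_add_distrib]
  exact h4 _

/-- `∑ ε(b₁ a) b₂ = b ε_t(a)` -/
theorem L0' (a b : H) : sr ε (Δ b * (a ⊗ₜ[k] 1)) = b * et Δ S a := by
  obtain ⟨n, f, f', hf', h1⟩ := exists_Rt_repr Δ
  have h2 : ∀ j, b * f' j = sr ε (Δ b * (f' j ⊗ₜ[k] 1)) := by
    intro j
    rw [← W.cl (b * f' j), W.mul', Rt_right W (hf' j), ← mul_assoc, W.mul_one']
  have h3 : b * et Δ S a = ∑ j, ε (f j * a) • sr ε (Δ b * (f' j ⊗ₜ[k] 1)) := by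
    rw [et_eq W, h1, Finset.sum_mul, map_sum, Finset.mul_sum]
    refine Finset.sum_congr rfl fun j _ => ?_
    rw [Algebra.TensorProduct.tmul_mul_tmul, sr_tmul, mul_one, mul_smul_comm, h2]
  rw [h3]
  have h4 : ∀ u : H ⊗[k] H, sr ε (u * (a ⊗ₜ[k] 1)) =
      ∑ j, ε (f j * a) • sr ε (u * (f' j ⊗ₜ[k] 1)) := by
    intro u
    induction u with
    | zero => simp
    | tmul b c =>
      simp only [Algebra.TensorProduct.tmul_mul_tmul, sr_tmul, mul_one]
      rw [counit_one' W b a, h1, Finset.sum_mul, map_sum, Finset.mul_sum, map_sum, Finset.sum_smul]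
      refine Finset.sum_congr rfl fun j _ => ?_
      rw [Algebra.TensorProduct.tmul_mul_tmul, sr_tmul, mul_one, mul_smul_comm, map_smul,
        smul_smul, smul_eq_mul]
    | add u v hu hv =>
      simp only [add_mul, map_add, hu, hv, smul_add, Finset.sum_add_distrib]
  exact h4 _

/-- `∑ x₁ ε(x₂ a) = x ∑ f_j ε(f'_j a)` -/
theorem L1' (a x : H) : sl ε (Δ x * (1 ⊗ₜ[k] a)) = x * sl ε (Δ 1 * (1 ⊗ₜ[k] a)) := by
  obtain ⟨n, f, f', hf, h1⟩ := exists_Rs_repr Δ
  have h2 : ∀ j, x * f j = sl ε (Δ x * (1 ⊗ₜ[k] f j)) := by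
    intro j
    rw [← W.cr (x * f j), W.mul', Rs_right W (hf j), ← mul_assoc, W.mul_one']
  have h3 : x * sl ε (Δ 1 * (1 ⊗ₜ[k] a)) = ∑ j, ε (f' j * a) • sl ε (Δ x * (1 ⊗ₜ[k] f j)) := by
    rw [h1, Finset.sum_mul, map_sum, Finset.mul_sum]
    refine Finset.sum_congr rfl fun j _ => ?_
    rw [Algebra.TensorProduct.tmul_mul_tmul, sl_tmul, mul_one, mul_smul_comm, h2]
  rw [h3]
  have h4 : ∀ u : H ⊗[k] H, sl ε (u * (1 ⊗ₜ[k] a)) =
      ∑ j, ε (f' j * a) • sl ε (u * (1 ⊗ₜ[k] f j)) := by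
    intro u
    induction u with
    | zero => simp
    | tmul b c =>
      simp only [Algebra.TensorProduct.tmul_mul_tmul, sl_tmul, mul_one]
      rw [counit_one W c a, h1, Finset.sum_mul, map_sum, Finset.mul_sum, map_sum, Finset.sum_smul]
      refine Finset.sum_congr rfl fun j _ => ?_
      rw [Algebra.TensorProduct.tmul_mul_tmul, sl_tmul, mul_one, mul_smul_comm, map_smul,
        smul_smul, smul_eq_mul]
    | add u v hu hv =>
      simp only [add_mul, map_add, hu, hv, smul_add, Finset.sum_add_distrib]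
  exact h4 _

/-- (F1') `ε_s(b₁) ⊗ b₂ = (1 ⊗ b) Δ(1)` -/
theorem F1 (b : H) : TensorProduct.map (es Δ S) LinearMap.id (Δ b) = (1 ⊗ₜ[k] b) * Δ 1 := by
  obtain ⟨n, f, f', hf', h1⟩ := exists_Rt_repr Δ
  have h2 : ∀ u : H ⊗[k] H, TensorProduct.map (es Δ S) LinearMap.id u =
      ∑ j, f j ⊗ₜ[k] sr ε (u * (f' j ⊗ₜ[k] 1)) := by
    intro u
    induction u with
    | zero => simp
    | tmul a c =>
      rw [TensorProduct.map_tmul, es_eq W, h1, Finset.mul_sum, map_sum, TensorProduct.sum_tmul]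
      refine Finset.sum_congr rfl fun j _ => ?_
      simp only [Algebra.TensorProduct.tmul_mul_tmul, sr_tmul, sl_tmul, mul_one, one_mul,
        LinearMap.id_apply]
      rw [← TensorProduct.smul_tmul', TensorProduct.tmul_smul]
    | add u v hu hv =>
      simp only [map_add, hu, hv, add_mul, tmul_add, Finset.sum_add_distrib]
  rw [h2, h1, Finset.mul_sum]
  refine Finset.sum_congr rfl fun j _ => ?_
  rw [L0' W, et_of_mem W (hf' j), Algebra.TensorProduct.tmul_mul_tmul, one_mul]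

/-- `ε_t(y₁) ⊗ y₂ ∈ H ⊗ R_t y` -/
theorem F2 (y : H) (Y : Submodule k H) (hY : ∀ t ∈ Rt Δ, t * y ∈ Y) (g : H →ₗ[k] k) :
    sr g (TensorProduct.map (et Δ S) LinearMap.id (Δ y)) ∈ Y := by
  obtain ⟨n, f, f', hf', h1⟩ := exists_Rt_repr Δ
  have h2 : ∀ u : H ⊗[k] H, TensorProduct.map (et Δ S) LinearMap.id u =
      ∑ j, f' j ⊗ₜ[k] sr ε ((f j ⊗ₜ[k] 1) * u) := by
    intro u
    induction u with
    | zero => simp
    | tmul a c =>
      rw [TensorProduct.map_tmul, et_eq W, h1, Finset.sum_mul, map_sum, TensorProduct.sum_tmul]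
      refine Finset.sum_congr rfl fun j _ => ?_
      simp only [Algebra.TensorProduct.tmul_mul_tmul, sr_tmul, mul_one, one_mul,
        LinearMap.id_apply]
      rw [← TensorProduct.smul_tmul', TensorProduct.tmul_smul]
    | add u v hu hv =>
      simp only [map_add, hu, hv, mul_add, tmul_add, Finset.sum_add_distrib]
  rw [h2, map_sum]
  refine Submodule.sum_mem _ fun j _ => ?_
  rw [sr_tmul]
  refine Submodule.smul_mem _ _ ?_
  rw [L0 W, sr_one_mul]
  exact hY _ (sr_mem_Rt _)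

/-- (F5) `x₁ ⊗ ε_s(x₂) = (x ⊗ 1) (id ⊗ ε_s)(Δ(1))` -/
theorem F5 (x : H) : TensorProduct.map LinearMap.id (es Δ S) (Δ x) =
    (x ⊗ₜ[k] 1) * TensorProduct.map LinearMap.id (es Δ S) (Δ 1) := by
  obtain ⟨n, f, f', h1⟩ := exists_repr (Δ 1)
  have h2 : ∀ u : H ⊗[k] H, TensorProduct.map LinearMap.id (es Δ S) u =
      ∑ j, sl ε (u * (1 ⊗ₜ[k] f' j)) ⊗ₜ[k] f j := by
    intro u
    induction u with
    | zero => simp
    | tmul a c =>
      rw [TensorProduct.map_tmul, es_eq W, h1, Finset.mul_sum, map_sum, TensorProduct.tmul_sum]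
      refine Finset.sum_congr rfl fun j _ => ?_
      simp only [Algebra.TensorProduct.tmul_mul_tmul, sl_tmul, mul_one, one_mul,
        LinearMap.id_apply]
      rw [TensorProduct.tmul_smul, TensorProduct.smul_tmul']
    | add u v hu hv =>
      simp only [map_add, hu, hv, add_mul, add_tmul, Finset.sum_add_distrib]
  rw [h2, h2, Finset.mul_sum]
  refine Finset.sum_congr rfl fun j _ => ?_
  rw [L1' W, Algebra.TensorProduct.tmul_mul_tmul, one_mul]

omit W

/-- `β(a ⊗ b) = (a ⊗ 1) Δ(b)` -/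
noncomputable def be (Δ : H →ₗ[k] H ⊗[k] H) : H ⊗[k] H →ₗ[k] H ⊗[k] H :=
  TensorProduct.lift ((LinearMap.mul k (H ⊗[k] H)).compl₁₂
    ((TensorProduct.mk k H H).flip 1) Δ)

@[simp] theorem be_tmul (a b : H) : be Δ (a ⊗ₜ[k] b) = (a ⊗ₜ[k] 1) * Δ b := by
  simp [be]

/-- `γ(a ⊗ b) = a S(b₁) ⊗ b₂` -/
noncomputable def ga (Δ : H →ₗ[k] H ⊗[k] H) (S : H →ₗ[k] H) : H ⊗[k] H →ₗ[k] H ⊗[k] H :=
  TensorProduct.lift ((LinearMap.mul k (H ⊗[k] H)).compl₁₂
    ((TensorProduct.mk k H H).flip 1) (TensorProduct.map S LinearMap.id ∘ₗ Δ))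

@[simp] theorem ga_tmul (a b : H) :
    ga Δ S (a ⊗ₜ[k] b) = (a ⊗ₜ[k] 1) * TensorProduct.map S LinearMap.id (Δ b) := by
  simp [ga]

theorem be_left (c : H) (u : H ⊗[k] H) : be Δ ((c ⊗ₜ[k] 1) * u) = (c ⊗ₜ[k] 1) * be Δ u := by
  induction u with
  | zero => simp
  | tmul a b =>
    rw [Algebra.TensorProduct.tmul_mul_tmul, one_mul, be_tmul, be_tmul, ← mul_assoc,
      Algebra.TensorProduct.tmul_mul_tmul, one_mul]
  | add u v hu hv => rw [mul_add, map_add, hu, hv, map_add, mul_add]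

theorem ga_left (c : H) (u : H ⊗[k] H) :
    ga Δ S ((c ⊗ₜ[k] 1) * u) = (c ⊗ₜ[k] 1) * ga Δ S u := by
  induction u with
  | zero => simp
  | tmul a b =>
    rw [Algebra.TensorProduct.tmul_mul_tmul, one_mul, ga_tmul, ga_tmul, ← mul_assoc,
      Algebra.TensorProduct.tmul_mul_tmul, one_mul]
  | add u v hu hv => rw [mul_add, map_add, hu, hv, map_add, mul_add]

/-- `(x ⊗ (y ⊗ z)) ↦ x y ⊗ z` -/
noncomputable def mu3 (k H : Type*) [Field k] [Ring H] [Algebra k H] :
    H ⊗[k] (H ⊗[k] H) →ₗ[k] H ⊗[k] H :=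
  TensorProduct.map (LinearMap.mul' k H) LinearMap.id ∘ₗ
    (TensorProduct.assoc k H H H).symm.toLinearMap

@[simp] theorem mu3_tmul (a b c : H) : mu3 k H (a ⊗ₜ[k] (b ⊗ₜ[k] c)) = (a * b) ⊗ₜ[k] c := by
  simp [mu3]

theorem mu3_tmul' (a : H) (u : H ⊗[k] H) : mu3 k H (a ⊗ₜ[k] u) = (a ⊗ₜ[k] 1) * u := by
  induction u with
  | zero => simp
  | tmul b c => simp
  | add u v hu hv => rw [tmul_add, map_add, hu, hv, mul_add]

include W

/-- `∑ (S(w₁) ⊗ 1) Δ(w₂) = (1 ⊗ w) Δ(1)` -/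
theorem be_S (w : H) : be Δ (TensorProduct.map S LinearMap.id (Δ w)) = (1 ⊗ₜ[k] w) * Δ 1 := by
  rw [← F1 W w]
  have h1 : ∀ u : H ⊗[k] H, be Δ (TensorProduct.map S LinearMap.id u) =
      mu3 k H (TensorProduct.map S LinearMap.id (TensorProduct.map LinearMap.id Δ u)) := by
    intro u
    induction u with
    | zero => simp
    | tmul a b =>
      rw [TensorProduct.map_tmul, be_tmul, TensorProduct.map_tmul, TensorProduct.map_tmul, mu3_tmul']
      rfl
    | add u v hu hv => simp only [map_add, hu, hv]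
  have h2 : ∀ u : H ⊗[k] H, mu3 k H (TensorProduct.map S LinearMap.id
      (TensorProduct.assoc k H H H (TensorProduct.map Δ LinearMap.id u))) =
      TensorProduct.map (es Δ S) LinearMap.id u := by
    intro u
    induction u with
    | zero => simp
    | tmul a b =>
      rw [TensorProduct.map_tmul, TensorProduct.map_tmul]
      have : ∀ v : H ⊗[k] H, mu3 k H (TensorProduct.map S LinearMap.id
          (TensorProduct.assoc k H H H (v ⊗ₜ[k] (LinearMap.id : H →ₗ[k] H) b))) =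
          (LinearMap.mul' k H (TensorProduct.map S LinearMap.id v)) ⊗ₜ[k]
            (LinearMap.id : H →ₗ[k] H) b := by
        intro v
        induction v with
        | zero => simp
        | tmul c d => simp
        | add c d hc hd => simp only [add_tmul, map_add, hc, hd]
      exact this _
    | add u v hu hv => simp only [map_add, hu, hv]
  rw [h1, ← W.ca, h2]

/-- `γ(Δ y) = (ε_t ⊗ id) (Δ y)` -/
theorem ga_Δ (y : H) : ga Δ S (Δ y) = TensorProduct.map (et Δ S) LinearMap.id (Δ y) := by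
  have h1 : ∀ u : H ⊗[k] H, ga Δ S u =
      mu3 k H (TensorProduct.map LinearMap.id (TensorProduct.map S LinearMap.id)
        (TensorProduct.map LinearMap.id Δ u)) := by
    intro u
    induction u with
    | zero => simp
    | tmul a b =>
      rw [ga_tmul, TensorProduct.map_tmul, TensorProduct.map_tmul, mu3_tmul']
      rfl
    | add u v hu hv => simp only [map_add, hu, hv]
  have h2 : ∀ u : H ⊗[k] H, mu3 k H (TensorProduct.map LinearMap.id (TensorProduct.map S LinearMap.id)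
      (TensorProduct.assoc k H H H (TensorProduct.map Δ LinearMap.id u))) =
      TensorProduct.map (et Δ S) LinearMap.id u := by
    intro u
    induction u with
    | zero => simp
    | tmul a b =>
      rw [TensorProduct.map_tmul, TensorProduct.map_tmul]
      have : ∀ v : H ⊗[k] H, mu3 k H (TensorProduct.map LinearMap.id
          (TensorProduct.map S LinearMap.id)
          (TensorProduct.assoc k H H H (v ⊗ₜ[k] (LinearMap.id : H →ₗ[k] H) b))) =
          (LinearMap.mul' k H (TensorProduct.map LinearMap.id S v)) ⊗ₜ[k]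
            (LinearMap.id : H →ₗ[k] H) b := by
        intro v
        induction v with
        | zero => simp
        | tmul c d => simp
        | add c d hc hd => simp only [add_tmul, map_add, hc, hd]
      exact this _
    | add u v hu hv => simp only [map_add, hu, hv]
  rw [h1, ← W.ca, h2]

/-- `β γ u = u Δ(1)` -/
theorem be_ga (u : H ⊗[k] H) : be Δ (ga Δ S u) = u * Δ 1 := by
  induction u with
  | zero => simp
  | tmul a b =>
    rw [ga_tmul, be_left, be_S W, ← mul_assoc, Algebra.TensorProduct.tmul_mul_tmul, mul_one,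
      one_mul]
  | add u v hu hv => rw [map_add, map_add, hu, hv, add_mul]

theorem be_mul_one (u : H ⊗[k] H) : be Δ u * Δ 1 = be Δ u := by
  induction u with
  | zero => simp
  | tmul a b => rw [be_tmul, mul_assoc, W.mul_one']
  | add u v hu hv => rw [map_add, add_mul, hu, hv]

/-- (I) `(1 ⊗ w) Δ(x) = ∑ (S(w₁) ⊗ 1) Δ(w₂ x)` -/
theorem keyI (w x : H) : (1 ⊗ₜ[k] w) * Δ x =
    be Δ (TensorProduct.map S (LinearMap.mulRight k x) (Δ w)) := by
  have h1 : ∀ u : H ⊗[k] H, be Δ (TensorProduct.map S (LinearMap.mulRight k x) u) =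
      be Δ (TensorProduct.map S LinearMap.id u) * Δ x := by
    intro u
    induction u with
    | zero => simp
    | tmul a b =>
      simp only [TensorProduct.map_tmul, be_tmul, LinearMap.mulRight_apply, LinearMap.id_apply]
      rw [W.mul', mul_assoc]
    | add u v hu hv => simp only [map_add, hu, hv, add_mul]
  rw [h1, be_S W, mul_assoc, W.one_mul']

end Pool.Agent.Helper59.WH
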