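import Pool.Agent.Helper59.WH.Growth

set_option autoImplicit false

/-!
# A two-sided ideal which is a left coideal is generated by a central idempotent of `H_s`
-/

namespace Pool.Agent.Helper59.WH

open TensorProduct

variable {k H : Type*} [Field k] [Ring H] [Algebra k H]
  {Δ : H →ₗ[k] H ⊗[k] H} {ε : H →ₗ[k] k} {S : H →ₗ[k] H}
  (W : WeakHopfOn Δ ε S (1 : H))

include W

/-- `x₁ ε_s(x₂) = x` -/
theorem mul_es (x : H) :
    LinearMap.mul' k H (TensorProduct.map LinearMap.id (es Δ S) (Δ x)) = x := by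
  obtain ⟨n, f, f', h1⟩ := exists_repr (Δ 1)
  have h2 : ∀ u : H ⊗[k] H, LinearMap.mul' k H (TensorProduct.map LinearMap.id (es Δ S) u) =
      sl ε (u * Δ 1) := by
    intro u
    induction u with
    | zero => simp
    | tmul a c =>
      rw [TensorProduct.map_tmul, es_eq W, h1, Finset.mul_sum, map_sum, TensorProduct.tmul_sum,
        map_sum, Finset.mul_sum, map_sum]
      refine Finset.sum_congr rfl fun j _ => ?_
      simp only [Algebra.TensorProduct.tmul_mul_tmul, sl_tmul, one_mul,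
        LinearMap.id_apply, LinearMap.mul'_apply, mul_smul_comm]
    | add u v hu hv => simp only [map_add, hu, hv, add_mul]
  rw [h2, W.mul_one', W.cr]

theorem exists_idem (T : Submodule k H) (hl : ∀ h, ∀ x ∈ T, h * x ∈ T)
    (hr : ∀ h, ∀ x ∈ T, x * h ∈ T) (hs : ∀ x ∈ T, ∀ g, sr g (Δ x) ∈ T) :
    ∃ e ∈ T, e ∈ Rs Δ ∧ (∀ h, e * h = h * e) ∧ ∀ t ∈ T, t * e = t := by
  classical
  -- `ε_s(T) ⊆ T`
  have hes : ∀ t ∈ T, es Δ S t ∈ T := by
    intro t ht
    obtain ⟨n, α, β, hβ, h1⟩ := exists_repr_right T (Δ t) (hs t ht)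
    rw [es, LinearMap.comp_apply, LinearMap.comp_apply, h1, map_sum, map_sum]
    refine Submodule.sum_mem _ fun i _ => ?_
    rw [TensorProduct.map_tmul, LinearMap.mul'_apply]
    exact hl _ _ (hβ i)
  let J : Submodule k H := T ⊓ Rs Δ
  -- projection to `J`
  obtain ⟨π₀, hπ₀⟩ := LinearMap.exists_extend (LinearMap.id : J →ₗ[k] J)
  let π : H →ₗ[k] H := J.subtype ∘ₗ π₀
  have hπJ : ∀ x, π x ∈ J := fun x => (π₀ x).2
  have hπ : ∀ z ∈ J, π z = z := by
    intro z hz
    have := LinearMap.congr_fun hπ₀ ⟨z, hz⟩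
    exact congrArg Subtype.val this
  obtain ⟨n, f, f', hf, h1⟩ := exists_Rs_repr Δ
  set p := TensorProduct.map LinearMap.id (es Δ S) (Δ 1) with hp
  have hp' : p = ∑ j, f j ⊗ₜ[k] es Δ S (f' j) := by
    rw [hp, h1, map_sum]
    exact Finset.sum_congr rfl fun j _ => by rw [TensorProduct.map_tmul]; rfl
  have hp1 : ∑ j, f j * es Δ S (f' j) = 1 := by
    have := mul_es W 1
    rw [← hp, hp', map_sum] at this
    exact this
  -- `(z ⊗ 1) p = p (1 ⊗ z)`
  have hzp : ∀ z ∈ Rs Δ, (z ⊗ₜ[k] 1) * p = p * (1 ⊗ₜ[k] z) := by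
    intro z hz
    rw [hp, ← F5 W z, Rs_right W hz, h1, Finset.sum_mul, map_sum, map_sum, Finset.sum_mul]
    refine Finset.sum_congr rfl fun j _ => ?_
    rw [Algebra.TensorProduct.tmul_mul_tmul, TensorProduct.map_tmul, TensorProduct.map_tmul,
      Algebra.TensorProduct.tmul_mul_tmul, es_mul_right W _ hz]
    rfl
  have hzp' : ∀ z ∈ Rs Δ, ∑ j, (z * f j) ⊗ₜ[k] es Δ S (f' j) =
      ∑ j, f j ⊗ₜ[k] (es Δ S (f' j) * z) := by
    intro z hz
    have h := hzp z hz
    rw [hp', Finset.mul_sum, Finset.sum_mul] at h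
    simpa only [Algebra.TensorProduct.tmul_mul_tmul, one_mul, mul_one] using h
  -- the right identity
  let e : H := ∑ j, f j * π (es Δ S (f' j))
  let e' : H := ∑ j, π (f j) * es Δ S (f' j)
  have heT : e ∈ T := Submodule.sum_mem _ fun j _ => hl _ _ (hπJ _).1
  have heR : e ∈ Rs Δ := Submodule.sum_mem _ fun j _ => Rs_mul W (hf j) (hπJ _).2
  have heT' : e' ∈ T := Submodule.sum_mem _ fun j _ => hr _ _ (hπJ _).1
  have heR' : e' ∈ Rs Δ := Submodule.sum_mem _ fun j _ => Rs_mul W (hπJ _).2 (es_mem W _)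
  have hright : ∀ z ∈ J, z * e = z := by
    intro z hz
    have h2 := congrArg (LinearMap.mul' k H ∘ₗ TensorProduct.map LinearMap.id π) (hzp' z hz.2)
    rw [map_sum, map_sum] at h2
    simp only [LinearMap.comp_apply, TensorProduct.map_tmul, LinearMap.id_apply,
      LinearMap.mul'_apply] at h2
    have h3 : ∀ j, π (es Δ S (f' j) * z) = es Δ S (f' j) * z := fun j =>
      hπ _ ⟨hl _ _ hz.1, Rs_mul W (es_mem W _) hz.2⟩
    simp only [h3] at h2
    calc z * e = ∑ j, z * f j * π (es Δ S (f' j)) := by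
          rw [Finset.mul_sum]; exact Finset.sum_congr rfl fun j _ => by rw [mul_assoc]
      _ = ∑ j, f j * (es Δ S (f' j) * z) := h2
      _ = (∑ j, f j * es Δ S (f' j)) * z := by
          rw [Finset.sum_mul]; exact Finset.sum_congr rfl fun j _ => by rw [mul_assoc]
      _ = z := by rw [hp1, one_mul]
  have hleft : ∀ z ∈ J, e' * z = z := by
    intro z hz
    have h2 := congrArg (LinearMap.mul' k H ∘ₗ TensorProduct.map π LinearMap.id) (hzp' z hz.2)
    rw [map_sum, map_sum] at h2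
    simp only [LinearMap.comp_apply, TensorProduct.map_tmul, LinearMap.id_apply,
      LinearMap.mul'_apply] at h2
    have h3 : ∀ j, π (z * f j) = z * f j := fun j =>
      hπ _ ⟨hr _ _ hz.1, Rs_mul W hz.2 (hf j)⟩
    simp only [h3] at h2
    calc e' * z = ∑ j, π (f j) * (es Δ S (f' j) * z) := by
          rw [Finset.sum_mul]; exact Finset.sum_congr rfl fun j _ => by rw [mul_assoc]
      _ = ∑ j, z * f j * es Δ S (f' j) := h2.symm
      _ = z * ∑ j, f j * es Δ S (f' j) := by
          rw [Finset.mul_sum]; exact Finset.sum_congr rfl fun j _ => by rw [mul_assoc]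
      _ = z := by rw [hp1, mul_one]
  have hee' : e = e' := by
    rw [← hleft e ⟨heT, heR⟩, hright e' ⟨heT', heR'⟩]
  have hleft' : ∀ z ∈ J, e * z = z := by rw [hee']; exact hleft
  -- `t e = t` for `t ∈ T`
  have hTe : ∀ t ∈ T, t * e = t := by
    intro t ht
    obtain ⟨m, α, β, hβ, h2⟩ := exists_repr_right T (Δ t) (hs t ht)
    have h3 := mul_es W t
    rw [h2, map_sum, map_sum] at h3
    simp only [TensorProduct.map_tmul, LinearMap.id_apply, LinearMap.mul'_apply] at h3
    calc t * e = (∑ i, α i * es Δ S (β i)) * e := by rw [h3]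
      _ = ∑ i, α i * es Δ S (β i) := by
          rw [Finset.sum_mul]
          refine Finset.sum_congr rfl fun i _ => ?_
          rw [mul_assoc, hright _ ⟨hes _ (hβ i), es_mem W _⟩]
      _ = t := h3
  -- `e` is central in `H_s`
  have hcs : ∀ w ∈ Rs Δ, e * w = w * e := by
    intro w hw
    have h2 := hleft' (w * e) ⟨hl _ _ heT, Rs_mul W hw heR⟩
    have h3 := hright (e * w) ⟨hr _ _ heT, Rs_mul W heR hw⟩
    rw [← h3, mul_assoc, h2]
  -- `e` is central in `H`
  have heh : ∀ h, e * h * e = e * h := fun h => hTe _ (hr _ _ heT)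
  have hf1 : Δ (1 - e) = (1 ⊗ₜ[k] (1 - e)) * Δ 1 :=
    Rs_left W (Submodule.sub_mem _ (one_mem_Rs W) heR)
  have hes0 : ∀ h, es Δ S ((1 - e) * h) * e = 0 := by
    intro h
    rw [← hcs _ (es_mem W _)]
    rw [es, LinearMap.comp_apply, LinearMap.comp_apply, W.mul', hf1, mul_assoc, W.one_mul']
    have h2 : ∀ u : H ⊗[k] H, e * LinearMap.mul' k H (TensorProduct.map S LinearMap.id
        ((1 ⊗ₜ[k] (1 - e)) * u)) = 0 := by
      intro u
      induction u with
      | zero => simp
      | tmul a b =>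
        rw [Algebra.TensorProduct.tmul_mul_tmul, TensorProduct.map_tmul, LinearMap.mul'_apply,
          one_mul, LinearMap.id_apply, ← mul_assoc, ← mul_assoc, mul_sub, mul_one, heh, sub_self,
          zero_mul]
      | add a b ha hb => rw [mul_add, map_add, map_add, mul_add, ha, hb, add_zero]
    exact h2 _
  have hzero : ∀ h, (1 - e) * h * e = 0 := by
    intro h
    have h2 : Δ ((1 - e) * h * e) = (1 ⊗ₜ[k] (1 - e)) * Δ h * (1 ⊗ₜ[k] e) := by
      rw [W.mul', W.mul', hf1, mul_assoc _ (Δ 1) (Δ h), W.one_mul', Rs_right W heR, ← mul_assoc,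
        mul_assoc _ (Δ h) (Δ 1), W.mul_one']
    have h3 : ∀ u : H ⊗[k] H, TensorProduct.map LinearMap.id (es Δ S)
        ((1 ⊗ₜ[k] (1 - e)) * u * (1 ⊗ₜ[k] e)) = 0 := by
      intro u
      induction u with
      | zero => simp
      | tmul a b =>
        rw [Algebra.TensorProduct.tmul_mul_tmul, Algebra.TensorProduct.tmul_mul_tmul,
          TensorProduct.map_tmul, es_mul_right W _ heR, hes0, tmul_zero]
      | add a b ha hb => rw [mul_add, add_mul, map_add, ha, hb, add_zero]
    rw [← mul_es W ((1 - e) * h * e), h2, h3, map_zero]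
  refine ⟨e, heT, heR, fun h => ?_, hTe⟩
  have h2 := hzero h
  rw [sub_mul, one_mul, sub_mul, sub_eq_zero, heh] at h2
  exact h2.symm

/-- the central idempotent of the elements of growth at most `r` -/
theorem exists_er (hgood : Good (⊥ : Ideal H)) (r : ℝ) :
    ∃ e : H, Gr k r e ∧ e ∈ Rs Δ ∧ (∀ h, e * h = h * e) ∧ ∀ t : H, Gr k r t → t * e = t :=
  exists_idem W (Tm k H r) (fun h _ hx => Gr.mul_left h hx) (fun h _ hx => Gr.mul_right h hx)
    (fun _ hx g => Gr.slice W hgood hx g)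

end Pool.Agent.Helper59.WH
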