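import Pool.Agent.Helper59.WH.Idem

set_option autoImplicit false

/-!
# The opposite-coopposite weak Hopf algebra
-/

namespace Pool.Agent.Helper59.WH

open TensorProduct Filter

variable {k H H' : Type*} [Field k] [Ring H] [Algebra k H] [Ring H'] [Algebra k H']
  (φ : H ≃ₗ[k] H')

/-- `a ⊗ b ↦ φ b ⊗ φ a` -/
noncomputable def sw : H ⊗[k] H →ₗ[k] H' ⊗[k] H' :=
  TensorProduct.map φ.toLinearMap φ.toLinearMap ∘ₗ (TensorProduct.comm k H H).toLinearMap

@[simp] theorem sw_tmul (a b : H) : sw φ (a ⊗ₜ[k] b) = φ b ⊗ₜ[k] φ a := by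
  simp [sw]

/-- `a ⊗ (b ⊗ c) ↦ φ c ⊗ (φ b ⊗ φ a)` -/
noncomputable def rev : H ⊗[k] (H ⊗[k] H) →ₗ[k] H' ⊗[k] (H' ⊗[k] H') :=
  (TensorProduct.assoc k H' H' H').toLinearMap ∘ₗ
    (TensorProduct.comm k H' (H' ⊗[k] H')).toLinearMap ∘ₗ
      TensorProduct.map φ.toLinearMap (sw φ)

@[simp] theorem rev_tmul (a b c : H) : rev φ (a ⊗ₜ[k] (b ⊗ₜ[k] c)) =
    φ c ⊗ₜ[k] (φ b ⊗ₜ[k] φ a) := by
  simp [rev]

section mul

variable {φ} (hφ : ∀ x y, φ (x * y) = φ y * φ x)

include hφ

theorem sw_mul (u v : H ⊗[k] H) : sw φ (u * v) = sw φ v * sw φ u := by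
  induction u with
  | zero => simp
  | tmul a b =>
    induction v with
    | zero => simp
    | tmul c d => simp [hφ]
    | add c d hc hd => rw [mul_add, map_add, hc, hd, map_add, add_mul]
  | add a b ha hb => rw [add_mul, map_add, ha, hb, map_add, mul_add]

theorem rev_mul_tmul (a b c : H) (v : H ⊗[k] (H ⊗[k] H)) :
    rev φ ((a ⊗ₜ[k] (b ⊗ₜ[k] c)) * v) = rev φ v * rev φ (a ⊗ₜ[k] (b ⊗ₜ[k] c)) := by
  induction v with
  | zero => simp
  | tmul d w =>
    induction w with
    | zero => simp
    | tmul p q => simp [hφ]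
    | add p q hp hq => rw [tmul_add, mul_add, map_add, hp, hq, map_add, add_mul]
  | add c d hc hd => rw [mul_add, map_add, hc, hd, map_add, add_mul]

theorem rev_mul (u v : H ⊗[k] (H ⊗[k] H)) : rev φ (u * v) = rev φ v * rev φ u := by
  induction u with
  | zero => simp
  | tmul a w =>
    induction w with
    | zero => simp
    | tmul b c => exact rev_mul_tmul hφ a b c v
    | add p q hp hq => rw [tmul_add, add_mul, map_add, hp, hq, map_add, mul_add]
  | add a b ha hb => rw [add_mul, map_add, ha, hb, map_add, mul_add]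

theorem phi_one : φ 1 = 1 := by
  have h1 : ∀ y : H', φ 1 * y = y := by
    intro y
    obtain ⟨x, rfl⟩ := φ.surjective y
    rw [← hφ, mul_one]
  have := h1 1
  rwa [mul_one] at this

theorem rev_assoc_one (v : H ⊗[k] H) :
    rev φ (TensorProduct.assoc k H H H (v ⊗ₜ[k] 1)) = 1 ⊗ₜ[k] sw φ v := by
  induction v with
  | zero => simp
  | tmul a b => simp [phi_one hφ]
  | add a b ha hb => rw [add_tmul, map_add, map_add, ha, hb, map_add, tmul_add]

theorem rev_one (v : H ⊗[k] H) :
    rev φ (1 ⊗ₜ[k] v) = TensorProduct.assoc k H' H' H' (sw φ v ⊗ₜ[k] 1) := by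
  induction v with
  | zero => simp
  | tmul a b => simp [phi_one hφ]
  | add a b ha hb => rw [tmul_add, map_add, ha, hb, map_add, add_tmul, map_add]

end mul

variable (Δ : H →ₗ[k] H ⊗[k] H) (ε : H →ₗ[k] k) (S : H →ₗ[k] H)

/-- coopposite comultiplication on the opposite algebra -/
noncomputable def Δo : H' →ₗ[k] H' ⊗[k] H' := sw φ ∘ₗ Δ ∘ₗ φ.symm.toLinearMap

noncomputable def εo : H' →ₗ[k] k := ε ∘ₗ φ.symm.toLinearMap

noncomputable def So : H' →ₗ[k] H' := φ.toLinearMap ∘ₗ S ∘ₗ φ.symm.toLinearMap

variable {Δ ε S}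

@[simp] theorem Δo_apply (x : H') : Δo φ Δ x = sw φ (Δ (φ.symm x)) := rfl

@[simp] theorem εo_apply (x : H') : εo φ ε x = ε (φ.symm x) := rfl

@[simp] theorem So_apply (x : H') : So φ S x = φ (S (φ.symm x)) := rfl

theorem map_id_Δo (v : H ⊗[k] H) : TensorProduct.map LinearMap.id (Δo φ Δ) (sw φ v) =
    rev φ (TensorProduct.assoc k H H H (TensorProduct.map Δ LinearMap.id v)) := by
  induction v with
  | zero => simp
  | tmul a b =>
    rw [sw_tmul, TensorProduct.map_tmul, TensorProduct.map_tmul, Δo_apply, φ.symm_apply_apply]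
    have : ∀ w : H ⊗[k] H, (LinearMap.id : H' →ₗ[k] H') (φ b) ⊗ₜ[k] sw φ w =
        rev φ (TensorProduct.assoc k H H H (w ⊗ₜ[k] (LinearMap.id : H →ₗ[k] H) b)) := by
      intro w
      induction w with
      | zero => simp
      | tmul p q => simp
      | add p q hp hq => rw [map_add, tmul_add, hp, hq, add_tmul, map_add, map_add]
    exact this _
  | add a b ha hb => simp only [map_add, ha, hb]

theorem map_Δo_id (v : H ⊗[k] H) :
    TensorProduct.assoc k H' H' H' (TensorProduct.map (Δo φ Δ) LinearMap.id (sw φ v)) =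
    rev φ (TensorProduct.map LinearMap.id Δ v) := by
  induction v with
  | zero => simp
  | tmul a b =>
    rw [sw_tmul, TensorProduct.map_tmul, TensorProduct.map_tmul, Δo_apply, φ.symm_apply_apply]
    have : ∀ w : H ⊗[k] H, TensorProduct.assoc k H' H' H'
        (sw φ w ⊗ₜ[k] (LinearMap.id : H' →ₗ[k] H') (φ a)) =
        rev φ ((LinearMap.id : H →ₗ[k] H) a ⊗ₜ[k] w) := by
      intro w
      induction w with
      | zero => simp
      | tmul p q => simp
      | add p q hp hq => rw [map_add, add_tmul, map_add, hp, hq, tmul_add, map_add]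
    exact this _
  | add a b ha hb => simp only [map_add, ha, hb]

theorem symm_mul (hφ : ∀ x y, φ (x * y) = φ y * φ x) (x y : H') :
    φ.symm (x * y) = φ.symm y * φ.symm x := by
  apply φ.injective
  rw [hφ, φ.apply_symm_apply, φ.apply_symm_apply, φ.apply_symm_apply]

theorem WeakHopfOn.opp (hφ : ∀ x y, φ (x * y) = φ y * φ x) (W : WeakHopfOn Δ ε S (1 : H)) :
    WeakHopfOn (Δo φ Δ) (εo φ ε) (So φ S) (1 : H') where
  idem := one_mul 1
  central := fun x => by rw [one_mul, mul_one]
  comul_mem := fun x _ => by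
    rw [← Algebra.TensorProduct.one_def, one_mul]
  antipode_mem := fun x _ => one_mul _
  coassoc := fun x _ => by
    rw [Δo_apply, map_Δo_id, map_id_Δo, W.ca]
  counit_left := fun x _ => by
    rw [Δo_apply]
    have : ∀ v : H ⊗[k] H, TensorProduct.lid k H' (TensorProduct.map (εo φ ε) LinearMap.id
        (sw φ v)) = φ (sl ε v) := by
      intro v
      induction v with
      | zero => simp
      | tmul a b => simp
      | add a b ha hb => simp only [map_add, ha, hb]
    rw [this, W.cr, φ.apply_symm_apply]
  counit_right := fun x _ => by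
    rw [Δo_apply]
    have : ∀ v : H ⊗[k] H, TensorProduct.rid k H' (TensorProduct.map LinearMap.id (εo φ ε)
        (sw φ v)) = φ (sr ε v) := by
      intro v
      induction v with
      | zero => simp
      | tmul a b => simp
      | add a b ha hb => simp only [map_add, ha, hb]
    rw [this, W.cl, φ.apply_symm_apply]
  comul_mul := fun x y _ _ => by
    rw [Δo_apply, symm_mul φ hφ, W.mul', sw_mul hφ]; rfl
  comul_unit := by
    rw [Δo_apply, map_id_Δo, ← phi_one hφ, φ.symm_apply_apply, W.ca, W.comul_unit, rev_mul hφ,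
      rev_one hφ, rev_assoc_one hφ, phi_one hφ]
  comul_unit' := by
    rw [Δo_apply, map_id_Δo, ← phi_one hφ, φ.symm_apply_apply, W.ca, W.comul_unit', rev_mul hφ,
      rev_one hφ, rev_assoc_one hφ, phi_one hφ]
  counit_mul := fun x y z _ _ _ => by
    rw [εo_apply, symm_mul φ hφ, symm_mul φ hφ, ← mul_assoc,
      W.counit_mul (φ.symm z) (φ.symm y) (φ.symm x) (one_mul _) (one_mul _) (one_mul _), Δo_apply]
    induction Δ (φ.symm y) with
    | zero => simp
    | tmul a b => simp [mul_comm, symm_mul φ hφ]
    | add a b ha hb => simp only [map_add, ha, hb]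
  counit_mul' := fun x y z _ _ _ => by
    rw [εo_apply, symm_mul φ hφ, symm_mul φ hφ, ← mul_assoc,
      W.counit_mul' (φ.symm z) (φ.symm y) (φ.symm x) (one_mul _) (one_mul _) (one_mul _), Δo_apply]
    induction Δ (φ.symm y) with
    | zero => simp
    | tmul a b => simp [mul_comm, symm_mul φ hφ]
    | add a b ha hb => simp only [map_add, ha, hb]
  antipode_target := fun x _ => by
    have h1 : ∀ v : H ⊗[k] H, LinearMap.mul' k H' (TensorProduct.map LinearMap.id (So φ S)
        (sw φ v)) = φ (LinearMap.mul' k H (TensorProduct.map S LinearMap.id v)) := by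
      intro v
      induction v with
      | zero => simp
      | tmul a b => simp [hφ]
      | add a b ha hb => simp only [map_add, ha, hb]
    have h2 : ∀ v : H ⊗[k] H, TensorProduct.lid k H' (TensorProduct.map
        (εo φ ε ∘ₗ LinearMap.mulRight k x) LinearMap.id (sw φ v)) =
        φ (TensorProduct.rid k H (TensorProduct.map LinearMap.id
          (ε ∘ₗ LinearMap.mulLeft k (φ.symm x)) v)) := by
      intro v
      induction v with
      | zero => simp
      | tmul a b => simp [symm_mul φ hφ]
      | add a b ha hb => simp only [map_add, ha, hb]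
    rw [Δo_apply, h1, W.antipode_source (φ.symm x) (one_mul _), Δo_apply, ← phi_one hφ,
      φ.symm_apply_apply, h2]
  antipode_source := fun x _ => by
    have h1 : ∀ v : H ⊗[k] H, LinearMap.mul' k H' (TensorProduct.map (So φ S) LinearMap.id
        (sw φ v)) = φ (LinearMap.mul' k H (TensorProduct.map LinearMap.id S v)) := by
      intro v
      induction v with
      | zero => simp
      | tmul a b => simp [hφ]
      | add a b ha hb => simp only [map_add, ha, hb]
    have h2 : ∀ v : H ⊗[k] H, TensorProduct.rid k H' (TensorProduct.map LinearMap.id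
        (εo φ ε ∘ₗ LinearMap.mulLeft k x) (sw φ v)) =
        φ (TensorProduct.lid k H (TensorProduct.map
          (ε ∘ₗ LinearMap.mulRight k (φ.symm x)) LinearMap.id v)) := by
      intro v
      induction v with
      | zero => simp
      | tmul a b => simp [symm_mul φ hφ]
      | add a b ha hb => simp only [map_add, ha, hb]
    rw [Δo_apply, h1, W.antipode_target (φ.symm x) (one_mul _), Δo_apply, ← phi_one hφ,
      φ.symm_apply_apply, h2]
  antipode_antipode := fun x _ => by
    -- `ε_s(x₁) S(x₂)`
    have h1 : ∀ v : H ⊗[k] H, LinearMap.mul' k H' (TensorProduct.map (So φ S)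
        (LinearMap.mul' k H' ∘ₗ TensorProduct.map LinearMap.id (So φ S) ∘ₗ Δo φ Δ) (sw φ v)) =
        φ (LinearMap.mul' k H (TensorProduct.map (es Δ S) S v)) := by
      intro v
      induction v with
      | zero => simp
      | tmul a b =>
        have h2 : ∀ w : H ⊗[k] H, LinearMap.mul' k H' (TensorProduct.map LinearMap.id (So φ S)
            (sw φ w)) =
            φ (LinearMap.mul' k H (TensorProduct.map S LinearMap.id w)) := by
          intro w
          induction w with
          | zero => simp
          | tmul a b => simp [hφ]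
          | add a b ha hb => simp only [map_add, ha, hb]
        rw [sw_tmul, TensorProduct.map_tmul, LinearMap.comp_apply, LinearMap.comp_apply,
          Δo_apply, φ.symm_apply_apply, h2]
        simp [es, hφ]
      | add a b ha hb => simp only [map_add, ha, hb]
    rw [Δo_apply, h1, So_apply]
    congr 1
    rw [← W.antipode_antipode (φ.symm x) (one_mul _)]
    -- both sides are `S(x₁) x₂ S(x₃)`
    let Φ : H ⊗[k] (H ⊗[k] H) →ₗ[k] H := LinearMap.mul' k H ∘ₗ
      TensorProduct.map S (LinearMap.mul' k H ∘ₗ TensorProduct.map LinearMap.id S)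
    have h3 : ∀ v : H ⊗[k] H, LinearMap.mul' k H (TensorProduct.map (es Δ S) S v) =
        Φ (TensorProduct.assoc k H H H (TensorProduct.map Δ LinearMap.id v)) := by
      intro v
      induction v with
      | zero => simp
      | tmul a b =>
        rw [TensorProduct.map_tmul, TensorProduct.map_tmul]
        have : ∀ w : H ⊗[k] H, LinearMap.mul' k H
            (LinearMap.mul' k H (TensorProduct.map S LinearMap.id w) ⊗ₜ[k] S b) =
            Φ (TensorProduct.assoc k H H H (w ⊗ₜ[k] (LinearMap.id : H →ₗ[k] H) b)) := by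
          intro w
          induction w with
          | zero => simp
          | tmul p q => simp [Φ, mul_assoc]
          | add p q hp hq => simp only [map_add, add_tmul, hp, hq]
        exact this _
      | add a b ha hb => simp only [map_add, ha, hb]
    have h4 : ∀ v : H ⊗[k] H, LinearMap.mul' k H (TensorProduct.map S
        (LinearMap.mul' k H ∘ₗ TensorProduct.map LinearMap.id S ∘ₗ Δ) v) =
        Φ (TensorProduct.map LinearMap.id Δ v) := by
      intro v
      induction v with
      | zero => simp
      | tmul a b => simp [Φ]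
      | add a b ha hb => simp only [map_add, ha, hb]
    rw [h3, h4, W.ca]

end Pool.Agent.Helper59.WH
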