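import Pool.Agent.Helper59.WH.Op

set_option autoImplicit false

/-!
# Weak Hopf subalgebras of central idempotents of `H_s ∩ H_t`; the idempotents `e_r`
-/

namespace Pool.Agent.Helper59.WH

open TensorProduct Filter

section opp

variable {k H H' : Type*} [Field k] [Ring H] [Algebra k H] [Ring H'] [Algebra k H']
  {φ : H ≃ₗ[k] H'}

theorem map_anti_mul (hφ : ∀ x y, φ (x * y) = φ y * φ x) (A B : Submodule k H) :
    (A * B).map φ.toLinearMap = B.map φ.toLinearMap * A.map φ.toLinearMap := by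
  apply le_antisymm
  · rw [Submodule.map_le_iff_le_comap, Submodule.mul_le]
    intro a ha b hb
    rw [Submodule.mem_comap]
    have : φ.toLinearMap (a * b) = φ b * φ a := hφ a b
    rw [this]
    exact Submodule.mul_mem_mul (Submodule.mem_map_of_mem hb) (Submodule.mem_map_of_mem ha)
  · rw [Submodule.mul_le]
    rintro _ ⟨b, hb, rfl⟩ _ ⟨a, ha, rfl⟩
    exact ⟨a * b, Submodule.mul_mem_mul ha hb, hφ a b⟩

theorem map_anti_pow (hφ : ∀ x y, φ (x * y) = φ y * φ x) (A : Submodule k H) (n : ℕ) :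
    (A ^ n).map φ.toLinearMap = (A.map φ.toLinearMap) ^ n := by
  induction n with
  | zero =>
    rw [pow_zero, pow_zero, Submodule.one_eq_span, Submodule.one_eq_span, Submodule.map_span,
      Set.image_singleton]
    congr 2
    exact phi_one hφ
  | succ n ih => rw [pow_succ, pow_succ', map_anti_mul hφ, ih]

theorem Gr.anti (hφ : ∀ x y, φ (x * y) = φ y * φ x) {r : ℝ} {x : H} (hx : Gr k r x)
    (hc : ∀ h, x * h = h * x) : Gr k r (φ x) := by
  intro C' hC' s hs
  let C : Submodule k H := C'.map φ.symm.toLinearMap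
  have hC : C.FG := hC'.map _
  have hCC : C.map φ.toLinearMap = C' := by
    ext z
    constructor
    · rintro ⟨_, ⟨y, hy, rfl⟩, rfl⟩
      have : φ.toLinearMap (φ.symm.toLinearMap y) = y := φ.apply_symm_apply y
      rwa [this]
    · intro hz
      exact ⟨φ.symm z, ⟨z, hz, rfl⟩, φ.apply_symm_apply z⟩
  filter_upwards [hx C hC s hs] with n hn
  have h1 : C' ^ n * Submodule.span k {φ x} =
      (C ^ n * Submodule.span k {x}).map φ.toLinearMap := by
    rw [map_anti_mul hφ, map_anti_pow hφ, hCC, Submodule.map_span, Set.image_singleton]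
    have h2 : ∀ X : Submodule k H', X * Submodule.span k {φ x} = Submodule.span k {φ x} * X := by
      intro X
      ext z
      rw [Submodule.mem_mul_span_singleton, Submodule.mem_span_singleton_mul]
      have h3 : ∀ y : H', y * φ x = φ x * y := by
        intro y
        obtain ⟨h, rfl⟩ := φ.surjective y
        rw [← hφ, ← hφ, hc]
      constructor
      · rintro ⟨y, hy, rfl⟩; exact ⟨y, hy, (h3 y).symm⟩
      · rintro ⟨y, hy, rfl⟩; exact ⟨y, hy, h3 y⟩
    exact h2 _
  rw [h1]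
  have : Module.Finite k ↥(C ^ n * Submodule.span k {x}) :=
    Module.Finite.iff_fg.mpr (fg_pow_mul hC n x)
  refine le_trans ?_ hn
  exact_mod_cast Submodule.finrank_map_le _ _

theorem exists_er_both {Δ : H →ₗ[k] H ⊗[k] H} {ε : H →ₗ[k] k} {S : H →ₗ[k] H}
    (W : WeakHopfOn Δ ε S (1 : H)) (hφ : ∀ x y, φ (x * y) = φ y * φ x)
    (hgood : Good (⊥ : Ideal H)) (hgood' : Good (⊥ : Ideal H')) (r : ℝ) :
    ∃ e : H, Gr k r e ∧ e ∈ Rs Δ ∧ e ∈ Rt Δ ∧ (∀ h, e * h = h * e) ∧
      ∀ t : H, Gr k r t → t * e = t := by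
  obtain ⟨e, he1, he2, he3, he4⟩ := exists_er W hgood r
  obtain ⟨e', he1', he2', he3', he4'⟩ := exists_er (W.opp φ hφ) hgood' r
  have hφ' : ∀ x y, φ.symm (x * y) = φ.symm y * φ.symm x := symm_mul φ hφ
  have h1 : φ e * e' = φ e := he4' _ (he1.anti hφ he3)
  have h2 : φ.symm e' * e = φ.symm e' := he4 _ (he1'.anti hφ' he3')
  have h3 : e' = φ e := by
    have h4 := congrArg φ h2
    rw [hφ, φ.apply_symm_apply, h1] at h4
    exact h4.symm
  refine ⟨e, he1, he2, ?_, he3, he4⟩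
  obtain ⟨g, hg⟩ := he2'
  refine ⟨g ∘ₗ φ.toLinearMap, ?_⟩
  apply φ.injective
  rw [← h3, ← hg, Δo_apply, ← phi_one hφ, φ.symm_apply_apply]
  have : ∀ v : H ⊗[k] H, φ (sr (g ∘ₗ φ.toLinearMap) v) = sl g (sw φ v) := by
    intro v
    induction v with
    | zero => simp
    | tmul a b => simp
    | add a b ha hb => simp only [map_add, ha, hb]
  exact this _

end opp

section sub

variable {k H : Type*} [Field k] [Ring H] [Algebra k H]
  {Δ : H →ₗ[k] H ⊗[k] H} {ε : H →ₗ[k] k} {S : H →ₗ[k] H}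

/-- the idempotents that cut out weak Hopf subalgebras -/
structure Cut (Δ : H →ₗ[k] H ⊗[k] H) (e : H) : Prop where
  idem : e * e = e
  central : ∀ x, e * x = x * e
  src : e ∈ Rs Δ
  tgt : e ∈ Rt Δ

variable (W : WeakHopfOn Δ ε S (1 : H)) {e : H} (he : Cut Δ e)

include W he

theorem Cut.one_left {x : H} (hx : e * x = x) : (1 ⊗ₜ[k] e) * Δ x = Δ x := by
  have h : Δ x = (1 ⊗ₜ[k] e) * Δ x := by
    conv_lhs => rw [← hx, W.mul', Rs_left W he.src, mul_assoc, W.one_mul']
  exact h.symm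

theorem Cut.left_one {x : H} (hx : e * x = x) : (e ⊗ₜ[k] 1) * Δ x = Δ x := by
  have h : Δ x = (e ⊗ₜ[k] 1) * Δ x := by
    conv_lhs => rw [← hx, W.mul', Rt_left W he.tgt, mul_assoc, W.one_mul']
  exact h.symm

theorem Cut.both {x : H} (hx : e * x = x) : (e ⊗ₜ[k] e) * Δ x = Δ x := by
  have h : (e ⊗ₜ[k] e : H ⊗[k] H) = (e ⊗ₜ[k] 1) * (1 ⊗ₜ[k] e) := by
    rw [Algebra.TensorProduct.tmul_mul_tmul, mul_one, one_mul]
  rw [h, mul_assoc, he.one_left W hx, he.left_one W hx]

theorem Cut.comul_e : Δ e = (e ⊗ₜ[k] e) * Δ 1 := by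
  have h1 : (1 ⊗ₜ[k] e) * Δ e = Δ e := he.one_left W he.idem
  rw [← h1, Rt_left W he.tgt, ← mul_assoc, Algebra.TensorProduct.tmul_mul_tmul, mul_one, one_mul]

theorem Cut.et_mul (b : H) : et Δ S (e * b) = e * et Δ S b := by
  have h1 : Δ (e * b) = (e ⊗ₜ[k] 1) * Δ b := by
    rw [W.mul', Rt_left W he.tgt, mul_assoc, W.one_mul']
  simp only [et, LinearMap.comp_apply]
  rw [h1]
  induction Δ b with
  | zero => simp
  | tmul p q => simp [mul_assoc]
  | add p q hp hq => rw [mul_add, map_add, map_add, hp, hq, map_add, map_add, mul_add]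

theorem Cut.es_mul (b : H) : es Δ S (e * b) = e * es Δ S b := by
  have h1 : Δ (e * b) = (1 ⊗ₜ[k] e) * Δ b := by
    rw [W.mul', Rs_left W he.src, mul_assoc, W.one_mul']
  simp only [es, LinearMap.comp_apply]
  rw [h1]
  induction Δ b with
  | zero => simp
  | tmul p q =>
    simp only [Algebra.TensorProduct.tmul_mul_tmul, TensorProduct.map_tmul, one_mul,
      LinearMap.id_apply, LinearMap.mul'_apply]
    rw [← mul_assoc, ← he.central, mul_assoc]
  | add p q hp hq => rw [mul_add, map_add, map_add, hp, hq, map_add, map_add, mul_add]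

theorem Cut.S_mem {x : H} (hx : e * x = x) : e * S x = S x := by
  have h1 : ∀ v : H ⊗[k] H, LinearMap.mul' k H (TensorProduct.map S (et Δ S)
      ((1 ⊗ₜ[k] e) * v)) = e * LinearMap.mul' k H (TensorProduct.map S (et Δ S) v) := by
    intro v
    induction v with
    | zero => simp
    | tmul p q =>
      rw [Algebra.TensorProduct.tmul_mul_tmul, TensorProduct.map_tmul, TensorProduct.map_tmul,
        one_mul, he.et_mul W, LinearMap.mul'_apply, LinearMap.mul'_apply, ← mul_assoc,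
        ← he.central, mul_assoc]
    | add p q hp hq => rw [mul_add, map_add, map_add, hp, hq, map_add, map_add, mul_add]
  have h2 : LinearMap.mul' k H (TensorProduct.map S (et Δ S) (Δ x)) = S x :=
    W.antipode_antipode x (one_mul _)
  rw [← h2, ← h1, he.one_left W hx]

theorem Cut.map_id_comul : (e ⊗ₜ[k] (e ⊗ₜ[k] e)) * TensorProduct.map LinearMap.id Δ (Δ e) =
    TensorProduct.map LinearMap.id Δ (Δ e) := by
  have h1 : ∀ v : H ⊗[k] H, (e ⊗ₜ[k] (e ⊗ₜ[k] e)) *
      TensorProduct.map LinearMap.id Δ ((e ⊗ₜ[k] e) * v) =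
      TensorProduct.map LinearMap.id Δ ((e ⊗ₜ[k] e) * v) := by
    intro v
    induction v with
    | zero => simp
    | tmul p q =>
      rw [Algebra.TensorProduct.tmul_mul_tmul, TensorProduct.map_tmul, LinearMap.id_apply,
        Algebra.TensorProduct.tmul_mul_tmul, ← mul_assoc, he.idem,
        he.both W (by rw [← mul_assoc, he.idem])]
    | add p q hp hq => rw [mul_add, map_add, mul_add, hp, hq]
  rw [he.comul_e W]
  exact h1 _

theorem Cut.comul_id (v : H ⊗[k] H) : TensorProduct.map LinearMap.id Δ ((e ⊗ₜ[k] 1) * v) =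
    (e ⊗ₜ[k] 1) * TensorProduct.map LinearMap.id Δ v := by
  induction v with
  | zero => simp
  | tmul p q =>
    rw [Algebra.TensorProduct.tmul_mul_tmul, TensorProduct.map_tmul, TensorProduct.map_tmul,
      Algebra.TensorProduct.tmul_mul_tmul, one_mul, one_mul]
    rfl
  | add p q hp hq => rw [mul_add, map_add, map_add, mul_add, hp, hq]

theorem Cut.weakHopf : WeakHopfOn Δ ε S e where
  idem := he.idem
  central := he.central
  comul_mem := fun x hx => he.both W hx
  antipode_mem := fun x hx => he.S_mem W hx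
  coassoc := fun x _ => W.ca x
  counit_left := fun x _ => W.cl x
  counit_right := fun x _ => W.cr x
  comul_mul := fun x y _ _ => W.mul' x y
  comul_unit := by
    have hE : (e ⊗ₜ[k] (e ⊗ₜ[k] e) : H ⊗[k] (H ⊗[k] H)) * (e ⊗ₜ[k] (e ⊗ₜ[k] e)) =
        e ⊗ₜ[k] (e ⊗ₜ[k] e) := by
      simp only [Algebra.TensorProduct.tmul_mul_tmul, he.idem]
    have hE1 : (e ⊗ₜ[k] (e ⊗ₜ[k] e) : H ⊗[k] (H ⊗[k] H)) * (e ⊗ₜ[k] 1) =
        e ⊗ₜ[k] (e ⊗ₜ[k] e) := by
      simp only [Algebra.TensorProduct.tmul_mul_tmul, he.idem, mul_one]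
    have hA : TensorProduct.assoc k H H H (Δ e ⊗ₜ[k] e) =
        (e ⊗ₜ[k] (e ⊗ₜ[k] e)) * TensorProduct.assoc k H H H (Δ 1 ⊗ₜ[k] 1) := by
      rw [he.comul_e W]
      induction Δ 1 with
      | zero => simp
      | tmul p q => simp
      | add p q hp hq =>
        rw [mul_add, add_tmul, map_add, hp, hq, add_tmul, map_add, mul_add]
    have hA' : TensorProduct.assoc k H H H (Δ e ⊗ₜ[k] e) =
        TensorProduct.assoc k H H H (Δ 1 ⊗ₜ[k] 1) * (e ⊗ₜ[k] (e ⊗ₜ[k] e)) := by
      rw [he.comul_e W]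
      induction Δ 1 with
      | zero => simp
      | tmul p q => simp [he.central]
      | add p q hp hq =>
        rw [mul_add, add_tmul, map_add, hp, hq, add_tmul, map_add, add_mul]
    have hB : (e ⊗ₜ[k] Δ e : H ⊗[k] (H ⊗[k] H)) = (e ⊗ₜ[k] (e ⊗ₜ[k] e)) * (1 ⊗ₜ[k] Δ 1) := by
      rw [Algebra.TensorProduct.tmul_mul_tmul, mul_one, ← he.comul_e W]
    rw [← he.map_id_comul W]
    rw [show TensorProduct.map LinearMap.id Δ (Δ e) = (e ⊗ₜ[k] 1) *
      TensorProduct.map LinearMap.id Δ (Δ 1) by rw [← he.comul_id W, ← Rt_left W he.tgt]]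
    rw [← mul_assoc, hE1, W.comul_unit, hA', hB, ← mul_assoc, ← mul_assoc,
      mul_assoc _ (e ⊗ₜ[k] (e ⊗ₜ[k] e)) (e ⊗ₜ[k] (e ⊗ₜ[k] e)), hE, ← hA', hA]
  comul_unit' := by
    have hE : (e ⊗ₜ[k] (e ⊗ₜ[k] e) : H ⊗[k] (H ⊗[k] H)) * (e ⊗ₜ[k] (e ⊗ₜ[k] e)) =
        e ⊗ₜ[k] (e ⊗ₜ[k] e) := by
      simp only [Algebra.TensorProduct.tmul_mul_tmul, he.idem]
    have hE1 : (e ⊗ₜ[k] (e ⊗ₜ[k] e) : H ⊗[k] (H ⊗[k] H)) * (e ⊗ₜ[k] 1) =
        e ⊗ₜ[k] (e ⊗ₜ[k] e) := by
      simp only [Algebra.TensorProduct.tmul_mul_tmul, he.idem, mul_one]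
    have hA : TensorProduct.assoc k H H H (Δ e ⊗ₜ[k] e) =
        (e ⊗ₜ[k] (e ⊗ₜ[k] e)) * TensorProduct.assoc k H H H (Δ 1 ⊗ₜ[k] 1) := by
      rw [he.comul_e W]
      induction Δ 1 with
      | zero => simp
      | tmul p q => simp
      | add p q hp hq =>
        rw [mul_add, add_tmul, map_add, hp, hq, add_tmul, map_add, mul_add]
    have hB : (e ⊗ₜ[k] Δ e : H ⊗[k] (H ⊗[k] H)) = (e ⊗ₜ[k] (e ⊗ₜ[k] e)) * (1 ⊗ₜ[k] Δ 1) := by
      rw [Algebra.TensorProduct.tmul_mul_tmul, mul_one, ← he.comul_e W]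
    have hB' : (e ⊗ₜ[k] Δ e : H ⊗[k] (H ⊗[k] H)) = (1 ⊗ₜ[k] Δ 1) * (e ⊗ₜ[k] (e ⊗ₜ[k] e)) := by
      rw [he.comul_e W, Algebra.TensorProduct.tmul_mul_tmul, one_mul]
      congr 1
      induction Δ 1 with
      | zero => simp
      | tmul p q => simp [he.central]
      | add p q hp hq => rw [mul_add, hp, hq, add_mul]
    rw [← he.map_id_comul W]
    rw [show TensorProduct.map LinearMap.id Δ (Δ e) = (e ⊗ₜ[k] 1) *
      TensorProduct.map LinearMap.id Δ (Δ 1) by rw [← he.comul_id W, ← Rt_left W he.tgt]]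
    rw [← mul_assoc, hE1, W.comul_unit', hA, hB', ← mul_assoc, ← mul_assoc,
      mul_assoc _ (e ⊗ₜ[k] (e ⊗ₜ[k] e)) (e ⊗ₜ[k] (e ⊗ₜ[k] e)), hE, ← hB', hB]
  counit_mul := fun x y z _ _ _ => W.counit_mul x y z (one_mul _) (one_mul _) (one_mul _)
  counit_mul' := fun x y z _ _ _ => W.counit_mul' x y z (one_mul _) (one_mul _) (one_mul _)
  antipode_target := fun x hx => by
    have h1 : et Δ S x = sr (ε ∘ₗ LinearMap.mulRight k x) (Δ e) := by
      rw [he.comul_e W]
      have h2 : ∀ v : H ⊗[k] H, sr (ε ∘ₗ LinearMap.mulRight k x) ((e ⊗ₜ[k] e) * v) =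
          e * sr (ε ∘ₗ LinearMap.mulRight k x) v := by
        intro v
        induction v with
        | zero => simp
        | tmul p q =>
          rw [Algebra.TensorProduct.tmul_mul_tmul, sr_tmul, sr_tmul, LinearMap.comp_apply,
            LinearMap.comp_apply, LinearMap.mulRight_apply, LinearMap.mulRight_apply,
            he.central p, mul_assoc, hx, mul_smul_comm]
        | add p q hp hq => rw [mul_add, map_add, hp, hq, map_add, mul_add]
      rw [h2, ← sr_mul_one, ← et_eq W, ← he.et_mul W, hx]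
    exact h1
  antipode_source := fun x hx => by
    have h1 : es Δ S x = sl (ε ∘ₗ LinearMap.mulLeft k x) (Δ e) := by
      rw [he.comul_e W]
      have h2 : ∀ v : H ⊗[k] H, sl (ε ∘ₗ LinearMap.mulLeft k x) ((e ⊗ₜ[k] e) * v) =
          e * sl (ε ∘ₗ LinearMap.mulLeft k x) v := by
        intro v
        induction v with
        | zero => simp
        | tmul p q =>
          rw [Algebra.TensorProduct.tmul_mul_tmul, sl_tmul, sl_tmul, LinearMap.comp_apply,
            LinearMap.comp_apply, LinearMap.mulLeft_apply, LinearMap.mulLeft_apply,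
            ← mul_assoc x e q, ← he.central, hx, mul_smul_comm]
        | add p q hp hq => rw [mul_add, map_add, hp, hq, map_add, mul_add]
      rw [h2, ← sl_one_mul, ← es_eq W, ← he.es_mul W, hx]
    exact h1
  antipode_antipode := fun x _ => W.antipode_antipode x (one_mul _)

end sub

end Pool.Agent.Helper59.WH
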